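import Pool.Agent.H31.G5.Shapes

/-! # Arcs on the intersection of the quadrics -/

set_option autoImplicit false

namespace Pool.Agent.H31.G5

open Pool.Agent.H31.SX
open Matrix Polynomial

variable {K : Type*} [Field K] {M : Fin 3 → Matrix (Fin 5) (Fin 5) K}

/-- The vector of the coefficients. -/
def cf {n : ℕ} (k : ℕ) (x : Fin n → K[X]) : Fin n → K := fun j => (x j).coeff k

/-- Constant vectors. -/
noncomputable def cst {n : ℕ} (a : Fin n → K) : Fin n → K[X] := fun j => C (a j)

theorem bv_cst (a b : Fin 5 → K) : bv M (cst a) (cst b) = cst (bv M a b) := by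
  have h := bv_map M (CAlgHom : K →ₐ[K] K[X]) a b
  exact h.symm

theorem cf_bv (x y : Fin 5 → K[X]) : cf 0 (bv M x y) = bv M (cf 0 x) (cf 0 y) := by
  have h := bv_map M (aeval (0 : K) : K[X] →ₐ[K] K) x y
  have h1 : ∀ {n : ℕ} (w : Fin n → K[X]), (aeval (0 : K) : K[X] →ₐ[K] K) ∘ w = cf 0 w := by
    intro n w
    funext j
    simp only [Function.comp, cf, coeff_zero_eq_eval_zero, coe_aeval_eq_eval]
  rw [h1, h1, h1] at h
  exact h

/-- Arcs of order `k`. -/
structure IsArc (M : Fin 3 → Matrix (Fin 5) (Fin 5) K) (k : ℕ) (A t : Fin 5 → K)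
    (x : Fin 5 → K[X]) : Prop where
  c0 : cf 0 x = A
  c1 : cf 1 x = t
  van : ∀ i, X ^ k ∣ bv M x x i

theorem exists_arc [CharZero K] (hM : ∀ i, (M i).IsSymm) (hsm : Sm M) {A t : Fin 5 → K}
    (hA0 : A ≠ 0) (hA : bv M A A = 0) (ht : bv M A t = 0) (k : ℕ) :
    ∃ x, IsArc M (k + 2) A t x := by
  induction k with
  | zero =>
    refine ⟨cst A + (X : K[X]) • cst t, ?_, ?_, ?_⟩
    · funext j
      simp [cf, cst]
    · funext j
      simp [cf, cst, coeff_C_succ]
    · intro i
      have h1 : bv M (cst A + (X : K[X]) • cst t) (cst A + (X : K[X]) • cst t) =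
          (X ^ 2 : K[X]) • cst (bv M t t) := by
        simp only [bv_add_left, bv_add_right, bv_smul_left, bv_smul_right]
        rw [bv_cst, bv_cst, bv_cst, bv_cst, bv_comm hM t A, hA, ht]
        funext j
        simp [cst]
        ring
      rw [h1]
      exact Dvd.intro _ rfl
  | succ k ih =>
    obtain ⟨x, h0, h1, hv⟩ := ih
    choose g hg using hv
    obtain ⟨z, hz⟩ := hsm A hA0 hA (fun i => -(1 / 2) * (g i).coeff 0)
    refine ⟨x + (X ^ (k + 2) : K[X]) • cst z, ?_, ?_, ?_⟩
    · rw [← h0]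
      funext j
      have : ((X ^ (k + 2) : K[X]) * C (z j)).coeff 0 = 0 := by
        rw [mul_coeff_zero]; simp
      simp [cf, cst]
    · rw [← h1]
      funext j
      have : ((X ^ (k + 2) : K[X]) * C (z j)).coeff 1 = 0 := by
        rw [coeff_X_pow_mul']
        simp
      simp only [cf, Pi.add_apply, Pi.smul_apply, smul_eq_mul, coeff_add, cst]
      rw [this, add_zero]
    · intro i
      have hE : bv M (x + (X ^ (k + 2) : K[X]) • cst z) (x + (X ^ (k + 2) : K[X]) • cst z) i =
          X ^ (k + 2) * (g i + 2 * bv M x (cst z) i +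
            X ^ (k + 2) * bv M (cst z) (cst z) i) := by
        simp only [bv_add_left, bv_add_right, bv_smul_left, bv_smul_right]
        rw [bv_comm hM (cst z) x]
        simp only [Pi.add_apply, Pi.smul_apply, smul_eq_mul]
        rw [hg i]
        ring
      rw [hE]
      have hX : (X : K[X]) ∣ g i + 2 * bv M x (cst z) i +
            X ^ (k + 2) * bv M (cst z) (cst z) i := by
        rw [X_dvd_iff]
        have e1 : (bv M x (cst z) i).coeff 0 = -(1 / 2) * (g i).coeff 0 := by
          have e2 := congrFun (cf_bv (M := M) x (cst z)) i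
          have e3 : cf 0 (cst z) = z := by funext j; simp [cf, cst]
          rw [h0, e3, hz] at e2
          exact e2
        have e4 : (2 * bv M x (cst z) i).coeff 0 = 2 * (bv M x (cst z) i).coeff 0 := by
          rw [mul_coeff_zero]; simp
        have e5 : (X ^ (k + 2) * bv M (cst z) (cst z) i).coeff 0 = 0 := by
          rw [mul_coeff_zero]; simp
        rw [coeff_add, coeff_add, e4, e1, e5]
        ring
      have h3 : (X : K[X]) ^ (k + 1 + 2) = X ^ (k + 2) * X := by ring
      rw [h3]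
      exact mul_dvd_mul_left _ hX

theorem expand4 (p : K[X]) : ∃ w : K[X], p = C (p.coeff 0) + X * C (p.coeff 1) +
    X ^ 2 * C (p.coeff 2) + X ^ 3 * C (p.coeff 3) + X ^ 4 * w := by
  have h : X ^ 4 ∣ p - (C (p.coeff 0) + X * C (p.coeff 1) + X ^ 2 * C (p.coeff 2) +
      X ^ 3 * C (p.coeff 3)) := by
    rw [X_pow_dvd_iff]
    intro d hd
    interval_cases d <;> simp [coeff_X, coeff_X_pow, coeff_C]
  obtain ⟨w, hw⟩ := h
  exact ⟨w, by rw [← hw]; ring⟩

theorem expand4v (x : Fin 5 → K[X]) : ∃ w : Fin 5 → K[X], x = cst (cf 0 x) + (X : K[X]) • cst (cf 1 x) +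
    (X ^ 2 : K[X]) • cst (cf 2 x) + (X ^ 3 : K[X]) • cst (cf 3 x) + (X ^ 4 : K[X]) • w := by
  choose w hw using fun j => expand4 (x j)
  refine ⟨w, ?_⟩
  funext j
  exact hw j

theorem two_coeffs (e f : K) (q : K[X]) (h : X ^ 4 ∣ C e * X ^ 2 + C f * X ^ 3 + X ^ 4 * q) :
    e = 0 ∧ f = 0 := by
  rw [X_pow_dvd_iff] at h
  constructor
  · have := h 2 (by norm_num)
    simpa [coeff_X_pow, coeff_X_pow_mul'] using this
  · have := h 3 (by norm_num)
    simpa [coeff_X_pow, coeff_X_pow_mul'] using this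

/-- The relations between the jets. -/
theorem IsArc.jets [CharZero K] (hM : ∀ i, (M i).IsSymm) {k : ℕ} (hk : 4 ≤ k)
    {A t : Fin 5 → K} {x : Fin 5 → K[X]} (h : IsArc M k A t x) (hA : bv M A A = 0)
    (ht : bv M A t = 0) :
    (2 : K) • bv M A (cf 2 x) + bv M t t = 0 ∧ bv M A (cf 3 x) + bv M t (cf 2 x) = 0 := by
  obtain ⟨w, hw⟩ := expand4v x
  rw [h.c0, h.c1] at hw
  set z := cf 2 x with hz
  set y := cf 3 x with hy
  have hkey : ∀ i, ((2 : K) * bv M A z i + bv M t t i) = 0 ∧
      (2 * (bv M A y i + bv M t z i)) = 0 := by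
    intro i
    have h1 : X ^ 4 ∣ bv M x x i := (pow_dvd_pow X hk).trans (h.van i)
    have h2 : ∃ q : K[X], bv M x x i = C ((2 : K) * bv M A z i + bv M t t i) * X ^ 2 +
      C (2 * (bv M A y i + bv M t z i)) * X ^ 3 + X ^ 4 * q := by
      refine ⟨C (2 * bv M t y i + bv M z z i) + X * C (2 * bv M z y i) + X ^ 2 * C (bv M y y i) +
        2 * bv M (cst A + (X : K[X]) • cst t + (X ^ 2 : K[X]) • cst z +
          (X ^ 3 : K[X]) • cst y) w i + X ^ 4 * bv M w w i, ?_⟩
      nth_rewrite 1 [hw]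
      nth_rewrite 1 [hw]
      simp only [bv_add_left, bv_add_right, bv_smul_left, bv_smul_right, bv_cst]
      rw [bv_comm hM t A, bv_comm hM z A, bv_comm hM y A, bv_comm hM z t, bv_comm hM y t,
        bv_comm hM y z, bv_comm hM w (cst A), bv_comm hM w (cst t), bv_comm hM w (cst z),
        bv_comm hM w (cst y), hA, ht]
      simp only [Pi.add_apply, Pi.smul_apply, smul_eq_mul, cst, Pi.zero_apply, map_zero, map_mul,
        map_add, C_ofNat]
      ring
    obtain ⟨q, hq⟩ := h2
    rw [hq] at h1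
    exact two_coeffs _ _ q h1
  constructor
  · funext i
    exact (hkey i).1
  · funext i
    exact (mul_eq_zero.mp (hkey i).2).resolve_left two_ne_zero

end Pool.Agent.H31.G5
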