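import Mathlib

/-! # The combinatorics of octets -/

set_option autoImplicit false

namespace Pool.Agent.H31.G5

set_option linter.unusedSectionVars false

/-- The unit vector. -/
def sg {ι : Type*} [DecidableEq ι] (i : ι) : ι → ℕ := fun Z => if Z = i then 1 else 0

variable {ι : Type*} [Fintype ι] [DecidableEq ι]

theorem sg_self (i : ι) : sg i i = 1 := by unfold sg; rw [if_pos rfl]

theorem sg_ne {i Z : ι} (h : Z ≠ i) : sg i Z = 0 := by unfold sg; rw [if_neg h]

theorem sum_sg (i : ι) : ∑ Z, sg i Z = 1 := by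
  unfold sg
  simp

theorem exists_pos {f : ι → ℕ} (h : 1 ≤ ∑ Z, f Z) : ∃ Y, 1 ≤ f Y := by
  by_contra hno
  push Not at hno
  have : ∑ Z, f Z = 0 := Finset.sum_eq_zero fun Z _ => by have := hno Z; omega
  omega

theorem sub_sg {f : ι → ℕ} {Y : ι} (h : 1 ≤ f Y) :
    ∑ Z, (f Z - sg Y Z) + 1 = ∑ Z, f Z := by
  have h1 : ∑ Z, (f Z - sg Y Z) + ∑ Z, sg Y Z = ∑ Z, f Z := by
    rw [← Finset.sum_add_distrib]
    refine Finset.sum_congr rfl fun Z _ => ?_
    by_cases hZ : Z = Y
    · subst hZ; rw [sg_self]; omega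
    · rw [sg_ne hZ]; omega
  rw [sum_sg] at h1
  exact h1

theorem sum2 (f : ι → ℕ) {A B : ι} (h : A ≠ B) : f A + f B ≤ ∑ Z, f Z := by
  rw [← Finset.sum_pair h]
  exact Finset.sum_le_sum_of_subset (Finset.subset_univ _)

theorem sum3 (f : ι → ℕ) {A B C : ι} (h1 : A ≠ B) (h2 : A ≠ C) (h3 : B ≠ C) :
    f A + f B + f C ≤ ∑ Z, f Z := by
  have h : ∑ Z ∈ {A, B, C}, f Z = f A + f B + f C := by
    rw [Finset.sum_insert (by simp [h1, h2]), Finset.sum_pair h3]; ring
  rw [← h]
  exact Finset.sum_le_sum_of_subset (Finset.subset_univ _)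

theorem sum4 (f : ι → ℕ) {A B C D : ι} (h1 : A ≠ B) (h2 : A ≠ C) (h3 : B ≠ C) (h4 : A ≠ D)
    (h5 : B ≠ D) (h6 : C ≠ D) : f A + f B + f C + f D ≤ ∑ Z, f Z := by
  have h : ∑ Z ∈ {A, B, C, D}, f Z = f A + f B + f C + f D := by
    rw [Finset.sum_insert (by simp [h1, h2, h4]), Finset.sum_insert (by simp [h3, h5]),
      Finset.sum_pair h6]; ring
  rw [← h]
  exact Finset.sum_le_sum_of_subset (Finset.subset_univ _)

theorem sum2eq {f : ι → ℕ} {A B : ι} (h : A ≠ B) (h0 : ∀ Z, Z ≠ A → Z ≠ B → f Z = 0) :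
    ∑ Z, f Z = f A + f B := by
  rw [← Finset.sum_pair h]
  symm
  refine Finset.sum_subset (Finset.subset_univ _) fun Z _ hZ => ?_
  simp only [Finset.mem_insert, Finset.mem_singleton, not_or] at hZ
  exact h0 Z hZ.1 hZ.2

theorem sum3eq {f : ι → ℕ} {A B C : ι} (h1 : A ≠ B) (h2 : A ≠ C) (h3 : B ≠ C)
    (h0 : ∀ Z, Z ≠ A → Z ≠ B → Z ≠ C → f Z = 0) : ∑ Z, f Z = f A + f B + f C := by
  have h : ∑ Z ∈ {A, B, C}, f Z = f A + f B + f C := by
    rw [Finset.sum_insert (by simp [h1, h2]), Finset.sum_pair h3]; ring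
  rw [← h]
  symm
  refine Finset.sum_subset (Finset.subset_univ _) fun Z _ hZ => ?_
  simp only [Finset.mem_insert, Finset.mem_singleton, not_or] at hZ
  exact h0 Z hZ.1 hZ.2.1 hZ.2.2

/-- Systems of octets. -/
structure OS (Oct : (ι → ℕ) → Prop) : Prop where
  sum : ∀ m, Oct m → ∑ Z, m Z = 8
  ex : ∀ i j, i ≠ j → ∀ Y Y', ∃ m, Oct m ∧ ∀ Z, sg i Z + sg j Z + sg Y Z + sg Y' Z ≤ m Z
  un1 : ∀ i j, i ≠ j → ∀ Y Y' m m', Oct m → Oct m' →
    (∀ Z, sg i Z + sg j Z + sg Y Z + sg Y' Z ≤ m Z) →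
    (∀ Z, sg i Z + sg j Z + sg Y Z + sg Y' Z ≤ m' Z) → m = m'
  un2 : ∀ Y m m', Oct m → Oct m' → 4 ≤ m Y → 4 ≤ m' Y → m = m'
  line : ∀ i j, i ≠ j → ∃ m, Oct m ∧ (∀ Z, sg i Z + sg j Z ≤ m Z) ∧
    ∀ Z Z', m Z = sg i Z + sg j Z → m Z' = sg i Z' + sg j Z' → Z = Z'

variable {Oct : (ι → ℕ) → Prop}

theorem OS.un (h : OS Oct) {m m' : ι → ℕ} (hm : Oct m) (hm' : Oct m')
    (h4 : 4 ≤ ∑ Z, min (m Z) (m' Z)) : m = m' := by
  by_cases hY : ∃ Y, 4 ≤ min (m Y) (m' Y)
  · obtain ⟨Y, hY⟩ := hY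
    exact h.un2 Y m m' hm hm' (by omega) (by omega)
  · push Not at hY
    obtain ⟨i, hi⟩ := exists_pos (f := fun Z => min (m Z) (m' Z)) (by omega)
    have h1 := sub_sg (f := fun Z => min (m Z) (m' Z)) hi
    have hj : ∃ j, j ≠ i ∧ 1 ≤ min (m j) (m' j) := by
      by_contra hno
      push Not at hno
      have h2 : ∑ Z, min (m Z) (m' Z) = min (m i) (m' i) := by
        refine Finset.sum_eq_single i ?_ ?_
        · intro b _ hb
          have := hno b hb
          omega
        · intro hh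
          exact absurd (Finset.mem_univ i) hh
      have := hY i
      omega
    obtain ⟨j, hji, hj⟩ := hj
    have h2 := sub_sg (f := fun Z => min (m Z) (m' Z) - sg i Z) (Y := j)
      (by simp only [sg_ne hji]; exact hj)
    obtain ⟨Y, hYp⟩ := exists_pos (f := fun Z => min (m Z) (m' Z) - sg i Z - sg j Z) (by
      omega)
    have h3 := sub_sg (f := fun Z => min (m Z) (m' Z) - sg i Z - sg j Z) hYp
    obtain ⟨Y', hYp'⟩ := exists_pos
      (f := fun Z => min (m Z) (m' Z) - sg i Z - sg j Z - sg Y Z) (by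
      omega)
    have hle : ∀ Z, sg i Z + sg j Z + sg Y Z + sg Y' Z ≤ min (m Z) (m' Z) := by
      intro Z
      by_cases h5 : Z = Y'
      · subst h5
        have : sg Z Z = 1 := sg_self Z
        omega
      · by_cases h6 : Z = Y
        · subst h6
          have e1 : sg Z Z = 1 := sg_self Z
          have e2 := sg_ne h5
          omega
        · have e2 := sg_ne h5
          have e3 := sg_ne h6
          by_cases h7 : Z = j
          · subst h7
            have e1 : sg Z Z = 1 := sg_self Z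
            have e4 := sg_ne hji
            omega
          · have e4 := sg_ne h7
            by_cases h8 : Z = i
            · subst h8
              have e1 : sg Z Z = 1 := sg_self Z
              omega
            · have e5 := sg_ne h8
              omega
    exact h.un1 i j hji.symm Y Y' m m' hm hm'
      (fun Z => (hle Z).trans (min_le_left _ _)) (fun Z => (hle Z).trans (min_le_right _ _))

theorem OS.min3 (h : OS Oct) {m m' : ι → ℕ} (hm : Oct m) (hm' : Oct m') (hne : m ≠ m') :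
    ∑ Z, min (m Z) (m' Z) ≤ 3 := by
  by_contra hlt
  exact hne (h.un hm hm' (by omega))

/-- First lemma. -/
theorem OS.L1a (h : OS Oct) {Ω : ι → ℕ} (hΩ : Oct Ω) (hf : ∀ Z, 1 ≤ Ω Z) {Y A : ι} (hYA : Y ≠ A)
    (h2 : Ω Y = 2) (hA : 2 ≤ Ω A) :
    ∃ m, Oct m ∧ m Y = 7 ∧ m A = 1 ∧ ∀ Z, Z ≠ Y → Z ≠ A → m Z = 0 := by
  obtain ⟨m, hm, hle⟩ := h.ex Y A hYA Y Y
  have e1 := hle Y
  rw [sg_self, sg_ne hYA] at e1
  have e2 := hle A
  rw [sg_self, sg_ne hYA.symm] at e2
  have hne : m ≠ Ω := by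
    rintro rfl
    omega
  have h3 := h.min3 hm hΩ hne
  have h5 := sum2 (fun Z => min (m Z) (Ω Z)) hYA
  have h6 : ∀ Z, Z ≠ Y → Z ≠ A → m Z = 0 := by
    intro Z hZY hZA
    have h7 := sum3 (fun Z => min (m Z) (Ω Z)) hYA hZY.symm hZA.symm
    have := hf Z
    omega
  have h8 := sum2eq hYA h6
  rw [h.sum m hm] at h8
  exact ⟨m, hm, by omega, by omega, h6⟩

theorem OS.L1 (h : OS Oct) {Ω : ι → ℕ} (hΩ : Oct Ω) (hf : ∀ Z, 1 ≤ Ω Z) {Y A C : ι}
    (hYA : Y ≠ A) (hYC : Y ≠ C) (hAC : A ≠ C)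
    (h2 : Ω Y = 2) (hA : 2 ≤ Ω A) (hC : 2 ≤ Ω C) : False := by
  obtain ⟨m, hm, e1, e2, _⟩ := h.L1a hΩ hf hYA h2 hA
  obtain ⟨m', hm', e3, _, e4⟩ := h.L1a hΩ hf hYC h2 hC
  have h1 := h.un2 Y m m' hm hm' (by omega) (by omega)
  have h3 := e4 A hYA.symm hAC
  rw [← h1] at h3
  omega

/-- Second lemma. -/
theorem OS.L2a (h : OS Oct) {Ω : ι → ℕ} (hΩ : Oct Ω) (hf : ∀ Z, 1 ≤ Ω Z) {A C : ι} (hAC : A ≠ C)
    (hA : 3 ≤ Ω A) (hC : Ω C = 1) :
    ∃ m, Oct m ∧ m A = 2 ∧ m C = 6 := by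
  obtain ⟨m, hm, hle⟩ := h.ex A C hAC A C
  have e1 := hle A
  rw [sg_self, sg_ne hAC] at e1
  have e2 := hle C
  rw [sg_self, sg_ne hAC.symm] at e2
  have hne : m ≠ Ω := by
    rintro rfl
    omega
  have h3 := h.min3 hm hΩ hne
  have h5 := sum2 (fun Z => min (m Z) (Ω Z)) hAC
  have h6 : ∀ Z, Z ≠ A → Z ≠ C → m Z = 0 := by
    intro Z hZY hZA
    have h7 := sum3 (fun Z => min (m Z) (Ω Z)) hAC hZY.symm hZA.symm
    have := hf Z
    omega
  have h8 := sum2eq hAC h6
  rw [h.sum m hm] at h8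
  exact ⟨m, hm, by omega, by omega⟩

theorem OS.L2 (h : OS Oct) {Ω : ι → ℕ} (hΩ : Oct Ω) (hf : ∀ Z, 1 ≤ Ω Z) {A C D : ι}
    (hAC : A ≠ C) (hAD : A ≠ D) (hCD : C ≠ D)
    (hA : 3 ≤ Ω A) (hC : Ω C = 1) (hD : Ω D = 1) : False := by
  obtain ⟨m', hm', e1, e2⟩ := h.L2a hΩ hf hAC hA hC
  obtain ⟨m'', hm'', e3, e4⟩ := h.L2a hΩ hf hAD hA hD
  obtain ⟨m, hm, hle⟩ := h.ex A C hAC C D
  have f1 := hle A
  rw [sg_self, sg_ne hAC, sg_ne hAD] at f1
  have f2 := hle C
  rw [sg_self, sg_ne hAC.symm, sg_ne hCD] at f2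
  have f3 := hle D
  rw [sg_self, sg_ne hAD.symm, sg_ne hCD.symm] at f3
  have hne : m ≠ Ω := by
    rintro rfl
    omega
  have h3 := h.min3 hm hΩ hne
  have h5 := sum3 (fun Z => min (m Z) (Ω Z)) hAC hAD hCD
  have h6 : ∀ Z, Z ≠ A → Z ≠ C → Z ≠ D → m Z = 0 := by
    intro Z h1 h2 h4
    have h7 := sum4 (fun Z => min (m Z) (Ω Z)) hAC hAD hCD h1.symm h2.symm h4.symm
    have := hf Z
    omega
  have h8 := sum3eq hAC hAD hCD h6
  rw [h.sum m hm] at h8
  have hne' : m ≠ m' := by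
    intro hE
    rw [← hE] at e1
    omega
  have hne'' : m ≠ m'' := by
    intro hE
    rw [← hE] at e3
    omega
  have g1 := h.min3 hm hm' hne'
  have g2 := sum2 (fun Z => min (m Z) (m' Z)) hAC
  have g3 := h.min3 hm hm'' hne''
  have g4 := sum2 (fun Z => min (m Z) (m'' Z)) hAD
  omega

theorem OS.L3 (h : OS Oct) {Ω : ι → ℕ} (hΩ : Oct Ω) (hf : ∀ Z, 1 ≤ Ω Z) {A B C : ι}
    (hAB : A ≠ B) (hAC : A ≠ C) (hBC : B ≠ C)
    (hA : 3 ≤ Ω A) (hB : 2 ≤ Ω B) (hC : Ω C = 1) : False := by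
  obtain ⟨m', hm', e1, e2⟩ := h.L2a hΩ hf hAC hA hC
  obtain ⟨m, hm, hle⟩ := h.ex A B hAB C C
  have f1 := hle A
  rw [sg_self, sg_ne hAB, sg_ne hAC] at f1
  have f2 := hle B
  rw [sg_self, sg_ne hAB.symm, sg_ne hBC] at f2
  have f3 := hle C
  rw [sg_self, sg_ne hAC.symm, sg_ne hBC.symm] at f3
  have hne : m ≠ Ω := by
    rintro rfl
    omega
  have h3 := h.min3 hm hΩ hne
  have h5 := sum3 (fun Z => min (m Z) (Ω Z)) hAB hAC hBC
  have h6 : ∀ Z, Z ≠ A → Z ≠ B → Z ≠ C → m Z = 0 := by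
    intro Z h1 h2 h4
    have h7 := sum4 (fun Z => min (m Z) (Ω Z)) hAB hAC hBC h1.symm h2.symm h4.symm
    have := hf Z
    omega
  have h8 := sum3eq hAB hAC hBC h6
  rw [h.sum m hm] at h8
  have hne' : m ≠ m' := by
    intro hE
    rw [← hE] at e1
    omega
  have g1 := h.min3 hm hm' hne'
  have g2 := sum2 (fun Z => min (m Z) (m' Z)) hAC
  omega

/-- Three points. -/
theorem OS.three (h : OS Oct) (hN : Fintype.card ι = 3) : False := by
  set e := Fintype.equivFinOfCardEq hN with he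
  set A := e.symm 0 with hA
  set B := e.symm 1 with hB
  set C := e.symm 2 with hC
  have hAB : A ≠ B := fun hE => by
    have := e.symm.injective hE
    exact absurd this (by decide)
  have hAC : A ≠ C := fun hE => by
    have := e.symm.injective hE
    exact absurd this (by decide)
  have hBC : B ≠ C := fun hE => by
    have := e.symm.injective hE
    exact absurd this (by decide)
  have hall : ∀ Z, Z = A ∨ Z = B ∨ Z = C := by
    intro Z
    have h1 : Z = e.symm (e Z) := (e.symm_apply_apply Z).symm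
    rw [h1]
    generalize e Z = k
    fin_cases k
    · exact Or.inl rfl
    · exact Or.inr (Or.inl rfl)
    · exact Or.inr (Or.inr rfl)
  obtain ⟨Ω, hΩ, hle⟩ := h.ex A B hAB A C
  have f1 := hle A
  rw [sg_self, sg_ne hAB, sg_ne hAC] at f1
  have f2 := hle B
  rw [sg_self, sg_ne hAB.symm, sg_ne hBC] at f2
  have f3 := hle C
  rw [sg_self, sg_ne hAC.symm, sg_ne hBC.symm] at f3
  have hf : ∀ Z, 1 ≤ Ω Z := by
    intro Z
    rcases hall Z with rfl | rfl | rfl <;> omega
  have hs := h.sum Ω hΩ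
  rw [sum3eq hAB hAC hBC (fun Z h1 h2 h3 => by
    rcases hall Z with rfl | rfl | rfl
    · exact absurd rfl h1
    · exact absurd rfl h2
    · exact absurd rfl h3)] at hs
  -- a point with multiplicity one
  by_cases hC1 : Ω C = 1
  · by_cases hB1 : Ω B = 1
    · exact h.L2 hΩ hf hAC hAB hBC.symm (by omega) hC1 hB1
    · by_cases hA3 : 3 ≤ Ω A
      · exact h.L3 hΩ hf hAB hAC hBC hA3 (by omega) hC1
      · exact h.L3 hΩ hf hAB.symm hBC hAC (by omega) (by omega) hC1
  · by_cases hB1 : Ω B = 1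
    · by_cases hA3 : 3 ≤ Ω A
      · exact h.L3 hΩ hf hAC hAB hBC.symm hA3 (by omega) hB1
      · exact h.L3 hΩ hf hAC.symm hBC.symm hAB (by omega) (by omega) hB1
    · by_cases hA2 : Ω A = 2
      · exact h.L1 hΩ hf hAB hAC hBC hA2 (by omega) (by omega)
      · by_cases hB2 : Ω B = 2
        · exact h.L1 hΩ hf hAB.symm hBC hAC hB2 (by omega) (by omega)
        · exact h.L1 hΩ hf hAC.symm hBC.symm hAB (by omega) (by omega) (by omega)

/-- Four points. -/
theorem OS.four (h : OS Oct) (hN : Fintype.card ι = 4) : False := by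
  set e := Fintype.equivFinOfCardEq hN with he
  have hne : ∀ k l : Fin 4, k ≠ l → e.symm k ≠ e.symm l := fun k l hkl hE =>
    hkl (e.symm.injective hE)
  have hsum : ∀ f : ι → ℕ, ∑ Z, f Z = f (e.symm 0) + f (e.symm 1) + f (e.symm 2) +
      f (e.symm 3) := by
    intro f
    rw [← Equiv.sum_comp e.symm f, Fin.sum_univ_four]
  obtain ⟨Ω, hΩ, hle⟩ := h.ex (e.symm 0) (e.symm 1) (hne 0 1 (by decide)) (e.symm 2) (e.symm 3)
  have hf' : ∀ k : Fin 4, 1 ≤ Ω (e.symm k) := by
    intro k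
    have h1 := hle (e.symm k)
    have h2 : sg (e.symm k) (e.symm k) = 1 := sg_self _
    fin_cases k
    · change 1 ≤ Ω (e.symm 0)
      change _ ≤ Ω (e.symm 0) at h1
      change sg (e.symm 0) (e.symm 0) = 1 at h2
      exact le_trans (by change 1 ≤ sg (e.symm 0) (e.symm 0) + _ + _ + _; omega) h1
    · change 1 ≤ Ω (e.symm 1)
      change _ ≤ Ω (e.symm 1) at h1
      change sg (e.symm 1) (e.symm 1) = 1 at h2
      exact le_trans (by change 1 ≤ _ + sg (e.symm 1) (e.symm 1) + _ + _; omega) h1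
    · change 1 ≤ Ω (e.symm 2)
      change _ ≤ Ω (e.symm 2) at h1
      change sg (e.symm 2) (e.symm 2) = 1 at h2
      exact le_trans (by change 1 ≤ _ + _ + sg (e.symm 2) (e.symm 2) + _; omega) h1
    · change 1 ≤ Ω (e.symm 3)
      change _ ≤ Ω (e.symm 3) at h1
      change sg (e.symm 3) (e.symm 3) = 1 at h2
      exact le_trans (by change 1 ≤ _ + _ + _ + sg (e.symm 3) (e.symm 3); omega) h1
  have hf : ∀ Z, 1 ≤ Ω Z := by
    intro Z
    have := hf' (e Z)
    rwa [e.symm_apply_apply] at this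
  have hs := h.sum Ω hΩ
  rw [hsum] at hs
  have l1 : ∀ k l o : Fin 4, k ≠ l → k ≠ o → l ≠ o →
      ¬ (Ω (e.symm k) = 2 ∧ 2 ≤ Ω (e.symm l) ∧ 2 ≤ Ω (e.symm o)) := by
    rintro k l o h1 h2 h3 ⟨h4, h5, h6⟩
    exact h.L1 hΩ hf (hne _ _ h1) (hne _ _ h2) (hne _ _ h3) h4 h5 h6
  have l2 : ∀ k l o : Fin 4, k ≠ l → k ≠ o → l ≠ o →
      ¬ (3 ≤ Ω (e.symm k) ∧ Ω (e.symm l) = 1 ∧ Ω (e.symm o) = 1) := by
    rintro k l o h1 h2 h3 ⟨h4, h5, h6⟩
    exact h.L2 hΩ hf (hne _ _ h1) (hne _ _ h2) (hne _ _ h3) h4 h5 h6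
  have g0 := hf' 0
  have g1 := hf' 1
  have g2 := hf' 2
  have g3 := hf' 3
  by_cases q0 : Ω (e.symm 0) = 1
  · by_cases q1 : Ω (e.symm 1) = 1
    · by_cases h3 : 3 ≤ Ω (e.symm 2)
      · exact l2 2 0 1 (by decide) (by decide) (by decide) ⟨h3, by omega, by omega⟩
      · exact l2 3 0 1 (by decide) (by decide) (by decide) ⟨by omega, by omega, by omega⟩
    · by_cases q2 : Ω (e.symm 2) = 1
      · by_cases h3 : 3 ≤ Ω (e.symm 1)
        · exact l2 1 0 2 (by decide) (by decide) (by decide) ⟨h3, by omega, by omega⟩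
        · exact l2 3 0 2 (by decide) (by decide) (by decide) ⟨by omega, by omega, by omega⟩
      · by_cases q3 : Ω (e.symm 3) = 1
        · by_cases h3 : 3 ≤ Ω (e.symm 1)
          · exact l2 1 0 3 (by decide) (by decide) (by decide) ⟨h3, by omega, by omega⟩
          · exact l2 2 0 3 (by decide) (by decide) (by decide) ⟨by omega, by omega, by omega⟩
        · by_cases h2 : Ω (e.symm 1) = 2
          · exact l1 1 2 3 (by decide) (by decide) (by decide) ⟨h2, by omega, by omega⟩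
          · by_cases h3 : Ω (e.symm 2) = 2
            · exact l1 2 1 3 (by decide) (by decide) (by decide) ⟨h3, by omega, by omega⟩
            · exact l1 3 1 2 (by decide) (by decide) (by decide) ⟨by omega, by omega, by omega⟩
  · by_cases q1 : Ω (e.symm 1) = 1
    · by_cases q2 : Ω (e.symm 2) = 1
      · by_cases h3 : 3 ≤ Ω (e.symm 0)
        · exact l2 0 1 2 (by decide) (by decide) (by decide) ⟨h3, by omega, by omega⟩
        · exact l2 3 1 2 (by decide) (by decide) (by decide) ⟨by omega, by omega, by omega⟩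
      · by_cases q3 : Ω (e.symm 3) = 1
        · by_cases h3 : 3 ≤ Ω (e.symm 0)
          · exact l2 0 1 3 (by decide) (by decide) (by decide) ⟨h3, by omega, by omega⟩
          · exact l2 2 1 3 (by decide) (by decide) (by decide) ⟨by omega, by omega, by omega⟩
        · by_cases h2 : Ω (e.symm 0) = 2
          · exact l1 0 2 3 (by decide) (by decide) (by decide) ⟨h2, by omega, by omega⟩
          · by_cases h3 : Ω (e.symm 2) = 2
            · exact l1 2 0 3 (by decide) (by decide) (by decide) ⟨h3, by omega, by omega⟩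
            · exact l1 3 0 2 (by decide) (by decide) (by decide) ⟨by omega, by omega, by omega⟩
    · by_cases q2 : Ω (e.symm 2) = 1
      · by_cases q3 : Ω (e.symm 3) = 1
        · by_cases h3 : 3 ≤ Ω (e.symm 0)
          · exact l2 0 2 3 (by decide) (by decide) (by decide) ⟨h3, by omega, by omega⟩
          · exact l2 1 2 3 (by decide) (by decide) (by decide) ⟨by omega, by omega, by omega⟩
        · by_cases h2 : Ω (e.symm 0) = 2
          · exact l1 0 1 3 (by decide) (by decide) (by decide) ⟨h2, by omega, by omega⟩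
          · by_cases h3 : Ω (e.symm 1) = 2
            · exact l1 1 0 3 (by decide) (by decide) (by decide) ⟨h3, by omega, by omega⟩
            · exact l1 3 0 1 (by decide) (by decide) (by decide) ⟨by omega, by omega, by omega⟩
      · by_cases q3 : Ω (e.symm 3) = 1
        · by_cases h2 : Ω (e.symm 0) = 2
          · exact l1 0 1 2 (by decide) (by decide) (by decide) ⟨h2, by omega, by omega⟩
          · by_cases h3 : Ω (e.symm 1) = 2
            · exact l1 1 0 2 (by decide) (by decide) (by decide) ⟨h3, by omega, by omega⟩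
            · exact l1 2 0 1 (by decide) (by decide) (by decide) ⟨by omega, by omega, by omega⟩
        · by_cases h2 : Ω (e.symm 0) = 2
          · exact l1 0 1 2 (by decide) (by decide) (by decide) ⟨h2, by omega, by omega⟩
          · by_cases h3 : Ω (e.symm 1) = 2
            · exact l1 1 0 2 (by decide) (by decide) (by decide) ⟨h3, by omega, by omega⟩
            · exact l1 2 0 1 (by decide) (by decide) (by decide) ⟨by omega, by omega, by omega⟩

theorem countk {f : ι → ℕ} {D : ι} {c : ℕ} (h : ∀ Z, Z ≠ D → c ≤ f Z) :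
    c * (Fintype.card ι - 1) + f D ≤ ∑ Z, f Z := by
  rw [← Finset.add_sum_erase _ _ (Finset.mem_univ D)]
  have h1 : (Finset.univ.erase D).card • c ≤ ∑ Z ∈ Finset.univ.erase D, f Z :=
    Finset.card_nsmul_le_sum _ _ _ fun Z hZ => h Z (Finset.ne_of_mem_erase hZ)
  rw [Finset.card_erase_of_mem (Finset.mem_univ D), Finset.card_univ, smul_eq_mul, mul_comm] at h1
  omega

/-- No full support. -/
theorem OS.full (h : OS Oct) (hN : 5 ≤ Fintype.card ι) {m : ι → ℕ} (hm : Oct m)
    (hf : ∀ Z, 1 ≤ m Z) : False := by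
  have hall : ∀ k l, k ≠ l → (∀ Z, sg k Z + sg l Z ≤ m Z) ∧
      ∀ Z Z', m Z = sg k Z + sg l Z → m Z' = sg k Z' + sg l Z' → Z = Z' := by
    intro k l hkl
    obtain ⟨m', hm', h1, h2⟩ := h.line k l hkl
    have hD : ∃ D, ∀ Z, Z ≠ D → 1 ≤ m' Z := by
      by_cases h0 : ∃ D, m' D = 0
      · obtain ⟨D, hD⟩ := h0
        refine ⟨D, fun Z hZ => ?_⟩
        by_contra hlt
        have e1 := h1 D
        have e2 := h1 Z
        exact hZ (h2 Z D (by omega) (by omega))
      · push Not at h0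
        exact ⟨k, fun Z _ => Nat.one_le_iff_ne_zero.mpr (h0 Z)⟩
    obtain ⟨D, hD⟩ := hD
    have h3 := countk (f := fun Z => min (m Z) (m' Z)) (D := D) (c := 1) (fun Z hZ => by
      have := hf Z
      have := hD Z hZ
      omega)
    have hE : m = m' := h.un hm hm' (by omega)
    rw [hE]
    exact ⟨h1, h2⟩
  have hD : ∃ D, ∀ Z, Z ≠ D → 2 ≤ m Z := by
    by_cases h0 : ∃ D, m D = 1
    · obtain ⟨D, hD⟩ := h0
      refine ⟨D, fun Z hZ => ?_⟩
      by_contra hlt
      have e1 := hf Z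
      refine hZ ((hall Z D hZ).2 Z D ?_ ?_)
      · rw [sg_self, sg_ne hZ]; omega
      · rw [sg_self, sg_ne hZ.symm]; omega
    · push Not at h0
      have : Nonempty ι := by
        rw [← Fintype.card_pos_iff]; omega
      refine ⟨Classical.arbitrary ι, fun Z _ => ?_⟩
      have := h0 Z
      have := hf Z
      omega
  obtain ⟨D, hD⟩ := hD
  have h1 := countk hD
  rw [h.sum m hm] at h1
  have := hf D
  omega

/-- The octets of the exceptional point. -/
theorem OS.exc (h : OS Oct) (hN : 5 ≤ Fintype.card ι) {i j : ι} (hij : i ≠ j) :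
    ∃ D Y0, D ≠ i ∧ D ≠ j ∧ ∀ Y, Y ≠ D → Y ≠ Y0 →
      ∃ m, Oct m ∧ ∀ Z, m Z = sg i Z + sg j Z + sg D Z + 5 * sg Y Z := by
  obtain ⟨m, hm, h1, h2⟩ := h.line i j hij
  have hD : ∃ D, m D = 0 := by
    by_contra hno
    push Not at hno
    exact h.full hN hm (fun Z => Nat.one_le_iff_ne_zero.mpr (hno Z))
  obtain ⟨D, hD⟩ := hD
  have hDi : D ≠ i := by
    rintro rfl
    have := h1 D
    rw [sg_self] at this
    omega
  have hDj : D ≠ j := by
    rintro rfl
    have := h1 D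
    rw [sg_self] at this
    omega
  have sD1 := sg_ne hDi
  have sD2 := sg_ne hDj
  have hpos : ∀ Z, Z ≠ D → sg i Z + sg j Z + 1 ≤ m Z := by
    intro Z hZ
    have e1 := h1 Z
    by_contra hlt
    exact hZ (h2 Z D (by omega) (by omega))
  -- the structure of the octets
  have struct : ∀ Y, Y ≠ D → ∀ m', Oct m' → (∀ Z, sg i Z + sg j Z + sg D Z + sg Y Z ≤ m' Z) →
      ∀ Z, Z ≠ D → Z ≠ Y → m' Z = sg i Z + sg j Z := by
    intro Y hYD m' hm' hle Z hZD hZY
    by_contra hne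
    have e0 := hle Z
    rw [sg_ne hZD, sg_ne hZY] at e0
    have hE : m' = m := by
      refine h.un1 i j hij Y Z m' m hm' hm ?_ ?_
      · intro W
        by_cases hWZ : W = Z
        · subst hWZ
          rw [sg_self, sg_ne hZY]
          omega
        · rw [sg_ne hWZ]
          have := hle W
          omega
      · intro W
        by_cases hWZ : W = Z
        · subst hWZ
          rw [sg_self, sg_ne hZY]
          have := hpos W hZD
          omega
        · rw [sg_ne hWZ]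
          by_cases hWY : W = Y
          · subst hWY
            rw [sg_self]
            have := hpos W hYD
            omega
          · rw [sg_ne hWY]
            have := h1 W
            omega
    have e1 := hle D
    rw [sg_self, hE, hD] at e1
    omega
  -- the octets with multiplicity one at `D`
  have good : ∀ Y, Y ≠ D → ∀ m', Oct m' → (∀ Z, sg i Z + sg j Z + sg D Z + sg Y Z ≤ m' Z) →
      m' D = 1 → ∀ Z, m' Z = sg i Z + sg j Z + sg D Z + 5 * sg Y Z := by
    intro Y hYD m' hm' hle h1D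
    have hs := h.sum m' hm'
    have hst := struct Y hYD m' hm' hle
    have hf : ∑ Z, (m' Z - sg i Z - sg j Z) + ∑ Z, (sg i Z + sg j Z) = 8 := by
      rw [← hs, ← Finset.sum_add_distrib]
      refine Finset.sum_congr rfl fun Z _ => ?_
      have := hle Z
      omega
    rw [Finset.sum_add_distrib, sum_sg, sum_sg] at hf
    have hf2 := sum2eq (f := fun Z => m' Z - sg i Z - sg j Z) hYD.symm (fun Z hZD hZY => by
      have := hst Z hZD hZY
      omega)
    rw [hf2] at hf
    have e1 := hle Y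
    rw [sg_self] at e1
    intro Z
    by_cases hZD : Z = D
    · subst hZD
      rw [sg_self, sg_ne hYD.symm, sD1, sD2]
      omega
    · rw [sg_ne hZD]
      by_cases hZY : Z = Y
      · subst hZY
        rw [sg_self]
        omega
      · rw [sg_ne hZY]
        have := hst Z hZD hZY
        omega
  by_cases hbad : ∃ Y0, Y0 ≠ D ∧ ∃ m0, Oct m0 ∧
      (∀ Z, sg i Z + sg j Z + sg D Z + sg Y0 Z ≤ m0 Z) ∧ 2 ≤ m0 D
  · obtain ⟨Y0, hY0, m0, hm0, hle0, hD0⟩ := hbad
    refine ⟨D, Y0, hDi, hDj, fun Y hYD hYY0 => ?_⟩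
    obtain ⟨m', hm', hle⟩ := h.ex i j hij D Y
    refine ⟨m', hm', good Y hYD m' hm' hle ?_⟩
    by_contra hne
    have e1 := hle D
    rw [sg_self] at e1
    have hE : m' = m0 := by
      refine h.un1 i j hij D D m' m0 hm' hm0 ?_ ?_
      · intro W
        by_cases hW : W = D
        · subst hW
          rw [sg_self, sD1, sD2]
          omega
        · rw [sg_ne hW]
          have := hle W
          omega
      · intro W
        by_cases hW : W = D
        · subst hW
          rw [sg_self, sD1, sD2]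
          omega
        · rw [sg_ne hW]
          have := hle0 W
          omega
    have e2 := struct Y0 hY0 m0 hm0 hle0 Y hYD hYY0
    have e3 := hle Y
    rw [sg_self, hE] at e3
    omega
  · refine ⟨D, D, hDi, hDj, fun Y hYD _ => ?_⟩
    obtain ⟨m', hm', hle⟩ := h.ex i j hij D Y
    refine ⟨m', hm', good Y hYD m' hm' hle ?_⟩
    by_contra hne
    have e1 := hle D
    rw [sg_self] at e1
    exact hbad ⟨Y, hYD, m', hm', hle, by omega⟩

theorem exists_not_mem (hN : 5 ≤ Fintype.card ι) (a b c d : ι) :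
    ∃ Y, Y ≠ a ∧ Y ≠ b ∧ Y ≠ c ∧ Y ≠ d := by
  by_contra hno
  push Not at hno
  have h1 : (Finset.univ : Finset ι) ⊆ {a, b, c, d} := by
    intro Y _
    simp only [Finset.mem_insert, Finset.mem_singleton]
    by_contra hY
    simp only [not_or] at hY
    exact hY.2.2.2 (hno Y hY.1 hY.2.1 hY.2.2.1)
  have h2 := Finset.card_le_card h1
  have h3 := Finset.card_le_four (a := a) (b := b) (c := c) (d := d)
  rw [Finset.card_univ] at h2
  omega

theorem OS.five (h : OS Oct) (hN : 5 ≤ Fintype.card ι) : False := by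
  obtain ⟨i, j, hij⟩ := Fintype.one_lt_card_iff.mp (by omega : 1 < Fintype.card ι)
  obtain ⟨D, Y0, hDi, hDj, hG⟩ := h.exc hN hij
  obtain ⟨k, hki, hkj, hkD, _⟩ := exists_not_mem hN i j D D
  obtain ⟨D', Y0', hDi', hDj', hG'⟩ := h.exc hN hki.symm
  obtain ⟨Y, h1, h2, h3, h4⟩ := exists_not_mem hN D Y0 D' Y0'
  obtain ⟨m, hm, hmE⟩ := hG Y h1 h2
  obtain ⟨m', hm', hmE'⟩ := hG' Y h3 h4
  have e1 := hmE Y
  have e2 := hmE' Y
  rw [sg_self] at e1 e2
  have hE := h.un2 Y m m' hm hm' (by omega) (by omega)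
  have e3 := hmE k
  have e4 := hmE' k
  rw [sg_ne hki, sg_ne hkj, sg_ne hkD] at e3
  rw [sg_self, ← hE, e3] at e4
  omega

/-- At most two points. -/
theorem OS.le_two (h : OS Oct) : Fintype.card ι ≤ 2 := by
  by_contra hN
  by_cases h3 : Fintype.card ι = 3
  · exact h.three h3
  · by_cases h4 : Fintype.card ι = 4
    · exact h.four h4
    · exact h.five (by omega)

end Pool.Agent.H31.G5
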