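import Mathlib

/-! # Two ternary quadratic forms have a common zero -/

set_option autoImplicit false

namespace Pool.Agent.H31.G5

open Polynomial

variable {K : Type*} [Field K]

theorem quartic_root (h4 : ∀ p : K[X], p.natDegree ≤ 4 → p.Splits) {k4 : K} (k3 k2 k1 k0 : K)
    (hk : k4 ≠ 0) : ∃ s : K, k4 * s ^ 4 + k3 * s ^ 3 + k2 * s ^ 2 + k1 * s + k0 = 0 := by
  have hd : (C k4 * X ^ 4 + C k3 * X ^ 3 + C k2 * X ^ 2 + C k1 * X + C k0 : K[X]).natDegree = 4 := by
    compute_degree!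
  have hne : (C k4 * X ^ 4 + C k3 * X ^ 3 + C k2 * X ^ 2 + C k1 * X + C k0 : K[X]).degree ≠ 0 := by
    intro h0
    have h1 := natDegree_eq_of_degree_eq_some (n := 0) h0
    omega
  obtain ⟨s, hs⟩ := (h4 _ hd.le).exists_eval_eq_zero hne
  refine ⟨s, ?_⟩
  simpa using hs

theorem quad_root (h4 : ∀ p : K[X], p.natDegree ≤ 4 → p.Splits) {k2 : K} (k1 k0 : K)
    (hk : k2 ≠ 0) : ∃ s : K, k2 * s ^ 2 + k1 * s + k0 = 0 := by
  have hd : (C k2 * X ^ 2 + C k1 * X + C k0 : K[X]).natDegree = 2 := by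
    compute_degree!
  have hne : (C k2 * X ^ 2 + C k1 * X + C k0 : K[X]).degree ≠ 0 := by
    intro h0
    have h1 := natDegree_eq_of_degree_eq_some (n := 0) h0
    omega
  obtain ⟨s, hs⟩ := (h4 _ (hd.le.trans (by omega))).exists_eval_eq_zero hne
  refine ⟨s, ?_⟩
  simpa using hs

variable {E : Type*} [AddCommGroup E] [Module K E]

/-- A binary quadratic form has a zero. -/
theorem two_zero (h4 : ∀ p : K[X], p.natDegree ≤ 4 → p.Splits) (B : E →ₗ[K] E →ₗ[K] K)
    (hB : ∀ x y, B x y = B y x) (u v : E) :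
    ∃ a b : K, ¬ (a = 0 ∧ b = 0) ∧ B (a • u + b • v) (a • u + b • v) = 0 := by
  by_cases hv : B v v = 0
  · exact ⟨0, 1, fun h => one_ne_zero h.2, by simp [hv]⟩
  · obtain ⟨s, hs⟩ := quad_root h4 (2 * B u v) (B u u) hv
    refine ⟨1, s, fun h => one_ne_zero h.1, ?_⟩
    simp only [map_add, map_smul, LinearMap.add_apply, LinearMap.smul_apply, smul_eq_mul, one_smul]
    rw [hB v u]
    linear_combination hs

/-- The second point on the line through `p`. -/
theorem second_zero (B1 : E →ₗ[K] E →ₗ[K] K) (hB1 : ∀ x y, B1 x y = B1 y x) {p w : E}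
    (hp : B1 p p = 0) :
    B1 ((2 * B1 w p) • w - (B1 w w) • p) ((2 * B1 w p) • w - (B1 w w) • p) = 0 := by
  simp only [map_sub, map_smul, LinearMap.sub_apply, LinearMap.smul_apply, smul_eq_mul]
  rw [hB1 p w, hp]
  ring

theorem conic_core (h4 : ∀ p : K[X], p.natDegree ≤ 4 → p.Splits) (B1 B2 : E →ₗ[K] E →ₗ[K] K)
    (hB1 : ∀ x y, B1 x y = B1 y x) (hB2 : ∀ x y, B2 x y = B2 y x) {p u v : E}
    (hind : ∀ a b c : K, a • p + b • u + c • v = 0 → a = 0 ∧ b = 0 ∧ c = 0)
    (hp : B1 p p = 0) :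
    ∃ a b c : K, a • p + b • u + c • v ≠ 0 ∧
      B1 (a • p + b • u + c • v) (a • p + b • u + c • v) = 0 ∧
      B2 (a • p + b • u + c • v) (a • p + b • u + c • v) = 0 := by
  -- a vector `w`
  have hw : ∃ β γ : K, ¬ (β = 0 ∧ γ = 0) ∧
      B2 ((2 * B1 (β • u + γ • v) p) • (β • u + γ • v) -
          (B1 (β • u + γ • v) (β • u + γ • v)) • p)
        ((2 * B1 (β • u + γ • v) p) • (β • u + γ • v) -
          (B1 (β • u + γ • v) (β • u + γ • v)) • p) = 0 := by
    set k4 : K := 4 * B1 v p ^ 2 * B2 v v - 4 * B1 v p * B1 v v * B2 v p + B1 v v ^ 2 * B2 p p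
      with hk4
    by_cases h0 : k4 = 0
    · refine ⟨0, 1, fun h => one_ne_zero h.2, ?_⟩
      simp only [zero_smul, one_smul, zero_add, map_sub, map_smul, LinearMap.sub_apply,
        LinearMap.smul_apply, smul_eq_mul]
      rw [hB2 p v]
      linear_combination h0
    · set b0 := B1 u p
      set b1 := B1 v p
      set c0 := B1 u u
      set c1 := 2 * B1 u v
      set c2 := B1 v v
      set d0 := B2 u u
      set d1 := 2 * B2 u v
      set d2 := B2 v v
      set e0 := B2 u p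
      set e1 := B2 v p
      set k := B2 p p
      obtain ⟨s, hs⟩ := quartic_root h4
        (4 * (2 * b0 * b1 * d2 + b1 ^ 2 * d1) - 4 * ((b0 * c2 + b1 * c1) * e1 + b1 * c2 * e0) +
          2 * c1 * c2 * k)
        (4 * (b0 ^ 2 * d2 + 2 * b0 * b1 * d1 + b1 ^ 2 * d0) -
          4 * ((b0 * c1 + b1 * c0) * e1 + (b0 * c2 + b1 * c1) * e0) + (c1 ^ 2 + 2 * c0 * c2) * k)
        (4 * (b0 ^ 2 * d1 + 2 * b0 * b1 * d0) -
          4 * (b0 * c0 * e1 + (b0 * c1 + b1 * c0) * e0) + 2 * c0 * c1 * k)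
        (4 * b0 ^ 2 * d0 - 4 * b0 * c0 * e0 + c0 ^ 2 * k) h0
      refine ⟨1, s, fun h => one_ne_zero h.1, ?_⟩
      have f1 : B1 ((1 : K) • u + s • v) p = b0 + b1 * s := by
        simp only [map_add, map_smul, LinearMap.add_apply, LinearMap.smul_apply, smul_eq_mul,
          one_smul]
        ring
      have f2 : B1 ((1 : K) • u + s • v) ((1 : K) • u + s • v) = c0 + c1 * s + c2 * s ^ 2 := by
        simp only [map_add, map_smul, LinearMap.add_apply, LinearMap.smul_apply, smul_eq_mul,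
          one_smul]
        rw [hB1 v u]
        ring
      have f3 : B2 ((1 : K) • u + s • v) ((1 : K) • u + s • v) = d0 + d1 * s + d2 * s ^ 2 := by
        simp only [map_add, map_smul, LinearMap.add_apply, LinearMap.smul_apply, smul_eq_mul,
          one_smul]
        rw [hB2 v u]
        ring
      have f4 : B2 ((1 : K) • u + s • v) p = e0 + e1 * s := by
        simp only [map_add, map_smul, LinearMap.add_apply, LinearMap.smul_apply, smul_eq_mul,
          one_smul]
        ring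
      simp only [map_sub, map_smul, LinearMap.sub_apply, LinearMap.smul_apply, smul_eq_mul]
      rw [hB2 p ((1 : K) • u + s • v), f1, f2, f3, f4]
      rw [hk4] at hs
      linear_combination hs
  obtain ⟨β, γ, hβγ, hz⟩ := hw
  set w := β • u + γ • v with hwdef
  have hwp : ∀ a b : K, a • p + b • w = 0 → a = 0 ∧ b = 0 := by
    intro a b hab
    have h1 : a • p + (b * β) • u + (b * γ) • v = 0 := by
      rw [← hab, hwdef]; module
    obtain ⟨ha, hb, hc⟩ := hind _ _ _ h1
    refine ⟨ha, ?_⟩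
    by_contra hb0
    exact hβγ ⟨(mul_eq_zero.mp hb).resolve_left hb0, (mul_eq_zero.mp hc).resolve_left hb0⟩
  by_cases hx : (2 * B1 w p) • w - (B1 w w) • p = 0
  · have h1 := hwp (-(B1 w w)) (2 * B1 w p) (by rw [← hx]; module)
    have hww : B1 w w = 0 := neg_eq_zero.mp h1.1
    have hwp0 : 2 * B1 w p = 0 := h1.2
    obtain ⟨a, b, hab, hab0⟩ := two_zero h4 B2 hB2 p w
    have hE : a • p + (b * β) • u + (b * γ) • v = a • p + b • w := by rw [hwdef]; module
    refine ⟨a, b * β, b * γ, ?_, ?_, ?_⟩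
    · rw [hE]
      intro h0
      exact hab (hwp a b h0)
    · rw [hE]
      simp only [map_add, map_smul, LinearMap.add_apply, LinearMap.smul_apply, smul_eq_mul]
      rw [hB1 p w, hww, hp]
      linear_combination (a * b) * hwp0
    · rw [hE]
      exact hab0
  · have hE : (-(B1 w w)) • p + (2 * B1 w p * β) • u + (2 * B1 w p * γ) • v =
        (2 * B1 w p) • w - (B1 w w) • p := by rw [hwdef]; module
    refine ⟨-(B1 w w), 2 * B1 w p * β, 2 * B1 w p * γ, ?_, ?_, ?_⟩
    · rw [hE]; exact hx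
    · rw [hE]; exact second_zero B1 hB1 hp
    · rw [hE]; exact hz

/-- Two quadratic forms on a space of dimension three have a common zero. -/
theorem conic (h4 : ∀ p : K[X], p.natDegree ≤ 4 → p.Splits) (B1 B2 : E →ₗ[K] E →ₗ[K] K)
    (hB1 : ∀ x y, B1 x y = B1 y x) (hB2 : ∀ x y, B2 x y = B2 y x) {f0 f1 f2 : E}
    (hind : ∀ a b c : K, a • f0 + b • f1 + c • f2 = 0 → a = 0 ∧ b = 0 ∧ c = 0) :
    ∃ a b c : K, a • f0 + b • f1 + c • f2 ≠ 0 ∧
      B1 (a • f0 + b • f1 + c • f2) (a • f0 + b • f1 + c • f2) = 0 ∧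
      B2 (a • f0 + b • f1 + c • f2) (a • f0 + b • f1 + c • f2) = 0 := by
  obtain ⟨a, b, hab, hp⟩ := two_zero h4 B1 hB1 f0 f1
  by_cases ha : a = 0
  · have hb : b ≠ 0 := fun hb => hab ⟨ha, hb⟩
    obtain ⟨x, y, z, h1, h2, h3⟩ := conic_core h4 B1 B2 hB1 hB2 (p := a • f0 + b • f1) (u := f0)
      (v := f2) (by
        intro x y z h
        have h' := hind (x * a + y) (x * b) z (by rw [← h]; module)
        obtain ⟨e1, e2, e3⟩ := h'
        have hx : x = 0 := (mul_eq_zero.mp e2).resolve_right hb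
        subst hx
        refine ⟨rfl, ?_, e3⟩
        simpa using e1) hp
    have hE : (x * a + y) • f0 + (x * b) • f1 + z • f2 =
        x • (a • f0 + b • f1) + y • f0 + z • f2 := by module
    refine ⟨x * a + y, x * b, z, ?_, ?_, ?_⟩
    · rw [hE]; exact h1
    · rw [hE]; exact h2
    · rw [hE]; exact h3
  · obtain ⟨x, y, z, h1, h2, h3⟩ := conic_core h4 B1 B2 hB1 hB2 (p := a • f0 + b • f1) (u := f1)
      (v := f2) (by
        intro x y z h
        have h' := hind (x * a) (x * b + y) z (by rw [← h]; module)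
        obtain ⟨e1, e2, e3⟩ := h'
        have hx : x = 0 := (mul_eq_zero.mp e1).resolve_right ha
        subst hx
        refine ⟨rfl, ?_, e3⟩
        simpa using e2) hp
    have hE : (x * a) • f0 + (x * b + y) • f1 + z • f2 =
        x • (a • f0 + b • f1) + y • f1 + z • f2 := by module
    refine ⟨x * a, x * b + y, z, ?_, ?_, ?_⟩
    · rw [hE]; exact h1
    · rw [hE]; exact h2
    · rw [hE]; exact h3

end Pool.Agent.H31.G5
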