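import Pool.Agent.H31.G5.Arc

/-! # Arcs on a plane sextic -/

set_option autoImplicit false

namespace Pool.Agent.H31.G5

open Pool.Agent.H31.SX
open Polynomial

variable {K : Type*} [Field K]

theorem X_pow_dvd_mul_right {k : ℕ} {a u : K[X]} (hu : u.coeff 0 ≠ 0) (h : X ^ k ∣ a * u) :
    X ^ k ∣ a := by
  have hp : Prime (X : K[X]) := prime_X
  refine hp.pow_dvd_of_dvd_mul_right k ?_ h
  rw [X_dvd_iff]
  exact hu

theorem X_pow_dvd_of_le {k n : ℕ} (h : k ≤ n) {β : K[X]} (hβ : X ∣ β) : X ^ k ∣ β ^ n :=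
  (pow_dvd_pow X h).trans (pow_dvd_pow_of_dvd hβ n)

/-- Comparison of orders. -/
theorem order_cmp {f α β : K[X]} (hf : f.natDegree ≤ 6) (hα : α.coeff 0 ≠ 0)
    (hβ0 : β.coeff 0 = 0) (hβ1 : β.coeff 1 ≠ 0) (k : ℕ) :
    X ^ k ∣ ∑ j ∈ Finset.range 7, C (f.coeff j) * α ^ (6 - j) * β ^ j ↔ X ^ k ∣ f := by
  have hXβ : X ∣ β := X_dvd_iff.mpr hβ0
  obtain ⟨β', hβ'⟩ := hXβ
  have hβ'0 : β'.coeff 0 ≠ 0 := by
    rw [hβ', coeff_X_mul] at hβ1
    exact hβ1
  induction k with
  | zero => simp
  | succ k ih =>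
    have hother : ∀ j ∈ Finset.range 7, j ≠ k → (∀ i < k, f.coeff i = 0) →
        X ^ (k + 1) ∣ C (f.coeff j) * α ^ (6 - j) * β ^ j := by
      intro j _ hjk hlow
      rcases lt_or_gt_of_ne hjk with h | h
      · rw [hlow j h]; simp
      · exact Dvd.dvd.mul_left (X_pow_dvd_of_le (by omega) ⟨β', hβ'⟩) _
    constructor
    · intro h
      have h1 : X ^ k ∣ f := ih.mp ((pow_dvd_pow X (Nat.le_succ k)).trans h)
      have hlow : ∀ i < k, f.coeff i = 0 := X_pow_dvd_iff.mp h1
      rw [X_pow_dvd_iff]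
      intro d hd
      rcases Nat.lt_succ_iff_lt_or_eq.mp hd with h2 | h2
      · exact hlow d h2
      · subst h2
        by_cases h7 : d < 7
        · have hmem : d ∈ Finset.range 7 := Finset.mem_range.mpr h7
          rw [← Finset.add_sum_erase _ _ hmem] at h
          have h3 : X ^ (d + 1) ∣ ∑ j ∈ (Finset.range 7).erase d,
              C (f.coeff j) * α ^ (6 - j) * β ^ j := by
            refine Finset.dvd_sum fun j hj => ?_
            exact hother j (Finset.mem_of_mem_erase hj) (Finset.ne_of_mem_erase hj) hlow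
          have h4 := (dvd_add_left h3).mp h
          have h5 : C (f.coeff d) * α ^ (6 - d) * β ^ d =
              X ^ d * (C (f.coeff d) * α ^ (6 - d) * β' ^ d) := by
            rw [hβ', mul_pow]; ring
          rw [h5, pow_succ] at h4
          have h6 := (mul_dvd_mul_iff_left (pow_ne_zero d X_ne_zero)).mp h4
          rw [X_dvd_iff, mul_coeff_zero, mul_coeff_zero, coeff_C_zero, coeff_zero_eq_eval_zero,
            coeff_zero_eq_eval_zero, eval_pow, eval_pow, ← coeff_zero_eq_eval_zero,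
            ← coeff_zero_eq_eval_zero] at h6
          rcases mul_eq_zero.mp h6 with h8 | h8
          · exact (mul_eq_zero.mp h8).resolve_right (pow_ne_zero _ hα)
          · exact absurd h8 (pow_ne_zero _ hβ'0)
        · exact coeff_eq_zero_of_natDegree_lt (by omega)
    · intro h
      have hlow : ∀ i < k + 1, f.coeff i = 0 := X_pow_dvd_iff.mp h
      refine Finset.dvd_sum fun j hj => ?_
      by_cases hjk : j = k
      · rw [hjk, hlow k (Nat.lt_succ_self k)]; simp
      · exact hother j hj hjk (fun i hi => hlow i (by omega))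

/-- The orders along an arc. -/
theorem core_arc {f α β γ U : K[X]} (hf : f.natDegree ≤ 6) (hα : α.coeff 0 ≠ 0)
    (hβ : β.coeff 0 = 0) (hγ : γ.coeff 0 = 0) (hind : ¬ (β.coeff 1 = 0 ∧ γ.coeff 1 = 0))
    (hsm : f.coeff 1 ≠ 0 ∨ U.coeff 0 ≠ 0) (hf0 : f.coeff 0 = 0)
    (h7 : X ^ 7 ∣ (∑ j ∈ Finset.range 7, C (f.coeff j) * α ^ (6 - j) * β ^ j) + γ * U)
    {k : ℕ} (hk : k ≤ 7) : X ^ k ∣ γ ↔ X ^ k ∣ f := by
  have hXβ : X ∣ β := X_dvd_iff.mpr hβ
  have hXγ : X ∣ γ := X_dvd_iff.mpr hγ
  by_cases h1 : f.coeff 1 = 0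
  · have hU := hsm.resolve_left (not_not.mpr h1)
    have h2 : X ^ 2 ∣ ∑ j ∈ Finset.range 7, C (f.coeff j) * α ^ (6 - j) * β ^ j := by
      refine Finset.dvd_sum fun j _ => ?_
      rcases j with _ | _ | j
      · rw [hf0]; simp
      · rw [zero_add, h1]; simp
      · exact Dvd.dvd.mul_left (X_pow_dvd_of_le (by omega) hXβ) _
    have h3 : X ^ 2 ∣ γ * U := (dvd_add_right h2).mp ((pow_dvd_pow X (by norm_num)).trans h7)
    have h4 : X ^ 2 ∣ γ := X_pow_dvd_mul_right hU h3
    have h5 : γ.coeff 1 = 0 := X_pow_dvd_iff.mp h4 1 (by norm_num)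
    have h6 : β.coeff 1 ≠ 0 := fun h => hind ⟨h, h5⟩
    rw [← order_cmp hf hα hβ h6 k]
    constructor
    · intro h
      exact (dvd_add_left (Dvd.dvd.mul_right h U)).mp ((pow_dvd_pow X hk).trans h7)
    · intro h
      exact X_pow_dvd_mul_right hU ((dvd_add_right h).mp ((pow_dvd_pow X hk).trans h7))
  · have hγ1 : γ.coeff 1 ≠ 0 := by
      intro hγ1
      have h2 : X ^ 2 ∣ γ := by
        rw [X_pow_dvd_iff]
        intro d hd
        interval_cases d
        · exact hγ
        · exact hγ1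
      have h3 : X ^ 2 ∣ ∑ j ∈ Finset.range 7, C (f.coeff j) * α ^ (6 - j) * β ^ j :=
        (dvd_add_left (Dvd.dvd.mul_right h2 U)).mp ((pow_dvd_pow X (by norm_num)).trans h7)
      have hβ1 : β.coeff 1 ≠ 0 := fun h => hind ⟨h, hγ1⟩
      have h4 := (order_cmp hf hα hβ hβ1 2).mp h3
      exact h1 (X_pow_dvd_iff.mp h4 1 (by norm_num))
    have key : ∀ g : K[X], g.coeff 0 = 0 → g.coeff 1 ≠ 0 → (X ^ k ∣ g ↔ k ≤ 1) := by
      intro g hg0 hg1
      constructor
      · intro h
        by_contra hk1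
        exact hg1 (X_pow_dvd_iff.mp h 1 (by omega))
      · intro h
        rw [X_pow_dvd_iff]
        intro d hd
        have : d = 0 := by omega
        rw [this]
        exact hg0
    rw [key γ hγ hγ1, key f hf0 h1]

theorem eval_aeval (F : MvPolynomial (Fin 3) K) (a : Fin 3 → K[X]) (c : K) :
    (MvPolynomial.aeval a F).eval c = MvPolynomial.eval (fun j => (a j).eval c) F := by
  induction F using MvPolynomial.induction_on with
  | C a => simp
  | add p q hp hq => rw [map_add, eval_add, hp, hq, map_add]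
  | mul_X p i hp =>
    rw [map_mul, eval_mul, hp, map_mul, MvPolynomial.aeval_X, MvPolynomial.eval_X]

theorem coeff_aeval (F : MvPolynomial (Fin 3) K) (a : Fin 3 → K[X]) :
    (MvPolynomial.aeval a F).coeff 0 = MvPolynomial.eval (cf 0 a) F := by
  rw [coeff_zero_eq_eval_zero, eval_aeval]
  congr 1
  congr 1
  funext j
  simp [cf, coeff_zero_eq_eval_zero]

/-- Taylor's formula. -/
theorem taylor (F : MvPolynomial (Fin 3) K) (a b : Fin 3 → K[X]) (γ : K[X]) :
    ∃ r : K[X], MvPolynomial.aeval (a + γ • b) F = MvPolynomial.aeval a F +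
      γ * (b 0 * MvPolynomial.aeval a (MvPolynomial.pderiv 0 F) +
        b 1 * MvPolynomial.aeval a (MvPolynomial.pderiv 1 F) +
        b 2 * MvPolynomial.aeval a (MvPolynomial.pderiv 2 F)) + γ ^ 2 * r := by
  induction F using MvPolynomial.induction_on with
  | C a => exact ⟨0, by simp⟩
  | add p q hp hq =>
    obtain ⟨r, hr⟩ := hp
    obtain ⟨s, hs⟩ := hq
    refine ⟨r + s, ?_⟩
    simp only [map_add, hr, hs]
    ring
  | mul_X p i hp =>
    obtain ⟨r, hr⟩ := hp
    refine ⟨r * (a i + γ * b i) + (b 0 * MvPolynomial.aeval a (MvPolynomial.pderiv 0 p) +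
        b 1 * MvPolynomial.aeval a (MvPolynomial.pderiv 1 p) +
        b 2 * MvPolynomial.aeval a (MvPolynomial.pderiv 2 p)) * b i, ?_⟩
    rw [map_mul, hr, MvPolynomial.aeval_X]
    simp only [Derivation.leibniz, smul_eq_mul, map_add, map_mul, MvPolynomial.aeval_X,
      MvPolynomial.pderiv_X, Pi.add_apply, Pi.smul_apply]
    fin_cases i <;> simp <;> ring

theorem eval_two [Infinite K] {F : MvPolynomial (Fin 3) K} (hF : F.IsHomogeneous 6)
    (p w : Fin 3 → K) (a b : K) : MvPolynomial.eval (a • p + b • w) F =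
      ∑ j ∈ Finset.range 7, (res F p w).coeff j * a ^ (6 - j) * b ^ j := by
  by_cases ha : a = 0
  · subst ha
    rw [zero_smul, zero_add, eval_smul hF, Finset.sum_eq_single 6, res_coeff_top hF]
    · simp [mul_comm]
    · intro j hj hj6
      rw [Finset.mem_range] at hj
      rw [zero_pow (by omega)]
      ring
    · intro h
      exact absurd (Finset.mem_range.mpr (by norm_num)) h
  · have h1 : a • p + b • w = a • (p + (b / a) • w) := by
      rw [smul_add, smul_smul, mul_div_cancel₀ _ ha]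
    have h2 : (res F p w).natDegree < 7 := Nat.lt_succ_of_le (res_natDegree_le hF p w)
    rw [h1, eval_smul hF, ← res_eval, eval_eq_sum_range' h2, Finset.mul_sum]
    refine Finset.sum_congr rfl fun j hj => ?_
    rw [Finset.mem_range] at hj
    have h3 : a ^ 6 = a ^ (6 - j) * a ^ j := by rw [← pow_add]; congr 1; omega
    rw [h3, div_pow]
    field_simp

theorem aeval_two [Infinite K] {F : MvPolynomial (Fin 3) K} (hF : F.IsHomogeneous 6)
    (p w : Fin 3 → K) (α β : K[X]) :
    MvPolynomial.aeval (α • cst p + β • cst w) F =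
      ∑ j ∈ Finset.range 7, C ((res F p w).coeff j) * α ^ (6 - j) * β ^ j := by
  refine eq_of_infinite_eval_eq _ _ (Set.infinite_univ.mono ?_)
  intro c _
  change eval c _ = eval c _
  have h1 : (fun j => eval c ((α • cst p + β • cst w) j)) = (eval c α) • p + (eval c β) • w := by
    funext j
    simp [cst]
  rw [eval_aeval, h1, eval_two hF, eval_finsetSum]
  refine Finset.sum_congr rfl fun j _ => ?_
  simp

/-- The planar arc lemma. -/
theorem planar [Infinite K] {F : MvPolynomial (Fin 3) K} (hF : F.IsHomogeneous 6)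
    {p w n : Fin 3 → K} {y : Fin 3 → K[X]} (hy0 : cf 0 y = p)
    (hp : MvPolynomial.eval p F = 0) (hgr : gr F p ≠ 0) (hy1 : cr p (cf 1 y) ≠ 0)
    (hF7 : X ^ 7 ∣ MvPolynomial.aeval y F) (hn0 : n ≠ 0) (hnp : dt n p = 0) (hnw : dt n w = 0)
    (hpw : cr p w ≠ 0) {k : ℕ} (hk : k ≤ 7) :
    X ^ k ∣ dt (cst n) y ↔ X ^ k ∣ res F p w := by
  obtain ⟨e, he⟩ := exists_third hpw
  set D := d3 p w e with hD
  obtain ⟨s, hs⟩ := perp_par hpw hnp hnw
  have hs0 : s ≠ 0 := by
    rintro rfl
    rw [zero_smul] at hs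
    exact hn0 hs
  set α : K[X] := C D⁻¹ * d3 y (cst w) (cst e) with hα
  set β : K[X] := C D⁻¹ * d3 (cst p) y (cst e) with hβ
  set γ : K[X] := C D⁻¹ * d3 (cst p) (cst w) y with hγ
  have hCD : d3 (cst p) (cst w) (cst e) = C D := by
    rw [hD]
    exact d3_map (C : K →+* K[X]) p w e
  have hCC : C D⁻¹ * C D = (1 : K[X]) := by rw [← C_mul, inv_mul_cancel₀ he, C_1]
  have hy : y = (α • cst p + β • cst w) + γ • cst e := by
    funext m
    have h1 := expand (cst p) (cst w) (cst e) y m
    rw [hCD] at h1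
    simp only [Pi.add_apply, Pi.smul_apply, smul_eq_mul]
    rw [hα, hβ, hγ]
    calc y m = C D⁻¹ * (C D * y m) := by rw [← mul_assoc, hCC, one_mul]
      _ = _ := by rw [h1]; ring
  have hcf : ∀ (a b c : Fin 3 → K[X]), (d3 a b c).coeff 0 = d3 (cf 0 a) (cf 0 b) (cf 0 c) := by
    intro a b c
    have h1 := d3_map (evalRingHom (0 : K)) a b c
    rw [coeff_zero_eq_eval_zero]
    have h2 : ∀ a : Fin 3 → K[X], (evalRingHom (0 : K)) ∘ a = cf 0 a := by
      intro a
      funext j
      simp [cf, coeff_zero_eq_eval_zero]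
    rw [h2, h2, h2] at h1
    exact h1.symm
  have hcc : ∀ a : Fin 3 → K, cf 0 (cst a) = a := by
    intro a
    funext j
    simp [cf, cst]
  have hα0 : α.coeff 0 ≠ 0 := by
    rw [hα, coeff_C_mul, hcf, hy0, hcc, hcc]
    exact mul_ne_zero (inv_ne_zero he) he
  have hβ0 : β.coeff 0 = 0 := by
    rw [hβ, coeff_C_mul, hcf, hy0, hcc, hcc, d3_self, mul_zero]
  have hγ0 : γ.coeff 0 = 0 := by
    rw [hγ, coeff_C_mul, hcf, hy0, hcc, hcc, d3_left, mul_zero]
  have hE := euler hF p
  rw [hp, mul_zero] at hE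
  -- the first coefficients
  have hind : ¬ (β.coeff 1 = 0 ∧ γ.coeff 1 = 0) := by
    rintro ⟨h1, h2⟩
    apply hy1
    have h3 : cf 1 y = (α.coeff 1) • p := by
      funext m
      have h4 := congrArg (fun q => (q m).coeff 1) hy
      simp only [Pi.add_apply, Pi.smul_apply, smul_eq_mul, coeff_add, cst, coeff_mul_C] at h4
      rw [h1, h2] at h4
      simp only [cf, Pi.smul_apply, smul_eq_mul]
      rw [h4]
      ring
    rw [h3, cr_swap, cr_smul_self, neg_zero]
  obtain ⟨r, hr⟩ := taylor F (α • cst p + β • cst w) (cst e) γ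
  rw [← hy, aeval_two hF] at hr
  set a := α • cst p + β • cst w with ha
  have hcfa : cf 0 a = (α.coeff 0) • p := by
    funext m
    simp [cf, ha, cst, hβ0]
  have hα1 : α.coeff 0 = 1 := by
    rw [hα, coeff_C_mul, hcf, hy0, hcc, hcc]
    exact inv_mul_cancel₀ he
  rw [hα1, one_smul] at hcfa
  set U : K[X] := (cst e 0 * MvPolynomial.aeval a (MvPolynomial.pderiv 0 F) +
        cst e 1 * MvPolynomial.aeval a (MvPolynomial.pderiv 1 F) +
        cst e 2 * MvPolynomial.aeval a (MvPolynomial.pderiv 2 F)) + γ * r with hU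
  have hU0 : U.coeff 0 = dt (gr F p) e := by
    rw [hU, coeff_add, coeff_add, coeff_add, mul_coeff_zero, mul_coeff_zero, mul_coeff_zero,
      mul_coeff_zero, hγ0, coeff_aeval, coeff_aeval, coeff_aeval, hcfa]
    unfold dt gr
    simp [cst]
    ring
  have hf1 : (res F p w).coeff 1 = dt (gr F p) w := by
    have h1 := res_derivative_eval F p w 0
    rw [zero_smul, add_zero, ← coeff_zero_eq_eval_zero, coeff_derivative] at h1
    rw [← h1]
    simp
  have hf0 : (res F p w).coeff 0 = 0 := by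
    rw [coeff_zero_eq_eval_zero, res_eval, zero_smul, add_zero, hp]
  have hsm : (res F p w).coeff 1 ≠ 0 ∨ U.coeff 0 ≠ 0 := by
    by_contra hno
    simp only [not_or, not_not] at hno
    rw [hf1, hU0] at hno
    apply hgr
    have h1 : ∀ z, dt (gr F p) z = 0 := by
      intro z
      have h2 : D • z = (d3 z w e) • p + (d3 p z e) • w + (d3 p w z) • e := by
        funext m
        have := expand p w e z m
        simp only [Pi.smul_apply, smul_eq_mul, Pi.add_apply]
        rw [hD]
        exact this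
      have h3 : D * dt (gr F p) z = 0 := by
        rw [← dt_smul, h2, dt_add, dt_add, dt_smul, dt_smul, dt_smul, hE, hno.1, hno.2]
        ring
      exact (mul_eq_zero.mp h3).resolve_left he
    by_contra hne
    obtain ⟨z, hz⟩ := dt_ne hne
    exact hz (h1 z)
  have h7 : X ^ 7 ∣ (∑ j ∈ Finset.range 7, C ((res F p w).coeff j) * α ^ (6 - j) * β ^ j) +
      γ * U := by
    have : (∑ j ∈ Finset.range 7, C ((res F p w).coeff j) * α ^ (6 - j) * β ^ j) + γ * U =
        MvPolynomial.aeval y F := by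
      rw [hr, hU]; ring
    rw [this]
    exact hF7
  rw [← core_arc (res_natDegree_le hF p w) hα0 hβ0 hγ0 hind hsm hf0 h7 hk]
  have hdt : dt (cst n) y = C (s * D) * γ := by
    have h1 : dt (cst n) y = C s * d3 (cst p) (cst w) y := by
      rw [hs]
      unfold d3 dt cst
      simp
      ring
    rw [h1, hγ, C_mul]
    calc C s * d3 (cst p) (cst w) y = C s * ((C D⁻¹ * C D) * d3 (cst p) (cst w) y) := by
          rw [hCC, one_mul]
      _ = _ := by ring
  rw [hdt]
  constructor
  · intro h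
    rw [mul_comm] at h
    refine X_pow_dvd_mul_right ?_ h
    rw [coeff_C_zero]
    exact mul_ne_zero hs0 he
  · intro h
    exact Dvd.dvd.mul_left h _

end Pool.Agent.H31.G5
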