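import Pool.Agent.H31.G5.Sext
import Pool.Agent.H31.G5.PL

/-! # Coordinates for the projection from a secant -/

set_option autoImplicit false

namespace Pool.Agent.H31.G5

open Pool.Agent.H31.SX
open Matrix Polynomial

variable {K : Type*} [Field K]

section Alg

variable {R : Type*} [CommRing R] [Algebra K R] {M : Fin 3 → Matrix (Fin 5) (Fin 5) K}

theorem bv_am (A B : Fin 5 → K) : bv M (am A : Fin 5 → R) (am B) = am (bv M A B) := by
  have h := bv_map M (Algebra.ofId K R) A B
  exact h.symm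

/-- The complement. -/
def YY (e : Fin 3 → Fin 5 → K) (y : Fin 3 → R) : Fin 5 → R :=
  y 0 • am (e 0) + y 1 • am (e 1) + y 2 • am (e 2)

/-- The constant vector. -/
def cc (M : Fin 3 → Matrix (Fin 5) (Fin 5) K) (A B : Fin 5 → K) : Fin 3 → K :=
  (2 : K) • bv M A B

/-- The matrix of the linear part. -/
def ma (M : Fin 3 → Matrix (Fin 5) (Fin 5) K) (A : Fin 5 → K) (e : Fin 3 → Fin 5 → K) :
    Matrix (Fin 3) (Fin 3) K := fun i j => 2 * bv M A (e j) i

/-- The matrices of the quadratic part. -/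
def mG (M : Fin 3 → Matrix (Fin 5) (Fin 5) K) (e : Fin 3 → Fin 5 → K) :
    Fin 3 → Matrix (Fin 3) (Fin 3) K := fun i j k => bv M (e j) (e k) i

theorem am_two_smul {n : ℕ} (a : Fin n → K) : (am ((2 : K) • a) : Fin n → R) = (2 : R) • am a := by
  funext i
  simp only [am, Pi.smul_apply, smul_eq_mul, map_mul, map_ofNat]

theorem al_ma (A : Fin 5 → K) (e : Fin 3 → Fin 5 → K) (y : Fin 3 → R) :
    al (ma M A e) y = (2 : R) • bv M (am A) (YY e y) := by
  unfold YY
  simp only [bv_add_right, bv_smul_right, bv_am]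
  funext i
  simp only [al, ma, Matrix.mulVec, dotProduct, Fin.sum_univ_three, Matrix.map_apply, am,
    Pi.smul_apply, Pi.add_apply, smul_eq_mul, map_mul, map_ofNat]
  ring

theorem ga_mG (e : Fin 3 → Fin 5 → K) (y : Fin 3 → R) :
    ga (mG M e) y = bv M (YY e y) (YY e y) := by
  unfold YY
  simp only [bv_add_right, bv_smul_right, bv_add_left, bv_smul_left, bv_am]
  funext i
  simp only [ga, mG, Matrix.mulVec, dotProduct, Fin.sum_univ_three, Matrix.map_apply, am,
    Pi.smul_apply, Pi.add_apply, smul_eq_mul]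
  ring

theorem main_exp (hM : ∀ i, (M i).IsSymm) {A B : Fin 5 → K} (hA : bv M A A = 0)
    (hB : bv M B B = 0) (e : Fin 3 → Fin 5 → K) (x0 x1 : R) (y : Fin 3 → R) :
    (x0 * x1) • am (cc M A B) + x0 • al (ma M A e) y + x1 • al (ma M B e) y + ga (mG M e) y =
      bv M (x0 • am A + x1 • am B + YY e y) (x0 • am A + x1 • am B + YY e y) := by
  have h0 : (am (0 : Fin 3 → K) : Fin 3 → R) = 0 := by funext i; simp [am]
  rw [al_ma, al_ma, ga_mG]
  unfold cc
  rw [am_two_smul, ← bv_am]
  simp only [bv_add_right, bv_smul_right, bv_add_left, bv_smul_left]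
  rw [bv_comm hM (am B : Fin 5 → R) (am A), bv_comm hM (YY e y) (am A),
    bv_comm hM (YY e y) (am B), bv_am A A, bv_am B B, hA, hB, h0]
  module

/-- The pairing with a covector. -/
def dp (l : Fin 5 → K) (x : Fin 5 → R) : R := ∑ a, algebraMap K R (l a) * x a

/-- The projection. -/
def LL (Λ : Fin 3 → Fin 5 → K) (x : Fin 5 → R) : Fin 3 → R := fun j => dp (Λ j) x

theorem dp_add (l : Fin 5 → K) (x y : Fin 5 → R) : dp l (x + y) = dp l x + dp l y := by
  unfold dp
  rw [← Finset.sum_add_distrib]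
  exact Finset.sum_congr rfl fun a _ => by rw [Pi.add_apply]; ring

theorem dp_smul (l : Fin 5 → K) (r : R) (x : Fin 5 → R) : dp l (r • x) = r * dp l x := by
  unfold dp
  rw [Finset.mul_sum]
  exact Finset.sum_congr rfl fun a _ => by rw [Pi.smul_apply, smul_eq_mul]; ring

theorem LL_add (Λ : Fin 3 → Fin 5 → K) (x y : Fin 5 → R) : LL Λ (x + y) = LL Λ x + LL Λ y := by
  funext j
  exact dp_add _ _ _

theorem LL_smul (Λ : Fin 3 → Fin 5 → K) (r : R) (x : Fin 5 → R) : LL Λ (r • x) = r • LL Λ x := by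
  funext j
  exact dp_smul _ _ _

end Alg

/-- Coordinates. -/
structure Co (A B : Fin 5 → K) (e : Fin 3 → Fin 5 → K) (l0 l1 : Fin 5 → K)
    (Λ : Fin 3 → Fin 5 → K) : Prop where
  hid : ∀ a a', A a * l0 a' + B a * l1 a' + e 0 a * Λ 0 a' + e 1 a * Λ 1 a' + e 2 a * Λ 2 a' =
    if a = a' then 1 else 0
  LA : LL Λ A = 0
  LB : LL Λ B = 0
  Le : ∀ y : Fin 3 → K, LL Λ (YY e y) = y

theorem am_self {n : ℕ} (a : Fin n → K) : (am a : Fin n → K) = a := by
  funext i
  simp [am]

theorem exists_co {A B : Fin 5 → K} (hB0 : B ≠ 0) (hAB : ∀ κ : K, A ≠ κ • B) :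
    ∃ (e : Fin 3 → Fin 5 → K) (l0 l1 : Fin 5 → K) (Λ : Fin 3 → Fin 5 → K), Co A B e l0 l1 Λ := by
  have hli2 : LinearIndependent K ![A, B] := by
    rw [LinearIndependent.pair_iff]
    intro x y h
    have hx : x = 0 := by
      by_contra hx
      apply hAB (-(x⁻¹ * y))
      have h1 : x • A = -(y • B) := eq_neg_of_add_eq_zero_left h
      calc A = x⁻¹ • (x • A) := by rw [smul_smul, inv_mul_cancel₀ hx, one_smul]
        _ = _ := by rw [h1]; module
    subst hx
    rw [zero_smul, zero_add] at h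
    exact ⟨rfl, (smul_eq_zero.mp h).resolve_right hB0⟩
  set W := Submodule.span K (Set.range ![A, B]) with hW
  have hWf : Module.finrank K W = 2 := by
    rw [hW, finrank_span_eq_card hli2]
    rfl
  have hq : Module.finrank K ((Fin 5 → K) ⧸ W) = 3 := by
    have := W.finrank_quotient_add_finrank
    rw [Module.finrank_fin_fun] at this
    omega
  set bq := Module.finBasisOfFinrankEq K ((Fin 5 → K) ⧸ W) hq with hbq
  choose e he using fun j => W.mkQ_surjective (bq j)
  have hAW : W.mkQ A = 0 := by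
    rw [← LinearMap.mem_ker, Submodule.ker_mkQ]
    exact Submodule.subset_span ⟨0, rfl⟩
  have hBW : W.mkQ B = 0 := by
    rw [← LinearMap.mem_ker, Submodule.ker_mkQ]
    exact Submodule.subset_span ⟨1, rfl⟩
  have hli : LinearIndependent K ![A, B, e 0, e 1, e 2] := by
    rw [Fintype.linearIndependent_iff]
    intro g hg
    simp only [Fin.sum_univ_five] at hg
    change g 0 • A + g 1 • B + g 2 • e 0 + g 3 • e 1 + g 4 • e 2 = 0 at hg
    have h1 := congrArg W.mkQ hg
    simp only [map_add, map_smul, hAW, hBW, he, smul_zero, zero_add, map_zero] at h1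
    have h2 := Fintype.linearIndependent_iff.mp bq.linearIndependent ![g 2, g 3, g 4] (by
      rw [Fin.sum_univ_three]
      exact h1)
    have e2 : g 2 = 0 := h2 0
    have e3 : g 3 = 0 := h2 1
    have e4 : g 4 = 0 := h2 2
    rw [e2, e3, e4, zero_smul, zero_smul, zero_smul, add_zero, add_zero, add_zero] at hg
    obtain ⟨e0, e1⟩ := (LinearIndependent.pair_iff.mp hli2) _ _ hg
    intro i
    fin_cases i
    · exact e0
    · exact e1
    · exact e2
    · exact e3
    · exact e4
  set b := basisOfLinearIndependentOfCardEqFinrank hli (by simp) with hb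
  have hbc : ∀ k, b k = ![A, B, e 0, e 1, e 2] k := fun k => by
    rw [hb, coe_basisOfLinearIndependentOfCardEqFinrank]
  set P := (Pi.basisFun K (Fin 5)).toMatrix b with hP
  set P' := b.toMatrix (Pi.basisFun K (Fin 5)) with hP'
  have hPP' : P * P' = 1 := Module.Basis.toMatrix_mul_toMatrix_flip _ _
  have hP'P : P' * P = 1 := Module.Basis.toMatrix_mul_toMatrix_flip _ _
  have hPe : ∀ a k, P a k = b k a := fun a k => by
    rw [hP, Module.Basis.toMatrix_apply]
    simp
  have hkey : ∀ j k, ∑ a, P' j a * (b k) a = if j = k then 1 else 0 := by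
    intro j k
    have h1 := congrFun (congrFun hP'P j) k
    rw [Matrix.mul_apply, Matrix.one_apply] at h1
    rw [← h1]
    exact Finset.sum_congr rfl fun a _ => by rw [hPe]
  have hLb : ∀ (j : Fin 3) (k : Fin 5) , dp (P' j.succ.succ) (b k) =
      if j.succ.succ = k then 1 else 0 := by
    intro j k
    rw [← hkey]
    rfl
  refine ⟨e, P' 0, P' 1, fun j => P' j.succ.succ, ?_, ?_, ?_, ?_⟩
  · intro a a'
    have h1 := congrFun (congrFun hPP' a) a'
    rw [Matrix.mul_apply, Matrix.one_apply, Fin.sum_univ_five, hPe, hPe, hPe, hPe, hPe, hbc, hbc,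
      hbc, hbc, hbc] at h1
    exact h1
  · funext j
    have h1 := hLb j 0
    rw [hbc] at h1
    rw [if_neg (Fin.succ_ne_zero _)] at h1
    exact h1
  · funext j
    have h1 := hLb j 1
    rw [hbc] at h1
    rw [if_neg (by
      intro h
      have := congrArg Fin.val h
      simp at this)] at h1
    exact h1
  · intro y
    have h2 := fun j => hLb j 2
    have h3 := fun j => hLb j 3
    have h4 := fun j => hLb j 4
    simp only [hbc] at h2 h3 h4
    change ∀ j : Fin 3, dp (P' j.succ.succ) (e 0) = _ at h2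
    change ∀ j : Fin 3, dp (P' j.succ.succ) (e 1) = _ at h3
    change ∀ j : Fin 3, dp (P' j.succ.succ) (e 2) = _ at h4
    funext j
    unfold LL YY
    rw [dp_add, dp_add, dp_smul, dp_smul, dp_smul, am_self, am_self, am_self, h2, h3, h4]
    fin_cases j <;> simp [Fin.ext_iff]

section Use

variable {A B : Fin 5 → K} {e : Fin 3 → Fin 5 → K} {l0 l1 : Fin 5 → K} {Λ : Fin 3 → Fin 5 → K}

theorem Co.dec (h : Co A B e l0 l1 Λ) {R : Type*} [CommRing R] [Algebra K R] (x : Fin 5 → R) :
    x = dp l0 x • am A + dp l1 x • am B + YY e (LL Λ x) := by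
  funext a
  have h1 : x a = ∑ a', algebraMap K R (if a = a' then 1 else 0) * x a' := by
    rw [Finset.sum_eq_single a]
    · simp
    · intro b _ hb
      rw [if_neg (Ne.symm hb)]
      simp
    · intro h
      exact absurd (Finset.mem_univ a) h
  nth_rewrite 1 [h1]
  simp only [← h.hid, map_add, map_mul]
  unfold YY LL dp am
  simp only [Pi.add_apply, Pi.smul_apply, smul_eq_mul, Finset.sum_mul, ← Finset.sum_add_distrib]
  exact Finset.sum_congr rfl fun a' _ => by ring

theorem Co.span (h : Co A B e l0 l1 Λ) {x z : Fin 5 → K} {s : K} (hx : LL Λ x = s • LL Λ z) :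
    ∃ u v : K, x = u • A + v • B + s • z := by
  have h1 := h.dec (x - s • z)
  have h2 : LL Λ (x - s • z) = 0 := by
    have : x - s • z = x + (-s) • z := by module
    rw [this, LL_add, LL_smul, hx]
    module
  have h3 : YY e (0 : Fin 3 → K) = 0 := by unfold YY; simp
  rw [h2, h3, add_zero, am_self, am_self] at h1
  exact ⟨_, _, by rw [← h1]; abel⟩

theorem Co.span0 (h : Co A B e l0 l1 Λ) {x : Fin 5 → K} (hx : LL Λ x = 0) :
    ∃ u v : K, x = u • A + v • B := by
  obtain ⟨u, v, huv⟩ := h.span (x := x) (z := 0) (s := 0) (by rw [hx, zero_smul])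
  exact ⟨u, v, by rw [huv]; module⟩

end Use

end Pool.Agent.H31.G5
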