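import Pool.Agent.H31.G5.Oct

/-! # Hyperplane sections over extensions of the base field -/

set_option autoImplicit false

namespace Pool.Agent.H31.G5

open Pool.Agent.H31.SX
open Matrix Polynomial

set_option linter.unusedSectionVars false

variable {K : Type*} [Field K] {L : Type*} [Field L] [Algebra K L]

theorem am_add {n : ℕ} (a b : Fin n → K) : (am (a + b) : Fin n → L) = am a + am b := by
  funext i
  simp [am]

theorem am_smul {n : ℕ} (s : K) (a : Fin n → K) :
    (am (s • a) : Fin n → L) = (algebraMap K L s) • am a := by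
  funext i
  simp [am]

theorem am_inj {n : ℕ} {a : Fin n → K} (h : (am a : Fin n → L) = 0) : a = 0 := by
  funext i
  have h1 := congrFun h i
  simp only [am, Pi.zero_apply] at h1
  exact (map_eq_zero (algebraMap K L)).mp h1

theorem cr_am (a b : Fin 3 → K) : cr (am a : Fin 3 → L) (am b) = am (cr a b) := by
  refine ext3 ?_ ?_ ?_ <;> simp [am]

theorem d3_am (a b c : Fin 3 → K) :
    d3 (am a : Fin 3 → L) (am b) (am c) = algebraMap K L (d3 a b c) :=
  d3_map (algebraMap K L) a b c

theorem dp_am (l : Fin 5 → K) (x : Fin 5 → K) : dp l (am x : Fin 5 → L) = algebraMap K L (dp l x) := by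
  unfold dp am
  simp

theorem LL_am (Λ : Fin 3 → Fin 5 → K) (x : Fin 5 → K) :
    LL Λ (am x : Fin 5 → L) = am (LL Λ x) := by
  funext j
  exact dp_am _ _

theorem dt_LL' (n : Fin 3 → K) (Λ : Fin 3 → Fin 5 → K) (z : Fin 5 → L) :
    dt (am n) (LL Λ z) = dp (fun a => n 0 * Λ 0 a + n 1 * Λ 1 a + n 2 * Λ 2 a) z := by
  unfold dt LL dp am
  rw [Finset.mul_sum, Finset.mul_sum, Finset.mul_sum, ← Finset.sum_add_distrib,
    ← Finset.sum_add_distrib]
  refine Finset.sum_congr rfl fun a _ => ?_
  simp only [map_add, map_mul]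
  ring

/-- Vectors with zero determinant have a common orthogonal vector. -/
theorem dep_det {g1 g2 g3 : Fin 3 → K} (h : d3 g1 g2 g3 = 0) :
    ∃ c : Fin 3 → K, c ≠ 0 ∧ dt c g1 = 0 ∧ dt c g2 = 0 ∧ dt c g3 = 0 := by
  have h1 : (Matrix.of ![g1, g2, g3]).det = 0 := by
    rw [Matrix.det_fin_three, ← h]
    unfold d3 dt
    simp
    ring
  obtain ⟨c, hc, hc0⟩ := Matrix.exists_mulVec_eq_zero_iff.mpr h1
  refine ⟨c, hc, ?_, ?_, ?_⟩
  · have := congrFun hc0 0
    simp only [Matrix.mulVec, dotProduct, Fin.sum_univ_three] at this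
    unfold dt
    simp at this
    linear_combination this
  · have := congrFun hc0 1
    simp only [Matrix.mulVec, dotProduct, Fin.sum_univ_three] at this
    unfold dt
    simp at this
    linear_combination this
  · have := congrFun hc0 2
    simp only [Matrix.mulVec, dotProduct, Fin.sum_univ_three] at this
    unfold dt
    simp at this
    linear_combination this

/-- A relation over the extension. -/
theorem rel_ext {g1 g2 g3 : Fin 3 → K} (h : d3 g1 g2 g3 ≠ 0) {a b c : L}
    (hrel : a • (am g1 : Fin 3 → L) + b • am g2 + c • am g3 = 0) : c = 0 := by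
  have h1 : d3 (am g1) (am g2) (a • (am g1 : Fin 3 → L) + b • am g2 + c • am g3) =
      c * d3 (am g1) (am g2) (am g3) := by
    unfold d3 dt
    simp
    ring
  rw [hrel, d3_am] at h1
  have h2 : d3 (am g1) (am g2) (0 : Fin 3 → L) = 0 := by unfold d3 dt; simp
  rw [h2] at h1
  exact (mul_eq_zero.mp h1.symm).resolve_right (fun h3 => h ((map_eq_zero _).mp h3))

theorem aeval_smul6 {F : MvPolynomial (Fin 3) K} (hF : F.IsHomogeneous 6) (s : L)
    (y : Fin 3 → L) : MvPolynomial.aeval (s • y) F = s ^ 6 * MvPolynomial.aeval y F := by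
  have h1 : ∀ y : Fin 3 → L, MvPolynomial.aeval y F =
      MvPolynomial.eval y (MvPolynomial.map (algebraMap K L) F) := by
    intro y
    rw [MvPolynomial.eval_map]
    rfl
  rw [h1, h1, Pool.Agent.H31.SX.eval_smul (hF.map _)]

theorem aeval_res (F : MvPolynomial (Fin 3) K) (p w : Fin 3 → K) (s : L) :
    aeval s (res F p w) = MvPolynomial.aeval ((am p : Fin 3 → L) + s • am w) F := by
  unfold res
  have h1 := MvPolynomial.comp_aeval_apply (φ := (aeval s : K[X] →ₐ[K] L))
    (fun j => C (p j) + X * C (w j)) F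
  rw [h1]
  congr 1
  congr 1
  funext j
  simp [am]
  ring

/-- The zeros on a line over the extension. -/
theorem line_ext [CharZero K] [DecidableEq K] {F : MvPolynomial (Fin 3) K} (hF : F.IsHomogeneous 6)
    {p w : Fin 3 → K} (hpw : cr p w ≠ 0) (hFw : MvPolynomial.eval w F ≠ 0)
    (hsp : (res F p w).Splits) {y : Fin 3 → L} (hy : y ≠ 0)
    (hFy : MvPolynomial.aeval y F = 0) (hline : dt (am (cr p w)) y = 0) :
    ∃ (r : K) (a : L), a ≠ 0 ∧ MvPolynomial.eval (p + r • w) F = 0 ∧
      y = a • am (p + r • w) := by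
  have hinf : Infinite K := CharZero.infinite K
  have h1 : cr (am p : Fin 3 → L) (am w) ≠ 0 := by
    rw [cr_am]
    exact fun h => hpw (am_inj h)
  obtain ⟨a, b, hab⟩ := in_span h1 (x := y) (by rw [cr_am]; exact hline)
  have ha : a ≠ 0 := by
    rintro rfl
    rw [zero_smul, zero_add] at hab
    have hb : b ≠ 0 := by
      rintro rfl
      exact hy (by rw [hab, zero_smul])
    rw [hab, aeval_smul6 hF] at hFy
    have h2 := (mul_eq_zero.mp hFy).resolve_left (pow_ne_zero 6 hb)
    have h3 : MvPolynomial.aeval (am w : Fin 3 → L) F = algebraMap K L (MvPolynomial.eval w F) := by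
      have h4 := MvPolynomial.comp_aeval_apply (φ := (Algebra.ofId K L)) w F
      have h5 : MvPolynomial.aeval w F = MvPolynomial.eval w F := by
        rw [MvPolynomial.aeval_def, Algebra.algebraMap_self]
        rfl
      rw [h5] at h4
      exact h4.symm
    rw [h3] at h2
    exact hFw ((map_eq_zero _).mp h2)
  have hy2 : y = a • ((am p : Fin 3 → L) + (b / a) • am w) := by
    rw [hab, smul_add, smul_smul, mul_div_cancel₀ _ ha]
  rw [hy2, aeval_smul6 hF] at hFy
  have h2 := (mul_eq_zero.mp hFy).resolve_left (pow_ne_zero 6 ha)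
  rw [← aeval_res] at h2
  have hroot : ∃ r ∈ (res F p w).roots, algebraMap K L r = b / a := by
    have h3 := hsp.eq_prod_roots
    rw [h3, map_mul, aeval_C] at h2
    have h4 : algebraMap K L (res F p w).leadingCoeff ≠ 0 := by
      intro h5
      exact res_ne hF p hFw (leadingCoeff_eq_zero.mp ((map_eq_zero _).mp h5))
    have h5 := (mul_eq_zero.mp h2).resolve_left h4
    rw [map_multiset_prod, Multiset.prod_eq_zero_iff, Multiset.map_map, Multiset.mem_map] at h5
    obtain ⟨r, hr, h6⟩ := h5
    refine ⟨r, hr, ?_⟩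
    simp only [Function.comp, map_sub, aeval_X, aeval_C] at h6
    exact (sub_eq_zero.mp h6).symm
  obtain ⟨r, hr, hr2⟩ := hroot
  refine ⟨r, a, ha, ?_, ?_⟩
  · rw [← res_eval]
    exact (mem_roots'.mp hr).2
  · rw [hy2, am_add, am_smul, hr2]

variable {M : Fin 3 → Matrix (Fin 5) (Fin 5) K}

section Two

variable [CharZero K] {ι : Type*} [Fintype ι] [DecidableEq ι]
  {r t : ι → Fin 5 → K} {x : ι → Fin 5 → K[X]}

/-- No other point in the plane of `2 A + B`. -/
theorem no_third (h4 : ∀ p : K[X], p.natDegree ≤ 4 → p.Splits)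
    (hM : ∀ i, (M i).IsSymm) (hsm : Sm M) (hfin : ¬ Inf M) {A B τ : Fin 5 → K}
    (hA : bv M A A = 0) (hB : bv M B B = 0) (hB0 : B ≠ 0)
    (hAB : ∀ κ : K, A ≠ κ • B) (ht : bv M A τ = 0) (htA : ∀ κ : K, τ ≠ κ • A)
    {u v s : L} (hz : bv M (u • (am A : Fin 5 → L) + v • am B + s • am τ)
      (u • (am A : Fin 5 → L) + v • am B + s • am τ) = 0) : s = 0 := by
  have hd : d3 (bv M A B) (bv M B τ) (bv M τ τ) ≠ 0 := by
    intro h0
    obtain ⟨c, hc, k1, k2, k3⟩ := dep_det h0
    exact hfin (planeAB h4 hM hsm hA hB hB0 hAB (sh2a hM hfin hA hB hB0 hAB ht htA) hc k1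
      (by rw [ht]; unfold dt; simp) k2 k3)
  have h0 : (am (0 : Fin 3 → K) : Fin 3 → L) = 0 := by funext i; simp [am]
  simp only [bv_add_left, bv_add_right, bv_smul_left, bv_smul_right, bv_am] at hz
  rw [bv_comm hM B A, bv_comm hM τ A, bv_comm hM τ B, hA, hB, ht, h0] at hz
  have h1 : (2 * (u * v)) • (am (bv M A B) : Fin 3 → L) + (2 * (v * s)) • am (bv M B τ) +
      (s * s) • am (bv M τ τ) = 0 := by
    rw [← hz]; module
  exact mul_self_eq_zero.mp (rel_ext hd h1)

/-- If there are two points only, a hyperplane section is supported in these points. -/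
theorem Pkg.only_two [DecidableEq K] (P : Pkg M r t x) {i j : ι} (hij : i ≠ j)
    (hall : ∀ Z, Z = i ∨ Z = j) :
    ∃ h : Fin 5 → K, h ≠ 0 ∧ ∀ z : Fin 5 → L, z ≠ 0 → bv M z z = 0 → dp h z = 0 →
      ∃ Z, ∃ c : L, z = c • am (r Z) := by
  have hinf : Infinite K := CharZero.infinite K
  obtain ⟨e, l0, l1, Λ, C⟩ := exists_co (P.nz j) (P.ind i j hij)
  have hF : (SX M (r i) (r j) e).IsHomogeneous 6 := FF_hom _ _ _ _
  have hZ := P.fz hij C
  have hfin := fz_finite hZ
  obtain ⟨w, hw1, hw2, hw3⟩ := secant P.h4 hF hfin hZ hij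
  have hw : cr (vv Λ r t i j i) w ≠ 0 := by rw [hw1]; exact hZ.ind i j hij
  have vi : vv Λ r t i j i = LL Λ (t i) := by unfold vv; rw [if_pos rfl]
  have vj : vv Λ r t i j j = LL Λ (t j) := by unfold vv; rw [if_neg hij.symm, if_pos rfl]
  set n := cr (vv Λ r t i j i) w with hn
  refine ⟨fun a => n 0 * Λ 0 a + n 1 * Λ 1 a + n 2 * Λ 2 a, ?_, ?_⟩
  · intro h0
    obtain ⟨y, hy⟩ := dt_ne hw
    apply hy
    have h1 := C.Le y
    have h2 := dt_LL' (L := K) n Λ (YY e y)
    rw [h1, h0, am_self] at h2
    rw [h2]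
    unfold dp
    simp
  · intro z hz0 hzz hh
    rw [← dt_LL'] at hh
    have hdec := C.dec z
    by_cases hy : LL Λ z = 0
    · have h3 : YY e (0 : Fin 3 → L) = 0 := by unfold YY; simp
      rw [hy, h3, add_zero] at hdec
      have h5 := hzz
      rw [hdec] at h5
      have h0 : (am (0 : Fin 3 → K) : Fin 3 → L) = 0 := by funext i; simp [am]
      simp only [bv_add_left, bv_add_right, bv_smul_left, bv_smul_right, bv_am] at h5
      rw [bv_comm P.hM (r j) (r i), P.zero i, P.zero j, h0] at h5
      have h6 : (2 * (dp l0 z * dp l1 z)) • (am (bv M (r i) (r j)) : Fin 3 → L) = 0 := by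
        rw [← h5]; module
      have h7 : (am (bv M (r i) (r j)) : Fin 3 → L) ≠ 0 := fun h8 =>
        cross_ne P.hM P.hfin (P.zero i) (P.zero j) (P.nz j) (P.ind i j hij) (am_inj h8)
      have h8 := (smul_eq_zero.mp h6).resolve_right h7
      have hL2 : (2 : L) ≠ 0 := by
        have : (2 : L) = algebraMap K L 2 := by rw [map_ofNat]
        rw [this]
        exact fun h => two_ne_zero ((map_eq_zero (algebraMap K L)).mp h)
      have h9 := (mul_eq_zero.mp h8).resolve_left hL2
      rcases mul_eq_zero.mp h9 with h10 | h10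
      · exact ⟨j, dp l1 z, by rw [h10, zero_smul, zero_add] at hdec; exact hdec⟩
      · exact ⟨i, dp l0 z, by rw [h10, zero_smul, add_zero] at hdec; exact hdec⟩
    · exfalso
      have hFy : MvPolynomial.aeval (LL Λ z) (SX M (r i) (r j) e) = 0 := by
        have := SX_dvd P.hM (P.zero i) (P.zero j) C z (d := (0 : L)) (fun k => by rw [hzz]; simp)
        exact zero_dvd_iff.mp this
      obtain ⟨s, a, ha, hs1, hs2⟩ := line_ext hF hw hw2 hw3 hy hFy hh
      have hne : vv Λ r t i j i + s • w ≠ 0 := by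
        intro h0
        rw [h0] at hs2
        apply hy
        rw [hs2]
        funext k
        simp [am]
      obtain ⟨Z, κ, hκ, hX⟩ := hZ.compl _ hne hs1
      rw [hX, am_smul, smul_smul] at hs2
      have hκ' : a * algebraMap K L κ ≠ 0 :=
        mul_ne_zero ha (fun h => hκ ((map_eq_zero _).mp h))
      set κ' := a * algebraMap K L κ with hκdef
      -- the point over a tangent direction
      have key : ∀ τ : Fin 5 → K, LL Λ z = κ' • am (LL Λ τ) →
          z = (dp l0 z - κ' * algebraMap K L (dp l0 τ)) • am (r i) +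
            (dp l1 z - κ' * algebraMap K L (dp l1 τ)) • am (r j) + κ' • am τ := by
        intro τ hτ
        have h1 := C.dec τ
        rw [am_self, am_self] at h1
        have h2 : (am τ : Fin 5 → L) = algebraMap K L (dp l0 τ) • am (r i) +
            algebraMap K L (dp l1 τ) • am (r j) + YY e (am (LL Λ τ)) := by
          nth_rewrite 1 [h1]
          rw [am_add, am_add, am_smul, am_smul]
          congr 1
          unfold YY
          rw [am_add, am_add, am_smul, am_smul, am_smul, am_self, am_self, am_self]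
          rfl
        have h3 : YY e (κ' • (am (LL Λ τ) : Fin 3 → L)) = κ' • YY e (am (LL Λ τ)) := by
          unfold YY
          simp only [Pi.smul_apply, smul_eq_mul]
          module
        nth_rewrite 1 [hdec]
        rw [hτ, h3, h2]
        module
      rcases hall Z with rfl | rfl
      · rw [vi] at hs2
        have hz2 := key _ hs2
        rw [hz2] at hzz
        exact hκ' (no_third P.h4 P.hM P.hsm P.hfin (P.zero Z) (P.zero j) (P.nz j)
          (P.ind Z j hij) (P.tz Z) (P.tn Z) hzz)
      · rw [vj] at hs2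
        have hz2 := key _ hs2
        rw [hz2, add_comm (_ • am (r i)) (_ • am (r Z))] at hzz
        exact hκ' (no_third P.h4 P.hM P.hsm P.hfin (P.zero Z) (P.zero i) (P.nz i)
          (P.ind Z i hij.symm) (P.tz Z) (P.tn Z) hzz)

end Two

end Pool.Agent.H31.G5
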