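import Pool.Agent.H31.G5.One

/-! # Three quadrics in four-space over the maximal solvable extension -/

set_option autoImplicit false

namespace Pool.Agent.H31.G5

open Pool.Agent.H31.SX
open Matrix Polynomial
open scoped LinearAlgebra.Projectivization

variable {K : Type*} [Field K]

/-- The points of the intersection. -/
def QZ (M : Fin 3 → Matrix (Fin 5) (Fin 5) K) : Set (ℙ K (Fin 5 → K)) :=
  {P | ∀ i, P.rep ⬝ᵥ (M i).mulVec P.rep = 0}

theorem mem_QZ {M : Fin 3 → Matrix (Fin 5) (Fin 5) K} {P : ℙ K (Fin 5 → K)} :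
    P ∈ QZ M ↔ bv M P.rep P.rep = 0 := by
  unfold QZ
  rw [Set.mem_ofPred_eq]
  constructor
  · intro h
    funext i
    rw [bv_base]
    exact h i
  · intro h i
    rw [← bv_base]
    exact congrFun h i

theorem mk_mem {M : Fin 3 → Matrix (Fin 5) (Fin 5) K} {z : Fin 5 → K} (hz : z ≠ 0)
    (h : bv M z z = 0) : Projectivization.mk K z hz ∈ QZ M ∧
      ∃ κ : K, κ ≠ 0 ∧ z = κ • (Projectivization.mk K z hz).rep := by
  obtain ⟨a, ha⟩ := Projectivization.exists_smul_eq_mk_rep K z hz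
  have ha' : (Projectivization.mk K z hz).rep = (a : K) • z := ha.symm
  constructor
  · rw [mem_QZ, ha', bv_smul_left, bv_smul_right, h, smul_zero, smul_zero]
  · refine ⟨(a : K)⁻¹, inv_ne_zero a.ne_zero, ?_⟩
    rw [ha', smul_smul, inv_mul_cancel₀ a.ne_zero, one_smul]

/-- Three quadrics which are smooth at the rational points. -/
theorem g5 [CharZero K] (φ : K →+* ℂ) (h4 : ∀ p : K[X], p.natDegree ≤ 4 → p.Splits)
    {M : Fin 3 → Matrix (Fin 5) (Fin 5) K} (hM : ∀ i, (M i).IsSymm)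
    (hind : ∀ x : Fin 5 → K, x ≠ 0 → (∀ i, x ⬝ᵥ (M i) *ᵥ x = 0) →
      LinearIndependent K (fun i => (M i) *ᵥ x))
    (L : Type*) [Field L] [Algebra K L] :
    (QZ M).Infinite ∨ ((QZ M).ncard ≤ 2 ∧ ((QZ M).Nonempty → ∃ h : Fin 5 → K, h ≠ 0 ∧
      ∀ z : Fin 5 → L, z ≠ 0 → bv M z z = 0 → dp h z = 0 →
        ∃ P ∈ QZ M, ∃ c : L, z = c • am P.rep)) := by
  classical
  by_cases hinf : (QZ M).Infinite
  · exact Or.inl hinf
  right
  have hfin := Set.not_infinite.mp hinf
  have hsm := sm_of_ind hM hind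
  have hI : ¬ Inf M := by
    rintro ⟨x, h1, h2, h3⟩
    apply hinf
    have hK : Infinite K := CharZero.infinite K
    have hinj : Function.Injective (fun s : K => Projectivization.mk K (x s) (h1 s)) := by
      intro s s' hE
      by_contra hne
      obtain ⟨κ, hκ⟩ := (Projectivization.mk_eq_mk_iff' K _ _ (h1 s) (h1 s')).mp hE
      exact h3 s s' hne κ hκ.symm
    refine (Set.infinite_range_of_injective hinj).mono ?_
    rintro _ ⟨s, rfl⟩
    exact (mk_mem (h1 s) (h2 s)).1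
  set r : hfin.toFinset → Fin 5 → K := fun P => P.1.rep with hr
  have hz : ∀ P, bv M (r P) (r P) = 0 := fun P => mem_QZ.mp (hfin.mem_toFinset.mp P.2)
  have hnz : ∀ P, r P ≠ 0 := fun P => P.1.rep_nonzero
  choose t ht1 ht2 using fun P => exists_tangent hsm (hnz P) (hz P)
  choose x hx using fun P => exists_arc hM hsm (hnz P) (hz P) (ht1 P) 18
  have P : Pkg M r t x := by
    refine ⟨h4, hM, hsm, hI, hnz, hz, ?_, ?_, ht1, ht2, hx⟩
    · intro P Q hPQ κ hκ
      apply hPQ
      apply Subtype.ext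
      rw [← Projectivization.mk_rep P.1, ← Projectivization.mk_rep Q.1,
        Projectivization.mk_eq_mk_iff']
      exact ⟨κ, hκ.symm⟩
    · intro z hz0 hz1
      obtain ⟨h1, κ, h2, h3⟩ := mk_mem hz0 hz1
      exact ⟨⟨_, hfin.mem_toFinset.mpr h1⟩, κ, h2, h3⟩
  have hOS : OS (IsOct x) := by
    refine ⟨?_, ?_, ?_, ?_, ?_⟩
    · rintro m ⟨_, _, _, h⟩
      exact h
    · intro i j hij Y Y'
      exact P.oct_ex hij Y Y'
    · intro i j hij Y Y' m m' hm hm' h1 h2
      exact P.oct_un1 hij hm hm' h1 h2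
    · intro Y m m' hm hm' h1 h2
      exact P.oct_un2 hm hm' h1 h2
    · intro i j hij
      exact P.oct_line φ hij
  have hcard := hOS.le_two
  refine ⟨by rw [Fintype.card_coe] at hcard; rw [Set.ncard_eq_toFinset_card _ hfin]; exact hcard,
    ?_⟩
  rintro ⟨A, hA⟩
  set a : hfin.toFinset := ⟨A, hfin.mem_toFinset.mpr hA⟩ with ha
  by_cases hB : ∃ b, b ≠ a
  · obtain ⟨b, hb⟩ := hB
    have hall : ∀ Z, Z = a ∨ Z = b := by
      intro Z
      by_contra hno
      push Not at hno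
      have h3 : ({Z, a, b} : Finset hfin.toFinset).card = 3 := by
        rw [Finset.card_insert_of_notMem, Finset.card_pair hb.symm]
        rw [Finset.mem_insert, Finset.mem_singleton]
        rintro (h | h)
        · exact hno.1 h
        · exact hno.2 h
      have h5 := Finset.card_le_univ ({Z, a, b} : Finset hfin.toFinset)
      omega
    obtain ⟨h, hh0, hh⟩ := P.only_two (L := L) hb.symm hall
    refine ⟨h, hh0, ?_⟩
    intro z hz0 hzz hhz
    obtain ⟨Z, c, hc⟩ := hh z hz0 hzz hhz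
    exact ⟨Z.1, hfin.mem_toFinset.mp Z.2, c, hc⟩
  · push Not at hB
    obtain ⟨h, hh0, hh⟩ := only_one (L := L) h4 hM hsm hI (hnz a) (hz a) (ht1 a) (ht2 a) (by
      intro z hz0 hz1
      obtain ⟨Z, κ, _, hκ⟩ := P.compl z hz0 hz1
      exact ⟨κ, by rw [hκ, hB Z]⟩)
    refine ⟨h, hh0, ?_⟩
    intro z hz0 hzz hhz
    obtain ⟨c, hc⟩ := hh z hz0 hzz hhz
    exact ⟨A, hA, c, hc⟩

end Pool.Agent.H31.G5
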