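import Pool.Agent.H31.G5.PL

/-! # Multiplicities on a line -/

set_option autoImplicit false

namespace Pool.Agent.H31.G5

open Pool.Agent.H31.SX
open Polynomial

set_option linter.unusedSectionVars false

variable {K : Type*} [Field K] [DecidableEq K] {ι : Type*} [Fintype ι] [DecidableEq ι]

/-- The multiplicity of the point `X` on the line `n`. -/
noncomputable def cn (F : MvPolynomial (Fin 3) K) (v : ι → Fin 3 → K) (n w : Fin 3 → K) (X : ι) :
    ℕ := if dt n (v X) = 0 then (res F (v X) w).rootMultiplicity 0 else 0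

theorem le_mult {F : MvPolynomial (Fin 3) K} [Infinite K] (hF : F.IsHomogeneous 6)
    {w : Fin 3 → K} (hFw : MvPolynomial.eval w F ≠ 0) (u : Fin 3 → K) (k : ℕ) :
    k ≤ (res F u w).rootMultiplicity 0 ↔ X ^ k ∣ res F u w := by
  rw [le_rootMultiplicity_iff (res_ne hF u hFw), C_0, sub_zero]

theorem mult_scale [Infinite K] {F : MvPolynomial (Fin 3) K} (hF : F.IsHomogeneous 6)
    {w : Fin 3 → K} (hFw : MvPolynomial.eval w F ≠ 0) (u : Fin 3 → K) {c : K} (hc : c ≠ 0) :
    (res F (c • u) w).rootMultiplicity 0 = (res F u w).rootMultiplicity 0 := by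
  have key : ∀ k, X ^ k ∣ res F (c • u) w ↔ X ^ k ∣ res F u w := by
    intro k
    have h1 := order_cmp (α := C c) (β := X) (res_natDegree_le hF u w) (by simpa using hc)
      (by simp) (by simp) k
    rw [← aeval_two hF] at h1
    have h2 : MvPolynomial.aeval ((C c : K[X]) • cst u + (X : K[X]) • cst w) F =
        res F (c • u) w := by
      unfold res
      congr 1
      congr 1
      funext j
      simp [cst]
    rw [h2] at h1
    exact h1
  apply le_antisymm
  · rw [le_mult hF hFw, ← key, ← le_mult hF hFw]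
  · rw [le_mult hF hFw, key, ← le_mult hF hFw]

theorem mult_shift [Infinite K] {F : MvPolynomial (Fin 3) K} (u w : Fin 3 → K) (c : K) :
    (res F (u + c • w) w).rootMultiplicity 0 = (res F u w).rootMultiplicity c := by
  rw [rootMultiplicity_eq_rootMultiplicity (t := c)]
  congr 1
  refine eq_of_infinite_eval_eq _ _ (Set.infinite_univ.mono ?_)
  intro z _
  change eval z _ = eval z _
  rw [res_eval, eval_comp, res_eval]
  congr 1
  simp only [eval_add, eval_X, eval_C]
  congr 1
  module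

variable {F : MvPolynomial (Fin 3) K} {v : ι → Fin 3 → K}

theorem on_line {n u w : Fin 3 → K} (hn : n ≠ 0) (hw : cr u w ≠ 0) (hnu : dt n u = 0)
    (hnw : dt n w = 0) (z : Fin 3 → K) : dt n z = 0 ↔ dt (cr u w) z = 0 := by
  obtain ⟨s, hs⟩ := perp_par hw hnu hnw
  have hs0 : s ≠ 0 := by
    rintro rfl
    rw [zero_smul] at hs
    exact hn hs
  rw [hs, dt_smul_left, mul_eq_zero, or_iff_right hs0]

/-- The total multiplicity is six. -/
theorem cn_sum [Infinite K] (hF : F.IsHomogeneous 6) (hZ : FZ F v) {a : ι} {n w : Fin 3 → K}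
    (hn : n ≠ 0) (hw : cr (v a) w ≠ 0) (hFw : MvPolynomial.eval w F ≠ 0)
    (hsp : (res F (v a) w).Splits) (hna : dt n (v a) = 0) (hnw : dt n w = 0) :
    ∑ X, cn F v n w X = 6 := by
  obtain ⟨τ, hτ, hcard⟩ := bij (n := 5) hF hZ hw hFw
  have hpts : ∀ X, dt n (v X) = 0 ↔ X ∈ pts v (cr (v a) w) := by
    intro X
    rw [mem_pts, on_line hn hw hna hnw]
  have hinj : Set.InjOn τ (res F (v a) w).roots.toFinset := by
    intro r hr r' hr' heq
    rw [Finset.mem_coe, Multiset.mem_toFinset] at hr hr'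
    obtain ⟨_, c, hc, hcx⟩ := hτ r hr
    obtain ⟨_, c', hc', hcx'⟩ := hτ r' hr'
    by_contra hne
    have h1 : cr (v a + r • w) (v a + r' • w) = (r' - r) • cr (v a) w := by
      refine ext3 ?_ ?_ ?_ <;> simp <;> ring
    have h2 : cr (c • v (τ r)) (c' • v (τ r')) = 0 := by
      rw [heq]
      refine ext3 ?_ ?_ ?_ <;> simp <;> ring
    rw [← hcx, ← hcx', h1, smul_eq_zero] at h2
    rcases h2 with h2 | h2
    · exact hne (sub_eq_zero.mp h2).symm
    · exact hw h2
  have himg : (res F (v a) w).roots.toFinset.image τ = pts v (cr (v a) w) := by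
    apply Finset.eq_of_subset_of_card_le
    · intro X hX
      obtain ⟨r, hr, rfl⟩ := Finset.mem_image.mp hX
      exact (hτ r (Multiset.mem_toFinset.mp hr)).1
    · rw [Finset.card_image_of_injOn hinj, hcard]
  have h1 : ∑ X, cn F v n w X = ∑ X ∈ pts v (cr (v a) w), (res F (v X) w).rootMultiplicity 0 := by
    rw [← Finset.sum_subset (Finset.subset_univ (pts v (cr (v a) w)))]
    · refine Finset.sum_congr rfl fun X hX => ?_
      unfold cn
      rw [if_pos ((hpts X).mpr hX)]
    · intro X _ hX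
      unfold cn
      rw [if_neg (fun h => hX ((hpts X).mp h))]
  rw [h1, ← himg, Finset.sum_image hinj, ← sum_counts hF hFw hsp]
  refine Finset.sum_congr rfl fun r hr => ?_
  obtain ⟨_, c, hc, hcx⟩ := hτ r (Multiset.mem_toFinset.mp hr)
  have h2 : v (τ r) = c⁻¹ • (v a + r • w) := by
    rw [hcx, smul_smul, inv_mul_cancel₀ hc, one_smul]
  rw [h2, mult_scale hF hFw _ (inv_ne_zero hc), mult_shift, count_roots]

theorem cn_pos [Infinite K] (hF : F.IsHomogeneous 6) (hZ : FZ F v) {n w : Fin 3 → K}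
    (hFw : MvPolynomial.eval w F ≠ 0) (X : ι) : 1 ≤ cn F v n w X ↔ dt n (v X) = 0 := by
  unfold cn
  by_cases h : dt n (v X) = 0
  · rw [if_pos h]
    refine ⟨fun _ => h, fun _ => ?_⟩
    rw [le_mult hF hFw, pow_one, X_dvd_iff, coeff_zero_eq_eval_zero, res_eval, zero_smul, add_zero,
      hZ.zero X]
  · rw [if_neg h]
    refine ⟨fun h1 => absurd h1 (by norm_num), fun h1 => absurd h1 h⟩

theorem cn_two [Infinite K] (hF : F.IsHomogeneous 6) {n w : Fin 3 → K}
    (hFw : MvPolynomial.eval w F ≠ 0) {X : ι} (h : 2 ≤ cn F v n w X) :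
    dt n (v X) = 0 ∧ dt (gr F (v X)) w = 0 := by
  unfold cn at h
  by_cases h0 : dt n (v X) = 0
  · rw [if_pos h0, le_mult hF hFw] at h
    refine ⟨h0, ?_⟩
    have h1 := X_pow_dvd_iff.mp h 1 (by norm_num)
    have h2 := res_derivative_eval F (v X) w 0
    rw [zero_smul, add_zero, ← coeff_zero_eq_eval_zero, coeff_derivative] at h2
    rw [← h2]
    simp [h1]
  · rw [if_neg h0] at h
    omega

theorem cn_le [Infinite K] (hF : F.IsHomogeneous 6) {n w : Fin 3 → K}
    (hFw : MvPolynomial.eval w F ≠ 0) {X : ι} (h0 : dt n (v X) = 0) (k : ℕ) :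
    k ≤ cn F v n w X ↔ Polynomial.X ^ k ∣ res F (v X) w := by
  unfold cn
  rw [if_pos h0, le_mult hF hFw]

end Pool.Agent.H31.G5
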