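import Pool.Agent.H31.G5.Ord
import Pool.Agent.H31.G5.Comb

/-! # Octets -/

set_option autoImplicit false

namespace Pool.Agent.H31.G5

open Pool.Agent.H31.SX
open Matrix Polynomial

set_option linter.unusedSectionVars false

variable {K : Type*} [Field K] [CharZero K] {ι : Type*} [Fintype ι]
  [DecidableEq ι] {M : Fin 3 → Matrix (Fin 5) (Fin 5) K}

/-- The hyperplane sections supported in the points. -/
def IsOct (x : ι → Fin 5 → K[X]) (m : ι → ℕ) : Prop :=
  ∃ h : Fin 5 → K, h ≠ 0 ∧ (∀ Z, eo (dp h (x Z)) (m Z)) ∧ ∑ Z, m Z = 8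

theorem dlt_eq {i j : ι} (hij : i ≠ j) (Z : ι) : dlt i j Z = sg i Z + sg j Z := by
  unfold dlt sg
  by_cases h1 : Z = i
  · rw [if_pos h1, if_pos h1, if_neg (fun h2 => hij (h1.symm.trans h2))]
  · rw [if_neg h1, if_neg h1, zero_add]

variable {r t : ι → Fin 5 → K} {x : ι → Fin 5 → K[X]}

section Line

variable [DecidableEq K]

theorem Pkg.oct_of_line (P : Pkg M r t x) {i j : ι} (hij : i ≠ j)
    {e : Fin 3 → Fin 5 → K}
    {l0 l1 : Fin 5 → K} {Λ : Fin 3 → Fin 5 → K} (C : Co (r i) (r j) e l0 l1 Λ)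
    {n w : Fin 3 → K} (hn : n ≠ 0) (hnw : dt n w = 0)
    (hFw : MvPolynomial.eval w (SX M (r i) (r j) e) ≠ 0) {a : ι}
    (hna : dt n (vv Λ r t i j a) = 0) (hw : cr (vv Λ r t i j a) w ≠ 0)
    (hsp : (res (SX M (r i) (r j) e) (vv Λ r t i j a) w).Splits) :
    IsOct x (fun Z => dlt i j Z + cn (SX M (r i) (r j) e) (vv Λ r t i j) n w Z) := by
  have hinf : Infinite K := CharZero.infinite K
  have hF : (SX M (r i) (r j) e).IsHomogeneous 6 := FF_hom _ _ _ _
  have hZ := P.fz hij C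
  have hsum := cn_sum hF hZ hn hw hFw hsp hna hnw
  have hle : ∀ Z, cn (SX M (r i) (r j) e) (vv Λ r t i j) n w Z ≤ 6 := by
    intro Z
    rw [← hsum]
    exact Finset.single_le_sum (f := fun Z => cn (SX M (r i) (r j) e) (vv Λ r t i j) n w Z)
      (fun _ _ => Nat.zero_le _) (Finset.mem_univ Z)
  refine ⟨fun a => n 0 * Λ 0 a + n 1 * Λ 1 a + n 2 * Λ 2 a, ?_, ?_, ?_⟩
  · intro h0
    apply hn
    by_contra hne
    obtain ⟨y, hy⟩ := dt_ne hne
    apply hy
    have h1 := C.Le y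
    have h2 : dt n (LL Λ (YY e y)) =
        dp (fun a => n 0 * Λ 0 a + n 1 * Λ 1 a + n 2 * Λ 2 a) (YY e y) := by
      unfold dt LL dp
      rw [Finset.mul_sum, Finset.mul_sum, Finset.mul_sum, ← Finset.sum_add_distrib,
        ← Finset.sum_add_distrib]
      refine Finset.sum_congr rfl fun a _ => ?_
      simp only [Algebra.algebraMap_self, RingHom.id_apply]
      ring
    rw [h1, h0] at h2
    rw [h2]
    unfold dp
    simp
  · intro Z
    rw [← dt_LL]
    exact P.orders hij C hn hnw hFw hle Z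
  · rw [Finset.sum_add_distrib, hsum]
    simp only [dlt_eq hij]
    rw [Finset.sum_add_distrib, sum_sg, sum_sg]

/-- Every divisor of degree four is contained in an octet. -/
theorem Pkg.oct_ex (P : Pkg M r t x) {i j : ι} (hij : i ≠ j) (Y Y' : ι) :
    ∃ m, IsOct x m ∧ ∀ Z, sg i Z + sg j Z + sg Y Z + sg Y' Z ≤ m Z := by
  have hinf : Infinite K := CharZero.infinite K
  obtain ⟨e, l0, l1, Λ, C⟩ := exists_co (P.nz j) (P.ind i j hij)
  have hF : (SX M (r i) (r j) e).IsHomogeneous 6 := FF_hom _ _ _ _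
  have hZ := P.fz hij C
  have hfin := fz_finite hZ
  have hsm := smooth P.h4 hF hfin hZ (Fintype.one_lt_card_iff.mpr ⟨i, j, hij⟩)
  set F := SX M (r i) (r j) e with hFdef
  set v := vv Λ r t i j with hv
  by_cases hYY : Y = Y'
  · subst hYY
    obtain ⟨w, hw, hdw, hFw, hsp, hcount⟩ := tangent P.h4 hF hfin hZ (hsm Y)
    have hna : dt (gr F (v Y)) (v Y) = 0 := by rw [euler hF, hZ.zero Y, mul_zero]
    refine ⟨_, P.oct_of_line hij C (hsm Y) hdw hFw hna hw hsp, fun Z => ?_⟩
    rw [dlt_eq hij]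
    have h1 : sg Y Z + sg Y Z ≤ cn F v (gr F (v Y)) w Z := by
      unfold sg
      split_ifs with h2
      · subst h2
        rw [cn_le hF hFw hna, ← le_mult hF hFw, ← count_roots]
        exact hcount
      · exact Nat.zero_le _
    change _ ≤ sg i Z + sg j Z + cn F v (gr F (v Y)) w Z
    omega
  · obtain ⟨w, hw1, hw2, hw3⟩ := secant P.h4 hF hfin hZ hYY
    have hw : cr (v Y) w ≠ 0 := by rw [hw1]; exact hZ.ind Y Y' hYY
    have hn : cr (v Y) (v Y') ≠ 0 := hZ.ind Y Y' hYY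
    have hnw : dt (cr (v Y) (v Y')) w = 0 := by
      rw [← hw1]; exact d3_right _ _
    have hnY : dt (cr (v Y) (v Y')) (v Y) = 0 := d3_left _ _
    have hnY' : dt (cr (v Y) (v Y')) (v Y') = 0 := d3_right _ _
    refine ⟨_, P.oct_of_line hij C hn hnw hw2 hnY hw hw3, fun Z => ?_⟩
    rw [dlt_eq hij]
    have h1 : sg Y Z + sg Y' Z ≤ cn F v (cr (v Y) (v Y')) w Z := by
      unfold sg
      by_cases h2 : Z = Y
      · subst h2
        rw [if_pos rfl, if_neg hYY]
        exact (cn_pos hF hZ hw2 Z).mpr hnY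
      · rw [if_neg h2]
        by_cases h3 : Z = Y'
        · subst h3
          rw [if_pos rfl]
          exact (cn_pos hF hZ hw2 Z).mpr hnY'
        · rw [if_neg h3]
          exact Nat.zero_le _
    change _ ≤ sg i Z + sg j Z + cn F v (cr (v Y) (v Y')) w Z
    omega

/-- All but one of the points. -/
theorem Pkg.oct_line (φ : K →+* ℂ) (P : Pkg M r t x) {i j : ι} (hij : i ≠ j) :
    ∃ m, IsOct x m ∧ (∀ Z, sg i Z + sg j Z ≤ m Z) ∧
      ∀ Z Z', m Z = sg i Z + sg j Z → m Z' = sg i Z' + sg j Z' → Z = Z' := by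
  have hinf : Infinite K := CharZero.infinite K
  obtain ⟨e, l0, l1, Λ, C⟩ := exists_co (P.nz j) (P.ind i j hij)
  have hF : (SX M (r i) (r j) e).IsHomogeneous 6 := FF_hom _ _ _ _
  have hZ := P.fz hij C
  have hfin := fz_finite hZ
  have hN : 1 < Fintype.card ι := Fintype.one_lt_card_iff.mpr ⟨i, j, hij⟩
  have hsm := smooth P.h4 hF hfin hZ hN
  obtain ⟨h6, hshort⟩ := short_le P.h4 hF hfin hZ hsm
  obtain ⟨l, hl, hc⟩ := comb3 (lns_isLS hZ.ind) h6 hshort (langerK φ hZ.ind) hN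
  obtain ⟨Y, Y', hYY, rfl⟩ := mem_lns.mp hl
  set F := SX M (r i) (r j) e with hFdef
  set v := vv Λ r t i j with hv
  obtain ⟨w, hw1, hw2, hw3⟩ := secant P.h4 hF hfin hZ hYY
  have hw : cr (v Y) w ≠ 0 := by rw [hw1]; exact hZ.ind Y Y' hYY
  have hn : cr (v Y) (v Y') ≠ 0 := hZ.ind Y Y' hYY
  have hnw : dt (cr (v Y) (v Y')) w = 0 := by
    rw [← hw1]; exact d3_right _ _
  have hnY : dt (cr (v Y) (v Y')) (v Y) = 0 := d3_left _ _
  refine ⟨_, P.oct_of_line hij C hn hnw hw2 hnY hw hw3, fun Z => ?_, ?_⟩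
  · rw [dlt_eq hij]
    exact Nat.le_add_right _ _
  · intro Z Z' h1 h2
    rw [dlt_eq hij] at h1 h2
    have key : ∀ Z, cn F v (cr (v Y) (v Y')) w Z = 0 → Z ∉ ln v Y Y' := by
      intro Z h0 hmem
      rw [mem_ln] at hmem
      have := (cn_pos hF hZ hw2 (n := cr (v Y) (v Y')) Z).mpr hmem
      omega
    have k1 : Z ∉ ln v Y Y' := key Z (by
      change sg i Z + sg j Z + cn F v (cr (v Y) (v Y')) w Z = _ at h1
      omega)
    have k2 : Z' ∉ ln v Y Y' := key Z' (by
      change sg i Z' + sg j Z' + cn F v (cr (v Y) (v Y')) w Z' = _ at h2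
      omega)
    by_contra hne
    have hsub : ({Z, Z'} : Finset ι) ⊆ (ln v Y Y')ᶜ := by
      intro k hk
      rw [Finset.mem_insert, Finset.mem_singleton] at hk
      rw [Finset.mem_compl]
      rcases hk with rfl | rfl
      · exact k1
      · exact k2
    have h8 := Finset.card_le_card hsub
    rw [Finset.card_pair hne, Finset.card_compl] at h8
    omega

end Line

theorem coeff_dp (h : Fin 5 → K) (z : Fin 5 → K[X]) (k : ℕ) :
    (dp h z).coeff k = dp h (cf k z) := by
  simp only [cf, dp, finsetSum_coeff, algebraMap_eq, coeff_C_mul, Algebra.algebraMap_self,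
    RingHom.id_apply]

theorem eo.kill {h : Fin 5 → K} {z : Fin 5 → K[X]} {m : ℕ} (he : eo (dp h z) m) {k : ℕ}
    (hk : k < m) : dp h (cf k z) = 0 := by
  rw [← coeff_dp]
  exact X_pow_dvd_iff.mp he.1 k hk

/-- Proportional hyperplanes have the same orders. -/
theorem oct_eq {h h' : Fin 5 → K} {s : K} (hs : s ≠ 0) (hh : h = s • h') {m m' : ι → ℕ}
    (hm : ∀ Z, eo (dp h (x Z)) (m Z)) (hm' : ∀ Z, eo (dp h' (x Z)) (m' Z)) : m = m' := by
  funext Z
  refine (hm Z).unique ?_
  have h1 : dp h (x Z) = C s * dp h' (x Z) := by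
    rw [hh]
    unfold dp
    rw [Finset.mul_sum]
    refine Finset.sum_congr rfl fun a _ => ?_
    simp only [algebraMap_eq, Pi.smul_apply, smul_eq_mul, C_mul]
    ring
  rw [h1]
  have h2 : ∀ k, X ^ k ∣ C s * dp h' (x Z) ↔ X ^ k ∣ dp h' (x Z) := by
    intro k
    constructor
    · intro h3
      rw [mul_comm] at h3
      exact X_pow_dvd_mul_right (by rwa [coeff_C_zero]) h3
    · intro h3
      exact Dvd.dvd.mul_left h3 _
  refine ⟨(h2 _).mpr (hm' Z).1, fun h3 => (hm' Z).2 ((h2 _).mp h3)⟩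

theorem dp_ext {h h' : Fin 5 → K} (hh : ∀ z : Fin 5 → K, dp h z = dp h' z) : h = h' := by
  funext a
  have h1 := hh (Pi.single a 1)
  unfold dp at h1
  simpa [Pi.single_apply] using h1

/-- The covector in the plane. -/
theorem co_cov {A B : Fin 5 → K} {e : Fin 3 → Fin 5 → K}
    {l0 l1 : Fin 5 → K} {Λ : Fin 3 → Fin 5 → K} (C : Co A B e l0 l1 Λ) {h : Fin 5 → K}
    (hA : dp h A = 0) (hB : dp h B = 0) (z : Fin 5 → K) :
    dp h z = dt (fun k => dp h (e k)) (LL Λ z) := by
  have h1 := C.dec z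
  rw [am_self, am_self] at h1
  nth_rewrite 1 [h1]
  unfold YY
  simp only [dp_add, dp_smul, am_self, hA, hB]
  unfold dt
  ring

/-- Two octets with a common divisor of degree four of two points. -/
theorem Pkg.oct_un1 (P : Pkg M r t x) {i j : ι} (hij : i ≠ j) {Y Y' : ι} {m m' : ι → ℕ}
    (hm : IsOct x m) (hm' : IsOct x m') (h1 : ∀ Z, sg i Z + sg j Z + sg Y Z + sg Y' Z ≤ m Z)
    (h2 : ∀ Z, sg i Z + sg j Z + sg Y Z + sg Y' Z ≤ m' Z) : m = m' := by
  classical
  obtain ⟨e, l0, l1, Λ, C⟩ := exists_co (P.nz j) (P.ind i j hij)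
  obtain ⟨h, hh0, hord, _⟩ := hm
  obtain ⟨h', hh0', hord', _⟩ := hm'
  have hvind := P.vind hij C
  -- the facts for one hyperplane
  have fact : ∀ (h : Fin 5 → K) (m : ι → ℕ), (∀ Z, eo (dp h (x Z)) (m Z)) →
      (∀ Z, sg i Z + sg j Z + sg Y Z + sg Y' Z ≤ m Z) →
      dp h (r i) = 0 ∧ dp h (r j) = 0 ∧
      (∀ Z, Z = Y ∨ Z = Y' → dt (fun k => dp h (e k)) (vv Λ r t i j Z) = 0) ∧
      (Y = Y' → ∀ y : Fin 3 → K[X], LL Λ (x Y) = (X ^ dlt i j Y : K[X]) • y →
        dt (fun k => dp h (e k)) (cf 1 y) = 0) := by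
    intro h m hord h1
    have hmi : 1 ≤ m i := by
      have := h1 i
      unfold sg at this
      rw [if_pos rfl] at this
      omega
    have hmj : 1 ≤ m j := by
      have := h1 j
      unfold sg at this
      rw [if_pos (rfl : j = j)] at this
      omega
    have hi : dp h (r i) = 0 := by
      have := (hord i).kill hmi
      rwa [(P.arc i).c0] at this
    have hj : dp h (r j) = 0 := by
      have := (hord j).kill hmj
      rwa [(P.arc j).c0] at this
    refine ⟨hi, hj, ?_, ?_⟩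
    · intro Z hZ
      have hZ1 : 1 ≤ sg Y Z + sg Y' Z := by
        unfold sg
        rcases hZ with rfl | rfl <;> simp
      have hZm := h1 Z
      unfold vv
      split_ifs with h3 h4
      · rw [← co_cov C hi hj]
        subst h3
        have h5 : sg Z Z = 1 := by unfold sg; rw [if_pos rfl]
        have := (hord Z).kill (k := 1) (by omega)
        rwa [(P.arc Z).c1] at this
      · rw [← co_cov C hi hj]
        subst h4
        have h5 : sg Z Z = 1 := by unfold sg; rw [if_pos rfl]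
        have := (hord Z).kill (k := 1) (by omega)
        rwa [(P.arc Z).c1] at this
      · rw [← co_cov C hi hj]
        have := (hord Z).kill (k := 0) (by omega)
        rwa [(P.arc Z).c0] at this
    · intro hYY y hy
      subst hYY
      have hZm := h1 Y
      have h5 : sg Y Y = 1 := by unfold sg; rw [if_pos rfl]
      have h6 := dlt_eq hij Y
      have h7 := (hord Y).kill (k := dlt i j Y + 1) (by omega)
      rw [co_cov C hi hj, ← cf_LL, hy] at h7
      have h8 : cf (dlt i j Y + 1) ((X ^ dlt i j Y : K[X]) • y) = cf 1 y := by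
        funext k
        simp only [cf, Pi.smul_apply, smul_eq_mul]
        rw [add_comm, coeff_X_pow_mul]
      rw [h8] at h7
      exact h7
  obtain ⟨a1, a2, a3, a4⟩ := fact h m hord h1
  obtain ⟨b1, b2, b3, b4⟩ := fact h' m' hord' h2
  set n : Fin 3 → K := fun k => dp h (e k) with hn
  set n' : Fin 3 → K := fun k => dp h' (e k) with hn'
  have hne : ∀ (h : Fin 5 → K), h ≠ 0 → dp h (r i) = 0 → dp h (r j) = 0 →
      (fun k => dp h (e k)) ≠ 0 := by
    intro h hh0 c1 c2 h0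
    apply hh0
    apply dp_ext
    intro z
    rw [co_cov C c1 c2, h0]
    unfold dt dp
    simp
  have hn0 := hne h hh0 a1 a2
  have hn0' := hne h' hh0' b1 b2
  -- a common pair of vectors
  have hpair : ∃ a b : Fin 3 → K, cr a b ≠ 0 ∧ dt n a = 0 ∧ dt n b = 0 ∧ dt n' a = 0 ∧
      dt n' b = 0 := by
    by_cases hYY : Y = Y'
    · obtain ⟨y, hy, hy0, hy1, _⟩ := P.exists_y hij C Y
      exact ⟨_, _, hy1, a3 Y (Or.inl rfl), a4 hYY y hy, b3 Y (Or.inl rfl), b4 hYY y hy⟩
    · exact ⟨_, _, hvind Y Y' hYY, a3 Y (Or.inl rfl), a3 Y' (Or.inr rfl), b3 Y (Or.inl rfl),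
        b3 Y' (Or.inr rfl)⟩
  obtain ⟨a, b, hab, c1, c2, c3, c4⟩ := hpair
  obtain ⟨s, hs⟩ := perp_par hab c1 c2
  obtain ⟨s', hs'⟩ := perp_par hab c3 c4
  have hs0 : s ≠ 0 := by
    rintro rfl
    rw [zero_smul] at hs
    exact hn0 hs
  have hs0' : s' ≠ 0 := by
    rintro rfl
    rw [zero_smul] at hs'
    exact hn0' hs'
  refine oct_eq (s := s / s') (div_ne_zero hs0 hs0') ?_ hord hord'
  apply dp_ext
  intro z
  have h5 : dp ((s / s') • h') z = (s / s') * dp h' z := by
    unfold dp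
    rw [Finset.mul_sum]
    refine Finset.sum_congr rfl fun a _ => ?_
    simp only [Algebra.algebraMap_self, RingHom.id_apply, Pi.smul_apply, smul_eq_mul]
    ring
  rw [h5, co_cov C a1 a2, co_cov C b1 b2]
  change dt n _ = _ * dt n' _
  rw [hs, hs', dt_smul_left, dt_smul_left]
  field_simp

/-- Two octets with multiplicity four at a point. -/
theorem Pkg.oct_un2 (P : Pkg M r t x) {Y : ι} {m m' : ι → ℕ}
    (hm : IsOct x m) (hm' : IsOct x m') (h1 : 4 ≤ m Y) (h2 : 4 ≤ m' Y) : m = m' := by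
  classical
  obtain ⟨h, hh0, hord, _⟩ := hm
  obtain ⟨h', hh0', hord', _⟩ := hm'
  have hjets := (P.arc Y).jets P.hM (by norm_num) (P.zero Y) (P.tz Y)
  set z2 := cf 2 (x Y) with hz2
  set z3 := cf 3 (x Y) with hz3
  have n2 := sh3a P.hM P.hfin (P.nz Y) (P.zero Y) (P.tz Y) (P.tn Y) hjets.1
  have n3 := sh3b P.h4 P.hM P.hsm P.hfin (P.nz Y) (P.zero Y) (P.tz Y) (P.tn Y) hjets.1 hjets.2
  have hk : ∀ (h : Fin 5 → K) (m : ι → ℕ), (∀ Z, eo (dp h (x Z)) (m Z)) → 4 ≤ m Y →
      dp h (r Y) = 0 ∧ dp h (t Y) = 0 ∧ dp h z2 = 0 ∧ dp h z3 = 0 := by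
    intro h m hord h1
    refine ⟨?_, ?_, (hord Y).kill (by omega), (hord Y).kill (by omega)⟩
    · have := (hord Y).kill (k := 0) (by omega)
      rwa [(P.arc Y).c0] at this
    · have := (hord Y).kill (k := 1) (by omega)
      rwa [(P.arc Y).c1] at this
  obtain ⟨a0, a1, a2, a3⟩ := hk h m hord h1
  obtain ⟨b0, b1, b2, b3⟩ := hk h' m' hord' h2
  set f : (Fin 5 → K) →ₗ[K] K := ⟨⟨dp h, dp_add h⟩, dp_smul h⟩ with hf
  set f' : (Fin 5 → K) →ₗ[K] K := ⟨⟨dp h', dp_add h'⟩, dp_smul h'⟩ with hf'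
  have hli : LinearIndependent K ![r Y, t Y, z2, z3] := by
    rw [Fintype.linearIndependent_iff]
    intro g hg
    simp only [Fin.sum_univ_four] at hg
    change g 0 • r Y + g 1 • t Y + g 2 • z2 + g 3 • z3 = 0 at hg
    have hAt : ∀ κ : K, r Y ≠ κ • t Y := by
      intro κ hκ
      by_cases hκ0 : κ = 0
      · rw [hκ0, zero_smul] at hκ
        exact P.nz Y hκ
      · exact P.tn Y κ⁻¹ (by rw [hκ, smul_smul, inv_mul_cancel₀ hκ0, one_smul])
    have ht0 : t Y ≠ 0 := fun h0 => P.tn Y 0 (by rw [h0, zero_smul])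
    have e3 : g 3 = 0 := by
      by_contra h3
      apply n3 (-(g 3)⁻¹ * g 0) (-(g 3)⁻¹ * g 1) (-(g 3)⁻¹ * g 2)
      have h5 : g 3 • z3 = -(g 0 • r Y + g 1 • t Y + g 2 • z2) :=
        eq_neg_of_add_eq_zero_right hg
      calc z3 = (g 3)⁻¹ • (g 3 • z3) := by rw [smul_smul, inv_mul_cancel₀ h3, one_smul]
        _ = _ := by rw [h5]; module
    rw [e3, zero_smul, add_zero] at hg
    obtain ⟨e0, e1, e2⟩ := ind3_of ht0 hAt n2 _ _ _ hg
    intro i
    fin_cases i
    · exact e0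
    · exact e1
    · exact e2
    · exact e3
  have hker : 4 ≤ Module.finrank K (LinearMap.ker (f.prod f')) := by
    have h5 : Submodule.span K (Set.range ![r Y, t Y, z2, z3]) ≤ LinearMap.ker (f.prod f') := by
      rw [Submodule.span_le]
      rintro _ ⟨k, rfl⟩
      rw [SetLike.mem_coe, LinearMap.mem_ker]
      fin_cases k
      · exact Prod.ext a0 b0
      · exact Prod.ext a1 b1
      · exact Prod.ext a2 b2
      · exact Prod.ext a3 b3
    have h6 := Submodule.finrank_mono h5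
    rw [finrank_span_eq_card hli, Fintype.card_fin] at h6
    exact h6
  have hrange : Module.finrank K (LinearMap.range (f.prod f')) ≤ 1 := by
    have h5 := LinearMap.finrank_range_add_finrank_ker (f.prod f')
    rw [Module.finrank_fin_fun] at h5
    omega
  rw [finrank_le_one_iff] at hrange
  obtain ⟨⟨⟨p, q⟩, hpq⟩, hall⟩ := hrange
  have hrel : ∀ z, q * dp h z = p * dp h' z := by
    intro z
    obtain ⟨c, hc⟩ := hall ⟨(f.prod f') z, LinearMap.mem_range_self _ z⟩
    have h5 := congrArg Subtype.val hc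
    have h6 : c * p = dp h z := congrArg Prod.fst h5
    have h7 : c * q = dp h' z := congrArg Prod.snd h5
    rw [← h6, ← h7]
    ring
  have hnz : ∀ h : Fin 5 → K, h ≠ 0 → ∃ z : Fin 5 → K, dp h z ≠ 0 := by
    intro h h0
    by_contra hno
    push Not at hno
    apply h0
    apply dp_ext
    intro z
    rw [hno z]
    unfold dp
    simp
  have hp : p ≠ 0 := by
    rintro rfl
    obtain ⟨z, hz⟩ := hnz h hh0
    obtain ⟨c, hc⟩ := hall ⟨(f.prod f') z, LinearMap.mem_range_self _ z⟩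
    have h5 := congrArg Subtype.val hc
    have h6 : c * 0 = dp h z := congrArg Prod.fst h5
    rw [mul_zero] at h6
    exact hz h6.symm
  have hq : q ≠ 0 := by
    rintro rfl
    obtain ⟨z, hz⟩ := hnz h' hh0'
    obtain ⟨c, hc⟩ := hall ⟨(f.prod f') z, LinearMap.mem_range_self _ z⟩
    have h5 := congrArg Subtype.val hc
    have h6 : c * 0 = dp h' z := congrArg Prod.snd h5
    rw [mul_zero] at h6
    exact hz h6.symm
  refine oct_eq (s := p / q) (div_ne_zero hp hq) ?_ hord hord'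
  apply dp_ext
  intro z
  have h5 : dp ((p / q) • h') z = (p / q) * dp h' z := by
    unfold dp
    rw [Finset.mul_sum]
    refine Finset.sum_congr rfl fun a _ => ?_
    simp only [Algebra.algebraMap_self, RingHom.id_apply, Pi.smul_apply, smul_eq_mul]
    ring
  rw [h5]
  have := hrel z
  field_simp
  linear_combination this

end Pool.Agent.H31.G5
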