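import Pool.Agent.H31.G5.Ext

/-! # One point only: the projection from the tangent -/

set_option autoImplicit false

namespace Pool.Agent.H31.G5

open Pool.Agent.H31.SX
open Matrix Polynomial

set_option linter.unusedSectionVars false

variable {K : Type*} [Field K]

section Alg

variable {R : Type*} [CommRing R] [Algebra K R]

/-- The sextic of four vectors. -/
def tx (c α β γ : Fin 3 → R) : R := d3 c α γ * d3 c α γ + d3 γ α β * d3 c α β

/-- The sextic. -/
def tf (c : Fin 3 → K) (a b : Matrix (Fin 3) (Fin 3) K) (G : Fin 3 → Matrix (Fin 3) (Fin 3) K)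
    (y : Fin 3 → R) : R := tx (am c) (al a y) (al b y) (ga G y)

theorem tx_map {R' : Type*} [CommRing R'] (f : R →+* R') (c α β γ : Fin 3 → R) :
    f (tx c α β γ) = tx (f ∘ c) (f ∘ α) (f ∘ β) (f ∘ γ) := by
  unfold tx
  rw [map_add, map_mul, map_mul, d3_map, d3_map, d3_map]

theorem tf_map {R' : Type*} [CommRing R'] [Algebra K R'] (f : R →ₐ[K] R') (c : Fin 3 → K)
    (a b : Matrix (Fin 3) (Fin 3) K) (G : Fin 3 → Matrix (Fin 3) (Fin 3) K) (y : Fin 3 → R) :
    f (tf c a b G y) = tf c a b G (f ∘ y) := by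
  have h := tx_map (f : R →+* R') (am c) (al a y) (al b y) (ga G y)
  have h1 : (f : R →+* R') ∘ (am c : Fin 3 → R) = am c := by
    funext i
    simp [am]
  have h2 : ∀ a : Matrix (Fin 3) (Fin 3) K, (f : R →+* R') ∘ (al a y) = al a (f ∘ y) := by
    intro a
    funext i
    simp [al, Matrix.mulVec, dotProduct]
  have h3 : (f : R →+* R') ∘ (ga G y) = ga G (f ∘ y) := by
    funext i
    simp [ga, Matrix.mulVec, dotProduct]
  rw [h1, h2, h2, h3] at h
  exact h

end Alg

/-- The sextic form. -/
noncomputable def TF (c : Fin 3 → K) (a b : Matrix (Fin 3) (Fin 3) K)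
    (G : Fin 3 → Matrix (Fin 3) (Fin 3) K) : MvPolynomial (Fin 3) K := tf c a b G MvPolynomial.X

theorem aeval_TF {R : Type*} [CommRing R] [Algebra K R] (c : Fin 3 → K)
    (a b : Matrix (Fin 3) (Fin 3) K) (G : Fin 3 → Matrix (Fin 3) (Fin 3) K) (y : Fin 3 → R) :
    MvPolynomial.aeval y (TF c a b G) = tf c a b G y := by
  unfold TF
  rw [tf_map (MvPolynomial.aeval y)]
  congr 1
  funext i
  simp

theorem eval_TF (c : Fin 3 → K) (a b : Matrix (Fin 3) (Fin 3) K)
    (G : Fin 3 → Matrix (Fin 3) (Fin 3) K) (y : Fin 3 → K) :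
    MvPolynomial.eval y (TF c a b G) = tf c a b G y := by
  rw [← aeval_TF, MvPolynomial.aeval_def, MvPolynomial.eval, Algebra.algebraMap_self]
  rfl

theorem TF_hom (c : Fin 3 → K) (a b : Matrix (Fin 3) (Fin 3) K)
    (G : Fin 3 → Matrix (Fin 3) (Fin 3) K) : (TF c a b G).IsHomogeneous 6 := by
  have hc : ∀ i, ((am c : Fin 3 → MvPolynomial (Fin 3) K) i).IsHomogeneous 0 := fun i =>
    MvPolynomial.isHomogeneous_C _ _
  have hl : ∀ (a : Matrix (Fin 3) (Fin 3) K) i,
      ((al a (MvPolynomial.X : Fin 3 → MvPolynomial (Fin 3) K)) i).IsHomogeneous 1 := by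
    intro a i
    unfold al Matrix.mulVec dotProduct
    refine MvPolynomial.IsHomogeneous.sum _ _ _ fun j _ => ?_
    exact MvPolynomial.isHomogeneous_C_mul_X _ _
  have hg : ∀ i, ((ga G (MvPolynomial.X : Fin 3 → MvPolynomial (Fin 3) K)) i).IsHomogeneous 2 := by
    intro i
    have h2 : (2 : ℕ) = 1 + 1 := rfl
    unfold ga dotProduct
    rw [h2]
    refine MvPolynomial.IsHomogeneous.sum _ _ _ fun j _ => ?_
    exact (MvPolynomial.isHomogeneous_X _ _).mul (hl (G i) j)
  have h1 := (d3_hom hc (hl a) hg).mul (d3_hom hc (hl a) hg)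
  have h2 := (d3_hom hg (hl a) (hl b)).mul (d3_hom hc (hl a) (hl b))
  exact h1.add h2

/-- The zeros of the sextic. -/
theorem tzero_cases (h4 : ∀ p : K[X], p.natDegree ≤ 4 → p.Splits) {c α β γ : Fin 3 → K}
    (hc : c ≠ 0) (h : tx c α β γ = 0) :
    (∃ x0 x1 : K, (x1 * x1) • c + x0 • α + x1 • β + γ = 0) ∨ (∃ s : K, α = s • c) := by
  unfold tx at h
  by_cases hΔ : d3 c α β = 0
  · by_cases h1 : cr α c = 0
    · exact Or.inr (parallel h1 hc)
    · left
      have h1' : cr c α ≠ 0 := by
        rw [cr_swap]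
        exact neg_ne_zero.mpr h1
      obtain ⟨ν, μ, hβ⟩ := in_span h1' (x := β) hΔ
      rw [hΔ, mul_zero, add_zero] at h
      have hγ : d3 c α γ = 0 := mul_self_eq_zero.mp h
      obtain ⟨σ, ρ, hγ'⟩ := in_span h1' (x := γ) hγ
      obtain ⟨s, hs⟩ := quad_root h4 ν σ (one_ne_zero (α := K))
      refine ⟨-(μ * s) - ρ, s, ?_⟩
      rw [hβ, hγ']
      have h6 : (s * s) • c + (-(μ * s) - ρ) • α + s • (ν • c + μ • α) +
          (σ • c + ρ • α) = (1 * s ^ 2 + ν * s + σ) • c := by module
      rw [h6, hs, zero_smul]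
  · left
    refine ⟨-(d3 c γ β / d3 c α β), -(d3 c α γ / d3 c α β), ?_⟩
    funext m
    have h1 := expand c α β γ m
    simp only [Pi.add_apply, Pi.smul_apply, smul_eq_mul, Pi.zero_apply]
    have h2 : (d3 c α β) ^ 2 * (-(d3 c α γ / d3 c α β) * -(d3 c α γ / d3 c α β) * c m +
        -(d3 c γ β / d3 c α β) * α m + -(d3 c α γ / d3 c α β) * β m + γ m) = 0 := by
      field_simp
      linear_combination (c m) * h + (d3 c α β) * h1
    exact (mul_eq_zero.mp h2).resolve_left (pow_ne_zero 2 hΔ)

section Form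

variable {M : Fin 3 → Matrix (Fin 5) (Fin 5) K} {A t : Fin 5 → K} {e : Fin 3 → Fin 5 → K}
  {l0 l1 : Fin 5 → K} {Λ : Fin 3 → Fin 5 → K}

/-- The sextic of the tangent. -/
noncomputable def TX (M : Fin 3 → Matrix (Fin 5) (Fin 5) K) (A t : Fin 5 → K)
    (e : Fin 3 → Fin 5 → K) : MvPolynomial (Fin 3) K :=
  TF (bv M t t) (ma M A e) (ma M t e) (mG M e)

theorem TX_val (hM : ∀ i, (M i).IsSymm) (hA : bv M A A = 0) (ht : bv M A t = 0)
    (C : Co A t e l0 l1 Λ) {R : Type*} [CommRing R] [Algebra K R] (z : Fin 5 → R) :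
    MvPolynomial.aeval (LL Λ z) (TX M A t e) =
      (d3 (am (bv M t t)) ((2 : R) • bv M (am A) z) (bv M z z)) ^ 2 +
        4 * d3 (am (bv M t t)) ((2 : R) • bv M (am A) z) (bv M (am t) z) *
          d3 (bv M z z) ((2 : R) • bv M (am A) z) (bv M (am t) z) := by
  have h0 : (am (0 : Fin 3 → K) : Fin 3 → R) = 0 := by funext i; simp [am]
  have hdec := C.dec z
  have hY : YY e (LL Λ z) = z + (-(dp l0 z)) • am A + (-(dp l1 z)) • am t := by
    calc YY e (LL Λ z) = (dp l0 z • am A + dp l1 z • am t + YY e (LL Λ z)) +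
          (-(dp l0 z)) • am A + (-(dp l1 z)) • am t := by module
      _ = _ := by rw [← hdec]
  have ha : al (ma M A e) (LL Λ z) = (2 : R) • bv M (am A) z := by
    rw [al_ma, hY, bv_add_right, bv_add_right, bv_smul_right, bv_smul_right, bv_am, bv_am, hA, ht,
      h0]
    module
  have hb : al (ma M t e) (LL Λ z) = (2 : R) • bv M (am t) z +
      (-(2 * dp l1 z)) • am (bv M t t) := by
    rw [al_ma, hY, bv_add_right, bv_add_right, bv_smul_right, bv_smul_right, bv_am, bv_am,
      bv_comm hM t A, ht, h0]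
    module
  have hg : ga (mG M e) (LL Λ z) = bv M z z + (-(dp l0 z)) • ((2 : R) • bv M (am A) z) +
      (-(2 * dp l1 z)) • bv M (am t) z + (dp l1 z * dp l1 z) • am (bv M t t) := by
    rw [ga_mG, hY]
    simp only [bv_add_right, bv_smul_right, bv_add_left, bv_smul_left]
    rw [bv_comm hM z (am A), bv_comm hM z (am t), bv_am, bv_am, bv_am, bv_am, bv_comm hM t A,
      ht, hA, h0]
    module
  unfold TX
  rw [aeval_TF]
  unfold tf
  rw [ha, hb, hg]
  unfold tx d3 dt
  simp only [cr_zero, cr_one, cr_two, Pi.add_apply, Pi.smul_apply, smul_eq_mul]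
  ring

end Form

theorem LL_am' {R : Type*} [CommRing R] [Algebra K R] (Λ : Fin 3 → Fin 5 → K) (x : Fin 5 → K) :
    LL Λ (am x : Fin 5 → R) = am (LL Λ x) := by
  funext j
  simp [LL, dp, am]

section One

variable [CharZero K] {L : Type*} [Field L] [Algebra K L]
  {M : Fin 3 → Matrix (Fin 5) (Fin 5) K}

/-- If there is one point only, a hyperplane section is supported in this point. -/
theorem only_one (h4 : ∀ p : K[X], p.natDegree ≤ 4 → p.Splits)
    (hM : ∀ i, (M i).IsSymm) (hsm : Sm M) (hfin : ¬ Inf M) {A t : Fin 5 → K} (hA0 : A ≠ 0)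
    (hA : bv M A A = 0) (ht : bv M A t = 0) (htA : ∀ κ : K, t ≠ κ • A)
    (hall : ∀ z, z ≠ 0 → bv M z z = 0 → ∃ κ : K, z = κ • A) :
    ∃ h : Fin 5 → K, h ≠ 0 ∧ ∀ z : Fin 5 → L, z ≠ 0 → bv M z z = 0 → dp h z = 0 →
      ∃ c : L, z = c • am A := by
  classical
  have hinf : Infinite K := CharZero.infinite K
  have ht0 : t ≠ 0 := fun h0 => htA 0 (by rw [h0, zero_smul])
  have hAt : ∀ κ : K, A ≠ κ • t := by
    intro κ hκ
    by_cases hκ0 : κ = 0
    · rw [hκ0, zero_smul] at hκ
      exact hA0 hκ
    · exact htA κ⁻¹ (by rw [hκ, smul_smul, inv_mul_cancel₀ hκ0, one_smul])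
  have hc0 : bv M t t ≠ 0 := fun h1 =>
    hfin (line_inf hM hA0 htA h1 (by rw [bv_comm hM, ht]) hA)
  obtain ⟨z2, hz2⟩ := hsm A hA0 hA ((-(1 / 2 : K)) • bv M t t)
  have hz2' : (2 : K) • bv M A z2 + bv M t t = 0 := by
    rw [hz2, smul_smul, show (2 : K) * -(1 / 2) = -1 by norm_num]
    module
  have hsp := sh3a hM hfin hA0 hA ht htA hz2'
  have hind3 := ind3_of ht0 hAt hsp
  have hD : d3 (bv M t t) (bv M t z2) (bv M z2 z2) ≠ 0 := by
    intro h0
    obtain ⟨c, hc, k1, k2, k3⟩ := dep_det h0
    refine hfin (plane3 h4 hM hsm hc hind3 ?_ k1 k3 ?_ ?_ k2)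
    · rw [hA]; unfold dt; simp
    · rw [ht]; unfold dt; simp
    · rw [hz2, dt_smul, k1, mul_zero]
  obtain ⟨e, l0, l1, Λ, C⟩ := exists_co ht0 hAt
  have hF : (TX M A t e).IsHomogeneous 6 := TF_hom _ _ _ _
  set p := LL Λ z2 with hp
  have hp0 : p ≠ 0 := by
    intro h0
    obtain ⟨u, v, huv⟩ := C.span0 h0
    exact hsp u v huv
  have hval := fun z : Fin 5 → K => TX_val (R := K) hM hA ht C z
  have heval : ∀ y : Fin 3 → K, MvPolynomial.aeval y (TX M A t e) =
      MvPolynomial.eval y (TX M A t e) := by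
    intro y
    rw [MvPolynomial.aeval_def, Algebra.algebraMap_self]
    rfl
  have hZ : FZ (TX M A t e) (fun _ : Unit => p) := by
    refine ⟨fun _ => hp0, fun i j hij => absurd (Subsingleton.elim i j) hij, ?_, ?_⟩
    · intro _
      have h1 := hval z2
      rw [heval, am_self, am_self, am_self, eq_neg_of_add_eq_zero_left hz2'] at h1
      rw [h1]
      unfold d3 dt
      simp only [cr_zero, cr_one, cr_two, Pi.neg_apply]
      ring
    · intro y hy hFy
      unfold TX at hFy
      rw [eval_TF] at hFy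
      unfold tf at hFy
      rw [am_self] at hFy
      rcases tzero_cases h4 hc0 hFy with ⟨x0, x1, h1⟩ | ⟨s, h1⟩
      · exfalso
        have h5 : bv M (x0 • A + x1 • t + YY e y) (x0 • A + x1 • t + YY e y) = 0 := by
          rw [← h1, al_ma, al_ma, ga_mG]
          simp only [bv_add_right, bv_smul_right, bv_add_left, bv_smul_left]
          rw [bv_comm hM (YY e y) A, bv_comm hM (YY e y) t, am_self, am_self, bv_comm hM t A, ht,
            hA]
          module
        have h3 : LL Λ (x0 • A + x1 • t + YY e y) = y := by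
          rw [LL_add, LL_add, LL_smul, LL_smul, C.LA, C.LB, C.Le]
          module
        have h6 : x0 • A + x1 • t + YY e y ≠ 0 := by
          intro h0
          rw [h0] at h3
          apply hy
          rw [← h3]
          funext k
          unfold LL dp
          simp
        obtain ⟨κ, hκ⟩ := hall _ h6 h5
        rw [hκ, LL_smul, C.LA, smul_zero] at h3
        exact hy h3.symm
      · rw [al_ma, am_self] at h1
        have h2 : bv M A (YY e y + s • z2) = 0 := by
          rw [bv_add_right, bv_smul_right]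
          have h3 : (2 : K) • (bv M A (YY e y) + s • bv M A z2) = 0 := by
            have h5 : (2 : K) • (bv M A (YY e y) + s • bv M A z2) =
                (2 : K) • bv M A (YY e y) + s • ((2 : K) • bv M A z2) := by module
            rw [h5, h1, eq_neg_of_add_eq_zero_left hz2']
            module
          exact (smul_eq_zero.mp h3).resolve_left two_ne_zero
        obtain ⟨a, b, hab⟩ := tangent_span hsm hA0 hA ht htA h2
        have h3 := congrArg (LL Λ) hab
        rw [LL_add, LL_smul, C.Le, LL_add, LL_smul, LL_smul, C.LA, C.LB, smul_zero, smul_zero,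
          add_zero, ← hp] at h3
        refine ⟨(), -s, ?_, ?_⟩
        · intro hs
          rw [neg_eq_zero] at hs
          rw [hs, zero_smul, add_zero] at h3
          exact hy h3
        · calc y = (y + s • p) + (-s) • p := by module
            _ = _ := by rw [h3, zero_add]
  have hfinF := fz_finite hZ
  -- the point is smooth
  have hgr : gr (TX M A t e) p ≠ 0 := by
    intro h0
    obtain ⟨z, hz⟩ := hsm A hA0 hA (bv M z2 z2)
    have h1 := res_derivative_eval (TX M A t e) p (LL Λ z) 0
    rw [zero_smul, add_zero, h0, dt_zero_left, ← coeff_zero_eq_eval_zero, coeff_derivative] at h1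
    simp only [zero_add, Nat.cast_zero, mul_one] at h1
    -- the polynomial
    set Z : Fin 5 → K[X] := am z2 + (X : K[X]) • am z with hZdef
    have h2 : res (TX M A t e) p (LL Λ z) = MvPolynomial.aeval (LL Λ Z) (TX M A t e) := by
      unfold res
      congr 1
      congr 1
      funext j
      rw [hZdef, LL_add, LL_smul, LL_am', LL_am']
      simp [am, hp]
    have h3 : (2 : K[X]) • bv M (am A) Z = am (-(bv M t t)) +
        (2 * X : K[X]) • am (bv M z2 z2) := by
      rw [hZdef, bv_add_right, bv_smul_right, bv_am, bv_am, hz, smul_add, ← am_two_smul,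
        eq_neg_of_add_eq_zero_left hz2']
      module
    rw [h2, TX_val hM hA ht C, h3] at h1
    set Q := bv M Z Z with hQ
    set T := bv M (am t) Z with hT
    have h5 : (d3 (am (bv M t t)) (am (-(bv M t t)) + (2 * X : K[X]) • am (bv M z2 z2)) Q) ^ 2 +
        4 * d3 (am (bv M t t)) (am (-(bv M t t)) + (2 * X : K[X]) • am (bv M z2 z2)) T *
          d3 Q (am (-(bv M t t)) + (2 * X : K[X]) • am (bv M z2 z2)) T =
        X * (4 * X * (d3 (am (bv M t t)) (am (bv M z2 z2)) Q) ^ 2 +
          8 * d3 (am (bv M t t)) (am (bv M z2 z2)) T *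
          d3 Q (am (-(bv M t t)) + (2 * X : K[X]) • am (bv M z2 z2)) T) := by
      have h6 : (am (-(bv M t t)) : Fin 3 → K[X]) = -am (bv M t t) := by
        funext i
        simp [am]
      rw [h6]
      unfold d3 dt
      simp only [cr_zero, cr_one, cr_two, Pi.add_apply, Pi.smul_apply, smul_eq_mul, Pi.neg_apply]
      ring
    rw [h5, coeff_X_mul, coeff_zero_eq_eval_zero] at h1
    have hev : ∀ a : Fin 3 → K, (evalRingHom (0 : K)) ∘ (am a : Fin 3 → K[X]) = a := by
      intro a
      funext i
      simp [am]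
    have hQ0 : (evalRingHom (0 : K)) ∘ Q = bv M z2 z2 := by
      have h6 := bv_map M (aeval (0 : K) : K[X] →ₐ[K] K) Z Z
      have h7 : (aeval (0 : K) : K[X] →ₐ[K] K) ∘ Z = z2 := by
        funext i
        simp [hZdef, am]
      rw [h7] at h6
      rw [← h6]
      funext i
      simp [hQ, coe_aeval_eq_eval]
    have hT0 : (evalRingHom (0 : K)) ∘ T = bv M t z2 := by
      have h6 := bv_map M (aeval (0 : K) : K[X] →ₐ[K] K) (am t) Z
      have h7 : (aeval (0 : K) : K[X] →ₐ[K] K) ∘ Z = z2 := by
        funext i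
        simp [hZdef, am]
      have h8 : (aeval (0 : K) : K[X] →ₐ[K] K) ∘ (am t) = t := by
        funext i
        simp [am]
      rw [h7, h8] at h6
      rw [← h6]
      funext i
      simp [hT, coe_aeval_eq_eval]
    have hS0 : (evalRingHom (0 : K)) ∘ (am (-(bv M t t)) + (2 * X : K[X]) • am (bv M z2 z2)) =
        -(bv M t t) := by
      funext i
      simp [am]
    have h6 : ∀ f : K[X], f.eval 0 = evalRingHom (0 : K) f := fun _ => rfl
    rw [h6, map_add, map_mul, map_mul, map_mul, map_mul, ← d3_map, ← d3_map, hev, hev,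
      hQ0, hT0, hS0] at h1
    simp only [map_ofNat, coe_evalRingHom, eval_X, mul_zero, zero_mul, zero_add] at h1
    apply hD
    have h7 : d3 (bv M t t) (bv M z2 z2) (bv M t z2) = -d3 (bv M t t) (bv M t z2) (bv M z2 z2) :=
      d3_swap23 _ _ _
    have h8 : d3 (bv M z2 z2) (-(bv M t t)) (bv M t z2) =
        -d3 (bv M t t) (bv M t z2) (bv M z2 z2) := by
      unfold d3 dt
      simp only [cr_zero, cr_one, cr_two, Pi.neg_apply]
      ring
    rw [h7, h8] at h1
    have h9 : (8 : K) * (d3 (bv M t t) (bv M t z2) (bv M z2 z2) *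
        d3 (bv M t t) (bv M t z2) (bv M z2 z2)) = 0 := by linear_combination h1
    exact mul_self_eq_zero.mp ((mul_eq_zero.mp h9).resolve_left (by norm_num))
  obtain ⟨w, hw, _, hw2, hw3, _⟩ := tangent h4 hF hfinF hZ (a := ()) hgr
  set n := cr p w with hn
  refine ⟨fun a => n 0 * Λ 0 a + n 1 * Λ 1 a + n 2 * Λ 2 a, ?_, ?_⟩
  · intro h0
    obtain ⟨y, hy⟩ := dt_ne hw
    apply hy
    have h1 := C.Le y
    have h2 := dt_LL' (L := K) n Λ (YY e y)
    rw [h1, h0, am_self] at h2
    rw [h2]
    unfold dp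
    simp
  · intro z hz0 hzz hh
    rw [← dt_LL'] at hh
    have hdec := C.dec z
    have h0 : (am (0 : Fin 3 → K) : Fin 3 → L) = 0 := by funext i; simp [am]
    by_cases hy : LL Λ z = 0
    · have h3 : YY e (0 : Fin 3 → L) = 0 := by unfold YY; simp
      rw [hy, h3, add_zero] at hdec
      have h5 := hzz
      rw [hdec] at h5
      simp only [bv_add_left, bv_add_right, bv_smul_left, bv_smul_right, bv_am] at h5
      rw [bv_comm hM t A, hA, ht, h0] at h5
      have h6 : (dp l1 z * dp l1 z) • (am (bv M t t) : Fin 3 → L) = 0 := by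
        rw [← h5]; module
      have h7 : (am (bv M t t) : Fin 3 → L) ≠ 0 := fun h8 => hc0 (am_inj h8)
      have h8 := mul_self_eq_zero.mp ((smul_eq_zero.mp h6).resolve_right h7)
      exact ⟨dp l0 z, by rw [h8, zero_smul, add_zero] at hdec; exact hdec⟩
    · exfalso
      have hFy : MvPolynomial.aeval (LL Λ z) (TX M A t e) = 0 := by
        rw [TX_val hM hA ht C, hzz]
        unfold d3 dt
        simp
      obtain ⟨s, a, ha, hs1, hs2⟩ := line_ext hF hw hw2 hw3 hy hFy hh
      have hne : p + s • w ≠ 0 := by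
        intro h0
        rw [h0] at hs2
        apply hy
        rw [hs2]
        funext k
        simp [am]
      obtain ⟨_, κ, hκ, hX⟩ := hZ.compl _ hne hs1
      rw [hX, am_smul, smul_smul] at hs2
      have hκ' : a * algebraMap K L κ ≠ 0 :=
        mul_ne_zero ha (fun h => hκ ((map_eq_zero _).mp h))
      set κ' := a * algebraMap K L κ with hκdef
      have h1 := C.dec z2
      rw [am_self, am_self] at h1
      have h2 : (am z2 : Fin 5 → L) = algebraMap K L (dp l0 z2) • am A +
          algebraMap K L (dp l1 z2) • am t + YY e (am p) := by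
        nth_rewrite 1 [h1]
        rw [am_add, am_add, am_smul, am_smul]
        congr 1
        unfold YY
        rw [am_add, am_add, am_smul, am_smul, am_smul, am_self, am_self, am_self]
        rfl
      have h3 : YY e (κ' • (am p : Fin 3 → L)) = κ' • YY e (am p) := by
        unfold YY
        simp only [Pi.smul_apply, smul_eq_mul]
        module
      have hz : z = (dp l0 z - κ' * algebraMap K L (dp l0 z2)) • am A +
          (dp l1 z - κ' * algebraMap K L (dp l1 z2)) • am t + κ' • am z2 := by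
        nth_rewrite 1 [hdec]
        rw [hs2, h3, h2]
        module
      set u := dp l0 z - κ' * algebraMap K L (dp l0 z2) with hu
      set v := dp l1 z - κ' * algebraMap K L (dp l1 z2) with hv
      rw [hz] at hzz
      simp only [bv_add_left, bv_add_right, bv_smul_left, bv_smul_right, bv_am] at hzz
      rw [bv_comm hM t A, bv_comm hM z2 A, bv_comm hM z2 t, hA, ht, h0] at hzz
      have h7 : (2 : L) • (am (bv M A z2) : Fin 3 → L) = -am (bv M t t) := by
        rw [← am_two_smul, eq_neg_of_add_eq_zero_left hz2']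
        funext i
        simp [am]
      have h8 : (v * v - u * κ') • (am (bv M t t) : Fin 3 → L) +
          (2 * (v * κ')) • am (bv M t z2) + (κ' * κ') • am (bv M z2 z2) = 0 := by
        have h9 : (v * v - u * κ') • (am (bv M t t) : Fin 3 → L) +
          (2 * (v * κ')) • am (bv M t z2) + (κ' * κ') • am (bv M z2 z2) =
          (v * v) • (am (bv M t t) : Fin 3 → L) + (u * κ') • ((2 : L) • (am (bv M A z2))) +
          (2 * (v * κ')) • am (bv M t z2) + (κ' * κ') • am (bv M z2 z2) := by
          rw [h7]; module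
        rw [h9, ← hzz]
        module
      exact hκ' (mul_self_eq_zero.mp (rel_ext hD h8))

end One

end Pool.Agent.H31.G5
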