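import Pool.Agent.H31.G5.Pair
import Pool.Agent.H31.G5.Mult

/-! # The orders of a hyperplane along the arcs -/

set_option autoImplicit false

namespace Pool.Agent.H31.G5

open Pool.Agent.H31.SX
open Matrix Polynomial

set_option linter.unusedSectionVars false

variable {K : Type*} [Field K] [CharZero K] {ι : Type*} [Fintype ι]
  [DecidableEq ι] {M : Fin 3 → Matrix (Fin 5) (Fin 5) K}

/-- The exact order. -/
def eo (p : K[X]) (m : ℕ) : Prop := X ^ m ∣ p ∧ ¬ X ^ (m + 1) ∣ p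

theorem eo.le_iff {p : K[X]} {m : ℕ} (h : eo p m) (k : ℕ) : X ^ k ∣ p ↔ k ≤ m := by
  constructor
  · intro h1
    by_contra hk
    exact h.2 ((pow_dvd_pow X (by omega)).trans h1)
  · intro h1
    exact (pow_dvd_pow X h1).trans h.1

theorem eo.unique {p : K[X]} {m m' : ℕ} (h : eo p m) (h' : eo p m') : m = m' := by
  apply le_antisymm
  · exact (h'.le_iff m).mp h.1
  · exact (h.le_iff m').mp h'.1

theorem cf_LL (Λ : Fin 3 → Fin 5 → K) (x : Fin 5 → K[X]) (k : ℕ) :
    cf k (LL Λ x) = LL Λ (cf k x) := by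
  funext j
  simp only [cf, LL, dp, finsetSum_coeff, algebraMap_eq, coeff_C_mul, Algebra.algebraMap_self,
    RingHom.id_apply]

variable {r t : ι → Fin 5 → K} {x : ι → Fin 5 → K[X]}

/-- The order at the two points of the pair is larger by one. -/
def dlt (i j X : ι) : ℕ := if X = i then 1 else if X = j then 1 else 0

theorem eval_SX_smul (A B : Fin 5 → K) (e : Fin 3 → Fin 5 → K) (y : Fin 3 → K[X]) :
    MvPolynomial.aeval ((X : K[X]) • y) (SX M A B e) =
      X ^ 6 * MvPolynomial.aeval y (SX M A B e) := by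
  unfold SX
  rw [aeval_FF, aeval_FF, ff_smul]

theorem exists_y0 {q : Fin 3 → K[X]} (h0 : cf 0 q = 0) :
    ∃ y : Fin 3 → K[X], q = (X : K[X]) • y ∧ cf 0 y = cf 1 q ∧ cf 1 y = cf 2 q := by
  refine ⟨fun j => divX (q j), ?_, ?_, ?_⟩
  · funext j
    have h1 := divX_mul_X_add (q j)
    have h2 : (q j).coeff 0 = 0 := congrFun h0 j
    rw [h2, C_0, add_zero] at h1
    rw [Pi.smul_apply, smul_eq_mul, mul_comm, h1]
  · funext j
    simp only [cf, coeff_divX]
  · funext j
    simp only [cf, coeff_divX]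

theorem Pkg.exists_y (P : Pkg M r t x) {i j : ι} (hij : i ≠ j) {e : Fin 3 → Fin 5 → K}
    {l0 l1 : Fin 5 → K} {Λ : Fin 3 → Fin 5 → K} (C : Co (r i) (r j) e l0 l1 Λ) (Z : ι) :
    ∃ y : Fin 3 → K[X], LL Λ (x Z) = (X ^ dlt i j Z : K[X]) • y ∧ cf 0 y = vv Λ r t i j Z ∧
      cr (vv Λ r t i j Z) (cf 1 y) ≠ 0 ∧
      X ^ 7 ∣ MvPolynomial.aeval y (SX M (r i) (r j) e) := by
  have key : ∀ {a b : Fin 3 → K}, b ≠ 0 → (∀ s : K, a ≠ s • b) → cr b a ≠ 0 := by
    intro a b hb h h0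
    obtain ⟨s, hs⟩ := parallel (m := a) (n := b) (by rw [cr_swap, h0, neg_zero]) hb
    exact h s hs
  have hd : X ^ 20 ∣ MvPolynomial.aeval (LL Λ (x Z)) (SX M (r i) (r j) e) :=
    SX_dvd P.hM (P.zero i) (P.zero j) C (x Z) (P.arc Z).van
  have hjets := (P.arc Z).jets P.hM (by norm_num) (P.zero Z) (P.tz Z)
  by_cases h1 : Z = i
  · subst h1
    have h0 : cf 0 (LL Λ (x Z)) = 0 := by rw [cf_LL, (P.arc Z).c0, C.LA]
    obtain ⟨y, hy, hy0, hy1⟩ := exists_y0 h0
    rw [cf_LL, (P.arc Z).c1] at hy0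
    rw [cf_LL] at hy1
    have hv : vv Λ r t Z j Z = LL Λ (t Z) := by unfold vv; rw [if_pos rfl]
    have hδ : dlt Z j Z = 1 := by unfold dlt; rw [if_pos rfl]
    refine ⟨y, ?_, ?_, ?_, ?_⟩
    · rw [hδ, pow_one]; exact hy
    · rw [hv]; exact hy0
    · rw [hv, hy1]
      refine key (P.L1 hij C).1 fun s hs => ?_
      obtain ⟨u, v, huv⟩ := C.span hs
      exact sh2d P.h4 P.hM P.hsm P.hfin (P.zero Z) (P.zero j) (P.nz j) (P.ind Z j hij) (P.tz Z)
        (P.tn Z) hjets.1 u v s huv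
    · rw [hy, eval_SX_smul] at hd
      have h2 : (X : K[X]) ^ 20 = X ^ 6 * X ^ 14 := by rw [← pow_add]
      rw [h2] at hd
      exact (pow_dvd_pow X (by norm_num)).trans
        ((mul_dvd_mul_iff_left (pow_ne_zero 6 X_ne_zero)).mp hd)
  · by_cases h2 : Z = j
    · subst h2
      have h0 : cf 0 (LL Λ (x Z)) = 0 := by rw [cf_LL, (P.arc Z).c0, C.LB]
      obtain ⟨y, hy, hy0, hy1⟩ := exists_y0 h0
      rw [cf_LL, (P.arc Z).c1] at hy0
      rw [cf_LL] at hy1
      have hv : vv Λ r t i Z Z = LL Λ (t Z) := by unfold vv; rw [if_neg h1, if_pos rfl]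
      have hδ : dlt i Z Z = 1 := by unfold dlt; rw [if_neg h1, if_pos rfl]
      refine ⟨y, ?_, ?_, ?_, ?_⟩
      · rw [hδ, pow_one]; exact hy
      · rw [hv]; exact hy0
      · rw [hv, hy1]
        refine key (P.L1 hij C).2 fun s hs => ?_
        obtain ⟨u, v, huv⟩ := C.span hs
        exact sh2d P.h4 P.hM P.hsm P.hfin (P.zero Z) (P.zero i) (P.nz i) (P.ind Z i hij.symm)
          (P.tz Z) (P.tn Z) hjets.1 v u s (by rw [huv]; abel)
      · rw [hy, eval_SX_smul] at hd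
        have h2 : (X : K[X]) ^ 20 = X ^ 6 * X ^ 14 := by rw [← pow_add]
        rw [h2] at hd
        exact (pow_dvd_pow X (by norm_num)).trans
          ((mul_dvd_mul_iff_left (pow_ne_zero 6 X_ne_zero)).mp hd)
    · have hv : vv Λ r t i j Z = LL Λ (r Z) := by unfold vv; rw [if_neg h1, if_neg h2]
      have hδ : dlt i j Z = 0 := by unfold dlt; rw [if_neg h1, if_neg h2]
      refine ⟨LL Λ (x Z), ?_, ?_, ?_, ?_⟩
      · rw [hδ, pow_zero, one_smul]
      · rw [cf_LL, (P.arc Z).c0, hv]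
      · rw [cf_LL, (P.arc Z).c1, hv]
        refine key (P.L0 hij C h1 h2) fun s hs => ?_
        obtain ⟨u, v, huv⟩ := C.span hs
        exact sh1c P.h4 P.hM P.hsm P.hfin (P.zero i) (P.zero j) (P.zero Z) (P.nz j)
          (P.ind i j hij) (P.ind Z i h1) (P.ind Z j h2) (P.tz Z) (P.tn Z) u v s huv
      · exact (pow_dvd_pow X (by norm_num)).trans hd

theorem dt_LL (n : Fin 3 → K) (Λ : Fin 3 → Fin 5 → K) (z : Fin 5 → K[X]) :
    dt (cst n) (LL Λ z) = dp (fun a => n 0 * Λ 0 a + n 1 * Λ 1 a + n 2 * Λ 2 a) z := by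
  unfold dt LL dp cst
  rw [Finset.mul_sum, Finset.mul_sum, Finset.mul_sum, ← Finset.sum_add_distrib,
    ← Finset.sum_add_distrib]
  refine Finset.sum_congr rfl fun a _ => ?_
  simp only [algebraMap_eq, C_add, C_mul]
  ring

/-- The orders of the hyperplane of the line `n`. -/
theorem Pkg.orders [DecidableEq K] (P : Pkg M r t x) {i j : ι} (hij : i ≠ j)
    {e : Fin 3 → Fin 5 → K}
    {l0 l1 : Fin 5 → K} {Λ : Fin 3 → Fin 5 → K} (C : Co (r i) (r j) e l0 l1 Λ)
    {n w : Fin 3 → K} (hn : n ≠ 0) (hnw : dt n w = 0)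
    (hFw : MvPolynomial.eval w (SX M (r i) (r j) e) ≠ 0)
    (hle : ∀ Z, cn (SX M (r i) (r j) e) (vv Λ r t i j) n w Z ≤ 6) (Z : ι) :
    eo (dt (cst n) (LL Λ (x Z))) (dlt i j Z + cn (SX M (r i) (r j) e) (vv Λ r t i j) n w Z) := by
  have hinf : Infinite K := CharZero.infinite K
  have hF : (SX M (r i) (r j) e).IsHomogeneous 6 := FF_hom _ _ _ _
  have hZ := P.fz hij C
  have hfin := fz_finite hZ
  have hsm := smooth P.h4 hF hfin hZ (Fintype.one_lt_card_iff.mpr ⟨i, j, hij⟩)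
  obtain ⟨y, hy, hy0, hy1, hy7⟩ := P.exists_y hij C Z
  set F := SX M (r i) (r j) e with hFdef
  set v := vv Λ r t i j with hv
  have hdt : dt (cst n) (LL Λ (x Z)) = X ^ dlt i j Z * dt (cst n) y := by
    rw [hy, dt_smul]
  have hpart : eo (dt (cst n) y) (cn F v n w Z) := by
    by_cases h0 : dt n (v Z) = 0
    · have hvw : cr (v Z) w ≠ 0 := by
        intro h1
        have hw0 : w ≠ 0 := by
          rintro rfl
          apply hFw
          have := eval_smul hF 0 (0 : Fin 3 → K)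
          rw [smul_zero] at this
          rw [this]
          ring
        obtain ⟨s, hs⟩ := parallel h1 hw0
        have hs0 : s ≠ 0 := by
          rintro rfl
          rw [zero_smul] at hs
          exact hZ.nz Z hs
        apply hFw
        have h2 : w = s⁻¹ • v Z := by rw [hs, smul_smul, inv_mul_cancel₀ hs0, one_smul]
        rw [h2, eval_smul hF, hZ.zero Z, mul_zero]
      have hpl : ∀ k ≤ 7, X ^ k ∣ dt (cst n) y ↔ k ≤ cn F v n w Z := by
        intro k hk
        rw [planar hF hy0 (hZ.zero Z) (hsm Z) hy1 hy7 hn h0 hnw hvw hk, cn_le hF hFw h0]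
      refine ⟨(hpl _ (by have := hle Z; omega)).mpr le_rfl, ?_⟩
      rw [hpl _ (by have := hle Z; omega)]
      omega
    · have h1 : cn F v n w Z = 0 := by unfold cn; rw [if_neg h0]
      rw [h1]
      refine ⟨by simp, ?_⟩
      rw [zero_add, pow_one, X_dvd_iff]
      intro h2
      apply h0
      rw [← hy0]
      rw [← h2]
      unfold dt cst cf
      simp
  rw [hdt]
  constructor
  · rw [pow_add]
    exact mul_dvd_mul_left _ hpart.1
  · rw [add_assoc, pow_add, mul_dvd_mul_iff_left (pow_ne_zero _ X_ne_zero)]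
    exact hpart.2

end Pool.Agent.H31.G5
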