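import Pool.Agent.H31.G5.Coord

/-! # The projection from a secant -/

set_option autoImplicit false

namespace Pool.Agent.H31.G5

open Pool.Agent.H31.SX
open Matrix Polynomial
open scoped LinearAlgebra.Projectivization

set_option linter.unusedSectionVars false
set_option linter.unusedVariables false

variable {K : Type*} [Field K] [CharZero K] {ι : Type*} [Fintype ι]
  [DecidableEq ι] {M : Fin 3 → Matrix (Fin 5) (Fin 5) K}

/-- The list of the points with their arcs. -/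
structure Pkg (M : Fin 3 → Matrix (Fin 5) (Fin 5) K) (r t : ι → Fin 5 → K)
    (x : ι → Fin 5 → K[X]) : Prop where
  h4 : ∀ p : K[X], p.natDegree ≤ 4 → p.Splits
  hM : ∀ i, (M i).IsSymm
  hsm : Sm M
  hfin : ¬ Inf M
  nz : ∀ i, r i ≠ 0
  zero : ∀ i, bv M (r i) (r i) = 0
  ind : ∀ i j, i ≠ j → ∀ κ : K, r i ≠ κ • r j
  compl : ∀ z, z ≠ 0 → bv M z z = 0 → ∃ i, ∃ κ : K, κ ≠ 0 ∧ z = κ • r i
  tz : ∀ i, bv M (r i) (t i) = 0
  tn : ∀ i, ∀ κ : K, t i ≠ κ • r i
  arc : ∀ i, IsArc M 20 (r i) (t i) (x i)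

/-- The points of the plane. -/
def vv (Λ : Fin 3 → Fin 5 → K) (r t : ι → Fin 5 → K) (i j : ι) (X : ι) : Fin 3 → K :=
  if X = i then LL Λ (t i) else if X = j then LL Λ (t j) else LL Λ (r X)

theorem sx_par1 {R : Type*} [CommRing R] (c β γ : Fin 3 → R) (s : R) :
    sx c (s • c) β γ = 0 := by
  unfold sx
  simp only [d3_smul2, d3_self]
  ring

theorem sx_par2 {R : Type*} [CommRing R] (c α γ : Fin 3 → R) (s : R) :
    sx c α (s • c) γ = 0 := by
  unfold sx
  rw [d3_smul3, d3_smul3, d3_smul3, d3_left, d3_left]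
  ring

section Facts

variable {r t : ι → Fin 5 → K} {x : ι → Fin 5 → K[X]}

theorem Pkg.L0 (P : Pkg M r t x) {i j : ι} (hij : i ≠ j) {e : Fin 3 → Fin 5 → K}
    {l0 l1 : Fin 5 → K} {Λ : Fin 3 → Fin 5 → K} (C : Co (r i) (r j) e l0 l1 Λ) {X : ι}
    (hXi : X ≠ i) (hXj : X ≠ j) : LL Λ (r X) ≠ 0 := by
  intro h0
  obtain ⟨u, v, huv⟩ := C.span0 h0
  exact sh1a P.hM P.hfin (P.zero i) (P.zero j) (P.zero X) (P.nz j) (P.ind i j hij)
    (P.ind X i hXi) (P.ind X j hXj) u v huv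

theorem Pkg.L1 (P : Pkg M r t x) {i j : ι} (hij : i ≠ j) {e : Fin 3 → Fin 5 → K}
    {l0 l1 : Fin 5 → K} {Λ : Fin 3 → Fin 5 → K} (C : Co (r i) (r j) e l0 l1 Λ) :
    LL Λ (t i) ≠ 0 ∧ LL Λ (t j) ≠ 0 := by
  constructor
  · intro h0
    obtain ⟨u, v, huv⟩ := C.span0 h0
    exact sh2a P.hM P.hfin (P.zero i) (P.zero j) (P.nz j) (P.ind i j hij) (P.tz i) (P.tn i) u v huv
  · intro h0
    obtain ⟨u, v, huv⟩ := C.span0 h0
    exact sh2a P.hM P.hfin (P.zero j) (P.zero i) (P.nz i) (P.ind j i hij.symm) (P.tz j) (P.tn j)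
      v u (by rw [huv]; abel)

theorem Pkg.vnz (P : Pkg M r t x) {i j : ι} (hij : i ≠ j) {e : Fin 3 → Fin 5 → K}
    {l0 l1 : Fin 5 → K} {Λ : Fin 3 → Fin 5 → K} (C : Co (r i) (r j) e l0 l1 Λ) (X : ι) :
    vv Λ r t i j X ≠ 0 := by
  unfold vv
  split_ifs with h1 h2
  · exact (P.L1 hij C).1
  · exact (P.L1 hij C).2
  · exact P.L0 hij C h1 h2

/-- The points are different. -/
theorem Pkg.vind (P : Pkg M r t x) {i j : ι} (hij : i ≠ j) {e : Fin 3 → Fin 5 → K}
    {l0 l1 : Fin 5 → K} {Λ : Fin 3 → Fin 5 → K} (C : Co (r i) (r j) e l0 l1 Λ) (X Y : ι)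
    (hXY : X ≠ Y) : cr (vv Λ r t i j X) (vv Λ r t i j Y) ≠ 0 := by
  have vi : vv Λ r t i j i = LL Λ (t i) := by unfold vv; rw [if_pos rfl]
  have vj : vv Λ r t i j j = LL Λ (t j) := by
    unfold vv; rw [if_neg hij.symm, if_pos rfl]
  have vX : ∀ X, X ≠ i → X ≠ j → vv Λ r t i j X = LL Λ (r X) := by
    intro X h1 h2; unfold vv; rw [if_neg h1, if_neg h2]
  have c1 : ∀ X, X ≠ i → X ≠ j → ∀ s : K, LL Λ (r X) ≠ s • LL Λ (t i) := by
    intro X h1 h2 s h
    obtain ⟨u, v, huv⟩ := C.span h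
    exact sh2b P.h4 P.hM P.hsm P.hfin (P.zero i) (P.zero j) (P.zero X) (P.nz j) (P.ind i j hij)
      (P.ind X i h1) (P.ind X j h2) (P.tz i) (P.tn i) u v s huv
  have c2 : ∀ X, X ≠ i → X ≠ j → ∀ s : K, LL Λ (r X) ≠ s • LL Λ (t j) := by
    intro X h1 h2 s h
    obtain ⟨u, v, huv⟩ := C.span h
    exact sh2b P.h4 P.hM P.hsm P.hfin (P.zero j) (P.zero i) (P.zero X) (P.nz i)
      (P.ind j i hij.symm) (P.ind X j h2) (P.ind X i h1) (P.tz j) (P.tn j) v u s
      (by rw [huv]; abel)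
  have c3 : ∀ s : K, LL Λ (t j) ≠ s • LL Λ (t i) := by
    intro s h
    obtain ⟨u, v, huv⟩ := C.span h
    exact sh2c P.h4 P.hM P.hsm P.hfin (P.zero i) (P.zero j) (P.nz i) (P.nz j) (P.ind i j hij)
      (P.ind j i hij.symm) (P.tz i) (P.tn i) (P.tz j) (P.tn j) u v s huv
  have c4 : ∀ X Y, X ≠ Y → X ≠ i → X ≠ j → Y ≠ i → Y ≠ j → ∀ s : K,
      LL Λ (r X) ≠ s • LL Λ (r Y) := by
    intro X Y hXY h1 h2 h3 h5 s h
    obtain ⟨u, v, huv⟩ := C.span h
    exact sh1b P.h4 P.hM P.hsm P.hfin (P.zero i) (P.zero j) (P.zero Y) (P.zero X) (P.nz j)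
      (P.ind i j hij) (P.ind Y i h3) (P.ind Y j h5) (P.ind X i h1) (P.ind X j h2)
      (P.ind X Y hXY) u v s huv
  have key : ∀ {a b : Fin 3 → K}, b ≠ 0 → (∀ s : K, a ≠ s • b) → cr a b ≠ 0 := by
    intro a b hb h h0
    obtain ⟨s, hs⟩ := parallel h0 hb
    exact h s hs
  have key' : ∀ {a b : Fin 3 → K}, b ≠ 0 → (∀ s : K, a ≠ s • b) → cr b a ≠ 0 := by
    intro a b hb h
    rw [cr_swap]
    exact neg_ne_zero.mpr (key hb h)
  have nzi := (P.L1 hij C).1
  have nzj := (P.L1 hij C).2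
  by_cases hXi : X = i
  · subst hXi
    by_cases hYj : Y = j
    · subst hYj
      rw [vi, vj]
      exact key' nzi c3
    · rw [vi, vX Y (Ne.symm hXY) hYj]
      exact key' nzi (c1 Y (Ne.symm hXY) hYj)
  · by_cases hXj : X = j
    · subst hXj
      by_cases hYi : Y = i
      · subst hYi
        rw [vi, vj]
        exact key nzi c3
      · rw [vj, vX Y hYi (Ne.symm hXY)]
        exact key' nzj (c2 Y hYi (Ne.symm hXY))
    · rw [vX X hXi hXj]
      by_cases hYi : Y = i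
      · subst hYi
        rw [vi]
        exact key nzi (c1 X hXi hXj)
      · by_cases hYj : Y = j
        · subst hYj
          rw [vj]
          exact key nzj (c2 X hXi hXj)
        · rw [vX Y hYi hYj]
          exact key (P.L0 hij C hYi hYj) (c4 X Y hXY hXi hXj hYi hYj)

/-- The sextic of the pair. -/
noncomputable def SX (M : Fin 3 → Matrix (Fin 5) (Fin 5) K) (A B : Fin 5 → K)
    (e : Fin 3 → Fin 5 → K) : MvPolynomial (Fin 3) K :=
  FF (cc M A B) (ma M A e) (ma M B e) (mG M e)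

theorem SX_dvd (hM : ∀ i, (M i).IsSymm) {A B : Fin 5 → K} (hA : bv M A A = 0) (hB : bv M B B = 0)
    {e : Fin 3 → Fin 5 → K} {l0 l1 : Fin 5 → K} {Λ : Fin 3 → Fin 5 → K} (C : Co A B e l0 l1 Λ)
    {R : Type*} [CommRing R] [Algebra K R] (x : Fin 5 → R) {d : R} (h : ∀ i, d ∣ bv M x x i) :
    d ∣ MvPolynomial.aeval (LL Λ x) (SX M A B e) := by
  unfold SX
  rw [aeval_FF]
  unfold ff
  refine sx_dvd _ _ _ _ (dp l0 x) (dp l1 x) ?_
  rw [main_exp hM hA hB, ← C.dec x]
  exact h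

theorem SX_tangent1 (hM : ∀ i, (M i).IsSymm) {A B : Fin 5 → K} (hA : bv M A A = 0)
    (hB : bv M B B = 0)
    {e : Fin 3 → Fin 5 → K} {l0 l1 : Fin 5 → K} {Λ : Fin 3 → Fin 5 → K} (C : Co A B e l0 l1 Λ)
    {t : Fin 5 → K} (ht : bv M A t = 0) : MvPolynomial.eval (LL Λ t) (SX M A B e) = 0 := by
  unfold SX
  rw [eval_FF]
  unfold ff
  have h1 : al (ma M A e) (LL Λ t) = (-(dp l1 t)) • (am (cc M A B) : Fin 3 → K) := by
    rw [al_ma, am_self, am_self]
    have h2 : YY e (LL Λ t) = t + (-(dp l0 t)) • A + (-(dp l1 t)) • B := by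
      have h3 := C.dec t
      rw [am_self, am_self] at h3
      calc YY e (LL Λ t) = (dp l0 t • A + dp l1 t • B + YY e (LL Λ t)) + (-(dp l0 t)) • A +
            (-(dp l1 t)) • B := by module
        _ = _ := by rw [← h3]
    rw [h2, bv_add_right, bv_add_right, bv_smul_right, bv_smul_right, ht, hA]
    unfold cc
    module
  rw [h1]
  exact sx_par1 _ _ _ _

theorem SX_tangent2 (hM : ∀ i, (M i).IsSymm) {A B : Fin 5 → K} (hA : bv M A A = 0)
    (hB : bv M B B = 0)
    {e : Fin 3 → Fin 5 → K} {l0 l1 : Fin 5 → K} {Λ : Fin 3 → Fin 5 → K} (C : Co A B e l0 l1 Λ)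
    {t : Fin 5 → K} (ht : bv M B t = 0) : MvPolynomial.eval (LL Λ t) (SX M A B e) = 0 := by
  unfold SX
  rw [eval_FF]
  unfold ff
  have h1 : al (ma M B e) (LL Λ t) = (-(dp l0 t)) • (am (cc M A B) : Fin 3 → K) := by
    rw [al_ma, am_self, am_self]
    have h2 : YY e (LL Λ t) = t + (-(dp l0 t)) • A + (-(dp l1 t)) • B := by
      have h3 := C.dec t
      rw [am_self, am_self] at h3
      calc YY e (LL Λ t) = (dp l0 t • A + dp l1 t • B + YY e (LL Λ t)) + (-(dp l0 t)) • A +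
            (-(dp l1 t)) • B := by module
        _ = _ := by rw [← h3]
    rw [h2, bv_add_right, bv_add_right, bv_smul_right, bv_smul_right, ht, hB, bv_comm hM B A]
    unfold cc
    module
  rw [h1]
  exact sx_par2 _ _ _ _

theorem eval_of_dvd {F : MvPolynomial (Fin 3) K} {y : Fin 3 → K}
    (h : (0 : K) ∣ MvPolynomial.aeval y F) : MvPolynomial.eval y F = 0 := by
  have h1 := zero_dvd_iff.mp h
  rw [MvPolynomial.aeval_def, Algebra.algebraMap_self] at h1
  exact h1

/-- The zeros of the sextic. -/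
theorem Pkg.fz [DecidableEq K] (P : Pkg M r t x) {i j : ι} (hij : i ≠ j) {e : Fin 3 → Fin 5 → K}
    {l0 l1 : Fin 5 → K} {Λ : Fin 3 → Fin 5 → K} (C : Co (r i) (r j) e l0 l1 Λ) :
    FZ (SX M (r i) (r j) e) (vv Λ r t i j) := by
  refine ⟨P.vnz hij C, P.vind hij C, ?_, ?_⟩
  · intro X
    unfold vv
    split_ifs with h1 h2
    · exact SX_tangent1 P.hM (P.zero i) (P.zero j) C (P.tz i)
    · exact SX_tangent2 P.hM (P.zero i) (P.zero j) C (P.tz j)
    · refine eval_of_dvd (SX_dvd P.hM (P.zero i) (P.zero j) C (r X) fun k => ?_)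
      rw [P.zero X]
      simp
  · intro y hy hF
    unfold SX at hF
    rw [eval_FF] at hF
    unfold ff at hF
    have hcc : cc M (r i) (r j) ≠ 0 := by
      unfold cc
      exact smul_ne_zero two_ne_zero (cross_ne P.hM P.hfin (P.zero i) (P.zero j) (P.nz j)
        (P.ind i j hij))
    rw [am_self] at hF
    have vi : vv Λ r t i j i = LL Λ (t i) := by unfold vv; rw [if_pos rfl]
    have vj : vv Λ r t i j j = LL Λ (t j) := by
      unfold vv; rw [if_neg hij.symm, if_pos rfl]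
    rcases zero_cases P.h4 hcc hF with ⟨x0, x1, h1⟩ | ⟨s, h1⟩ | ⟨s, h1⟩
    · have h2 := main_exp P.hM (P.zero i) (P.zero j) e x0 x1 y
      rw [am_self, h1, am_self, am_self] at h2
      have h3 : LL Λ (x0 • r i + x1 • r j + YY e y) = y := by
        rw [LL_add, LL_add, LL_smul, LL_smul, C.LA, C.LB, C.Le]
        module
      have h5 : x0 • r i + x1 • r j + YY e y ≠ 0 := by
        intro h0
        rw [h0] at h3
        apply hy
        rw [← h3]
        funext k
        unfold LL dp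
        simp
      obtain ⟨X, κ, hκ, hX⟩ := P.compl _ h5 h2.symm
      rw [hX, LL_smul] at h3
      refine ⟨X, κ, hκ, ?_⟩
      unfold vv
      split_ifs with h6 h7
      · rw [h6, C.LA, smul_zero] at h3
        exact absurd h3.symm hy
      · rw [h7, C.LB, smul_zero] at h3
        exact absurd h3.symm hy
      · exact h3.symm
    · rw [al_ma, am_self] at h1
      have h2 : bv M (r i) (YY e y + (-s) • r j) = 0 := by
        rw [bv_add_right, bv_smul_right]
        have h3 : (2 : K) • (bv M (r i) (YY e y) + (-s) • bv M (r i) (r j)) = 0 := by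
          rw [smul_add, h1]
          unfold cc
          module
        exact (smul_eq_zero.mp h3).resolve_left two_ne_zero
      obtain ⟨a, b, hab⟩ := tangent_span P.hsm (P.nz i) (P.zero i) (P.tz i) (P.tn i) h2
      have h3 := congrArg (LL Λ) hab
      rw [LL_add, LL_smul, C.LB, C.Le, LL_add, LL_smul, LL_smul, C.LA, smul_zero, smul_zero,
        zero_add, add_zero] at h3
      refine ⟨i, b, ?_, by rw [vi]; exact h3⟩
      rintro rfl
      rw [zero_smul] at h3
      exact hy h3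
    · rw [al_ma, am_self] at h1
      have h2 : bv M (r j) (YY e y + (-s) • r i) = 0 := by
        rw [bv_add_right, bv_smul_right]
        have h3 : (2 : K) • (bv M (r j) (YY e y) + (-s) • bv M (r j) (r i)) = 0 := by
          rw [smul_add, h1]
          unfold cc
          rw [bv_comm P.hM (r j) (r i)]
          module
        exact (smul_eq_zero.mp h3).resolve_left two_ne_zero
      obtain ⟨a, b, hab⟩ := tangent_span P.hsm (P.nz j) (P.zero j) (P.tz j) (P.tn j) h2
      have h3 := congrArg (LL Λ) hab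
      rw [LL_add, LL_smul, C.LA, C.Le, LL_add, LL_smul, LL_smul, C.LB, smul_zero, smul_zero,
        zero_add, add_zero] at h3
      refine ⟨j, b, ?_, by rw [vj]; exact h3⟩
      rintro rfl
      rw [zero_smul] at h3
      exact hy h3

theorem fz_finite [DecidableEq K] {F : MvPolynomial (Fin 3) K} {v : ι → Fin 3 → K} (h : FZ F v) :
    ¬ (ZZ F).Infinite := by
  rw [Set.not_infinite]
  refine (Set.finite_range (fun X => Projectivization.mk K (v X) (h.nz X))).subset ?_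
  intro Q hQ
  obtain ⟨X, κ, hκ, hX⟩ := h.compl Q.rep Q.rep_nonzero hQ
  refine ⟨X, ?_⟩
  rw [← Projectivization.mk_rep Q, Projectivization.mk_eq_mk_iff']
  exact ⟨κ⁻¹, by rw [hX, smul_smul, inv_mul_cancel₀ hκ, one_smul]⟩

end Facts

end Pool.Agent.H31.G5
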