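import Pool.Agent.H31.G5.Quad
import Pool.Agent.H31.G5.Conic

/-! # Degree four divisors in a plane -/

set_option autoImplicit false

namespace Pool.Agent.H31.G5

open Pool.Agent.H31.SX
open Matrix Polynomial

variable {K : Type*} [Field K]

/-- One form of the net. -/
noncomputable def frm (M : Fin 3 → Matrix (Fin 5) (Fin 5) K) (i : Fin 3) :
    (Fin 5 → K) →ₗ[K] (Fin 5 → K) →ₗ[K] K :=
  LinearMap.mk₂ K (fun x y => bv M x y i)
    (fun x y z => by rw [bv_add_left]; rfl) (fun r x y => by rw [bv_smul_left]; rfl)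
    (fun x y z => by rw [bv_add_right]; rfl) (fun r x y => by rw [bv_smul_right]; rfl)

/-- A combination of the forms of the net. -/
noncomputable def cmb (M : Fin 3 → Matrix (Fin 5) (Fin 5) K) (c : Fin 3 → K) :
    (Fin 5 → K) →ₗ[K] (Fin 5 → K) →ₗ[K] K :=
  LinearMap.mk₂ K (fun x y => dt c (bv M x y))
    (fun x y z => by rw [bv_add_left, dt_add]) (fun r x y => by rw [bv_smul_left, dt_smul]; rfl)
    (fun x y z => by rw [bv_add_right, dt_add]) (fun r x y => by rw [bv_smul_right, dt_smul]; rfl)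

theorem cmb_apply (M : Fin 3 → Matrix (Fin 5) (Fin 5) K) (c : Fin 3 → K) (x y : Fin 5 → K) :
    cmb M c x y = dt c (bv M x y) := rfl

theorem pick {c : Fin 3 → K} (hc : c ≠ 0) :
    ∃ i1 i2 : Fin 3, ∀ r : Fin 3 → K, r i1 = 0 → r i2 = 0 → dt c r = 0 → r = 0 := by
  by_cases h0 : c 0 = 0
  · by_cases h1 : c 1 = 0
    · by_cases h2 : c 2 = 0
      · exact absurd (ext3 h0 h1 h2) hc
      · refine ⟨0, 1, fun r e0 e1 e => ext3 e0 e1 ?_⟩
        unfold dt at e
        rw [e0, e1] at e
        have : c 2 * r 2 = 0 := by linear_combination e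
        exact (mul_eq_zero.mp this).resolve_left h2
    · refine ⟨0, 2, fun r e0 e2 e => ext3 e0 ?_ e2⟩
      unfold dt at e
      rw [e0, e2] at e
      have : c 1 * r 1 = 0 := by linear_combination e
      exact (mul_eq_zero.mp this).resolve_left h1
  · refine ⟨1, 2, fun r e1 e2 e => ext3 ?_ e1 e2⟩
    unfold dt at e
    rw [e1, e2] at e
    have : c 0 * r 0 = 0 := by linear_combination e
    exact (mul_eq_zero.mp this).resolve_left h0

theorem dt_ne {c : Fin 3 → K} (hc : c ≠ 0) : ∃ r, dt c r ≠ 0 := by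
  by_contra hno
  push Not at hno
  apply hc
  have e0 := hno ![1, 0, 0]
  have e1 := hno ![0, 1, 0]
  have e2 := hno ![0, 0, 1]
  unfold dt at e0 e1 e2
  refine ext3 ?_ ?_ ?_
  · simpa using e0
  · simpa using e1
  · simpa using e2

/-- A quadric of rank at most four. -/
theorem rank4 [CharZero K] (h4 : ∀ p : K[X], p.natDegree ≤ 4 → p.Splits)
    {M : Fin 3 → Matrix (Fin 5) (Fin 5) K} (hM : ∀ i, (M i).IsSymm) (hsm : Sm M)
    {c : Fin 3 → K} (hc : c ≠ 0) (h h' a b : (Fin 5 → K) →ₗ[K] K)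
    (hq : ∀ x, dt c (bv M x x) = h x * a x + h' x * b x) : Inf M := by
  obtain ⟨i1, i2, hpick⟩ := pick hc
  have key : ∀ s : K, ∃ x : Fin 5 → K, x ≠ 0 ∧ bv M x x = 0 ∧ b x = s * h x ∧
      a x = -(s * h' x) := by
    intro s
    set L : (Fin 5 → K) →ₗ[K] K × K := (b - s • h).prod (a + s • h') with hL
    have hfr : 3 ≤ Module.finrank K (LinearMap.ker L) := by
      have h1 := LinearMap.finrank_range_add_finrank_ker L
      have h2 : Module.finrank K (LinearMap.range L) ≤ Module.finrank K (K × K) :=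
        Submodule.finrank_le _
      rw [Module.finrank_prod, Module.finrank_self] at h2
      rw [Module.finrank_fin_fun] at h1
      omega
    obtain ⟨f, hf⟩ := exists_linearIndependent_of_le_finrank hfr
    rw [Fintype.linearIndependent_iff] at hf
    have hind : ∀ x y z : K, x • (f 0 : Fin 5 → K) + y • (f 1 : Fin 5 → K) +
        z • (f 2 : Fin 5 → K) = 0 → x = 0 ∧ y = 0 ∧ z = 0 := by
      intro x y z hxyz
      have h1 := hf ![x, y, z] (by
        rw [Fin.sum_univ_three]
        apply Subtype.ext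
        simpa using hxyz)
      exact ⟨h1 0, h1 1, h1 2⟩
    obtain ⟨x0, x1, x2, h1, h2, h3⟩ := conic h4 (frm M i1) (frm M i2)
      (fun x y => congrFun (bv_comm hM x y) i1) (fun x y => congrFun (bv_comm hM x y) i2) hind
    have hmem : x0 • (f 0 : Fin 5 → K) + x1 • (f 1 : Fin 5 → K) + x2 • (f 2 : Fin 5 → K) ∈
        LinearMap.ker L :=
      Submodule.add_mem _ (Submodule.add_mem _ (Submodule.smul_mem _ _ (f 0).2)
        (Submodule.smul_mem _ _ (f 1).2)) (Submodule.smul_mem _ _ (f 2).2)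
    have hmem' := LinearMap.mem_ker.mp hmem
    generalize x0 • (f 0 : Fin 5 → K) + x1 • (f 1 : Fin 5 → K) + x2 • (f 2 : Fin 5 → K) = w
      at hmem' h1 h2 h3
    have e1 : b w - s * h w = 0 := congrArg Prod.fst hmem'
    have e2 : a w + s * h' w = 0 := congrArg Prod.snd hmem'
    have e1' := sub_eq_zero.mp e1
    have e2' := eq_neg_of_add_eq_zero_left e2
    refine ⟨w, h1, hpick _ h2 h3 ?_, e1', e2'⟩
    rw [hq, e1', e2']
    ring
  choose x hx0 hxz hb ha using key
  refine ⟨x, hx0, hxz, ?_⟩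
  intro s s' hss κ hκ
  have hκ0 : κ ≠ 0 := by
    rintro rfl
    exact hx0 s (by rw [hκ, zero_smul])
  have hb1 := hb s
  have ha1 := ha s
  rw [hκ] at hb1 ha1
  simp only [map_smul, smul_eq_mul] at hb1 ha1
  have hb2 := hb s'
  have ha2 := ha s'
  have hss' : s - s' ≠ 0 := sub_ne_zero.mpr hss
  have e1 : h (x s') = 0 := by
    have : κ * (s - s') * h (x s') = 0 := by rw [hb2] at hb1; linear_combination -hb1
    exact (mul_eq_zero.mp this).resolve_left (mul_ne_zero hκ0 hss')
  have e2 : h' (x s') = 0 := by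
    have : κ * (s - s') * h' (x s') = 0 := by rw [ha2] at ha1; linear_combination ha1
    exact (mul_eq_zero.mp this).resolve_left (mul_ne_zero hκ0 hss')
  have e3 : b (x s') = 0 := by rw [hb2, e1, mul_zero]
  have e4 : a (x s') = 0 := by rw [ha2, e2, mul_zero, neg_zero]
  obtain ⟨r, hr⟩ := dt_ne hc
  obtain ⟨z, hz⟩ := hsm (x s') (hx0 s') (hxz s') r
  apply hr
  have h1 := hq (x s' + z)
  have h2 := hq z
  rw [bv_add_left, bv_add_right, bv_add_right, bv_comm hM z (x s'), hxz s', hz] at h1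
  simp only [map_add, e1, e2, e3, e4, zero_add, dt_add] at h1
  have h3 : 2 * dt c r = 0 := by linear_combination h1 - h2
  exact (mul_eq_zero.mp h3).resolve_left two_ne_zero

/-- A quadric containing a plane. -/
theorem plane [CharZero K] (h4 : ∀ p : K[X], p.natDegree ≤ 4 → p.Splits)
    {M : Fin 3 → Matrix (Fin 5) (Fin 5) K} (hM : ∀ i, (M i).IsSymm) (hsm : Sm M)
    {c : Fin 3 → K} (hc : c ≠ 0) (W : Submodule K (Fin 5 → K)) (hW : Module.finrank K W = 3)
    (hv : ∀ w ∈ W, ∀ w' ∈ W, dt c (bv M w w') = 0) : Inf M := by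
  have hq : Module.finrank K ((Fin 5 → K) ⧸ W) = 2 := by
    have := W.finrank_quotient_add_finrank
    rw [Module.finrank_fin_fun] at this
    omega
  set b := Module.finBasisOfFinrankEq K ((Fin 5 → K) ⧸ W) hq with hb
  obtain ⟨u, hu⟩ := W.mkQ_surjective (b 0)
  obtain ⟨v, hv'⟩ := W.mkQ_surjective (b 1)
  set h : (Fin 5 → K) →ₗ[K] K := (b.coord 0).comp W.mkQ with hh
  set h' : (Fin 5 → K) →ₗ[K] K := (b.coord 1).comp W.mkQ with hh'
  set G := cmb M c with hG
  have hGs : ∀ x y, G x y = G y x := fun x y => by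
    rw [hG, cmb_apply, cmb_apply, bv_comm hM]
  set pr : (Fin 5 → K) →ₗ[K] (Fin 5 → K) :=
    LinearMap.id - h.smulRight u - h'.smulRight v with hpr
  have hprx : ∀ x, pr x = x - h x • u - h' x • v := fun x => rfl
  have hmem : ∀ x, pr x ∈ W := by
    intro x
    rw [← Submodule.ker_mkQ W, LinearMap.mem_ker, hprx, map_sub, map_sub, map_smul, map_smul, hu,
      hv']
    have h1 := b.sum_repr (W.mkQ x)
    rw [Fin.sum_univ_two] at h1
    have h2 : h x = b.repr (W.mkQ x) 0 := rfl
    have h3 : h' x = b.repr (W.mkQ x) 1 := rfl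
    rw [h2, h3]
    nth_rewrite 1 [← h1]
    abel
  refine rank4 h4 hM hsm hc h h' ((2 : K) • ((G u).comp pr) + (G u u) • h + (2 * G u v) • h')
    ((2 : K) • ((G v).comp pr) + (G v v) • h') ?_
  intro x
  have h1 : x = pr x + h x • u + h' x • v := by rw [hprx]; abel
  have h2 : G (pr x) (pr x) = 0 := hv _ (hmem x) _ (hmem x)
  have h3 : dt c (bv M x x) = G x x := rfl
  rw [h3]
  have h5 : G x x = G (pr x + h x • u + h' x • v) (pr x + h x • u + h' x • v) := by rw [← h1]
  rw [h5]
  simp only [map_add, map_smul, LinearMap.add_apply, LinearMap.smul_apply, smul_eq_mul,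
    LinearMap.comp_apply, h2]
  rw [hGs (pr x) u, hGs (pr x) v, hGs v u]
  ring

theorem plane3 [CharZero K] (h4 : ∀ p : K[X], p.natDegree ≤ 4 → p.Splits)
    {M : Fin 3 → Matrix (Fin 5) (Fin 5) K} (hM : ∀ i, (M i).IsSymm) (hsm : Sm M)
    {c : Fin 3 → K} (hc : c ≠ 0) {w0 w1 w2 : Fin 5 → K}
    (hind : ∀ x y z : K, x • w0 + y • w1 + z • w2 = 0 → x = 0 ∧ y = 0 ∧ z = 0)
    (h00 : dt c (bv M w0 w0) = 0) (h11 : dt c (bv M w1 w1) = 0) (h22 : dt c (bv M w2 w2) = 0)
    (h01 : dt c (bv M w0 w1) = 0) (h02 : dt c (bv M w0 w2) = 0) (h12 : dt c (bv M w1 w2) = 0) :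
    Inf M := by
  have hli : LinearIndependent K ![w0, w1, w2] := by
    rw [Fintype.linearIndependent_iff]
    intro g hg
    rw [Fin.sum_univ_three] at hg
    obtain ⟨e0, e1, e2⟩ := hind (g 0) (g 1) (g 2) hg
    intro i
    fin_cases i
    · exact e0
    · exact e1
    · exact e2
  refine plane h4 hM hsm hc (Submodule.span K (Set.range ![w0, w1, w2])) ?_ ?_
  · rw [finrank_span_eq_card hli]
    rfl
  · intro w hw w' hw'
    rw [Submodule.mem_span_range_iff_exists_fun] at hw hw'
    obtain ⟨g, rfl⟩ := hw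
    obtain ⟨g', rfl⟩ := hw'
    rw [Fin.sum_univ_three, Fin.sum_univ_three]
    change cmb M c (g 0 • w0 + g 1 • w1 + g 2 • w2) (g' 0 • w0 + g' 1 • w1 + g' 2 • w2) = 0
    have hs : ∀ x y, cmb M c x y = cmb M c y x := fun x y => by
      rw [cmb_apply, cmb_apply, bv_comm hM]
    have k00 : cmb M c w0 w0 = 0 := h00
    have k11 : cmb M c w1 w1 = 0 := h11
    have k22 : cmb M c w2 w2 = 0 := h22
    have k01 : cmb M c w0 w1 = 0 := h01
    have k02 : cmb M c w0 w2 = 0 := h02
    have k12 : cmb M c w1 w2 = 0 := h12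
    simp only [map_add, map_smul, LinearMap.add_apply, LinearMap.smul_apply, smul_eq_mul]
    rw [hs w1 w0, hs w2 w0, hs w2 w1, k00, k11, k22, k01, k02, k12]
    ring

/-- Dependent vectors have a common orthogonal vector. -/
theorem dep3 {g1 g2 g3 : Fin 3 → K} {l1 l2 l3 : K} (hl : ¬ (l1 = 0 ∧ l2 = 0 ∧ l3 = 0))
    (hrel : l1 • g1 + l2 • g2 + l3 • g3 = 0) :
    ∃ c : Fin 3 → K, c ≠ 0 ∧ dt c g1 = 0 ∧ dt c g2 = 0 ∧ dt c g3 = 0 := by
  have h1 : (Matrix.of ![g1, g2, g3]).det = 0 := by
    apply Matrix.exists_vecMul_eq_zero_iff.mp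
    refine ⟨![l1, l2, l3], ?_, ?_⟩
    · intro h0
      exact hl ⟨congrFun h0 0, congrFun h0 1, congrFun h0 2⟩
    · funext j
      have := congrFun hrel j
      simp only [Matrix.vecMul, dotProduct, Fin.sum_univ_three, Pi.zero_apply]
      simpa using this
  obtain ⟨c, hc, hc0⟩ := Matrix.exists_mulVec_eq_zero_iff.mpr h1
  refine ⟨c, hc, ?_, ?_, ?_⟩
  · have := congrFun hc0 0
    simp only [Matrix.mulVec, dotProduct, Fin.sum_univ_three] at this
    unfold dt
    simp at this
    linear_combination this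
  · have := congrFun hc0 1
    simp only [Matrix.mulVec, dotProduct, Fin.sum_univ_three] at this
    unfold dt
    simp at this
    linear_combination this
  · have := congrFun hc0 2
    simp only [Matrix.mulVec, dotProduct, Fin.sum_univ_three] at this
    unfold dt
    simp at this
    linear_combination this

/-- A line in the intersection. -/
theorem line_inf {M : Fin 3 → Matrix (Fin 5) (Fin 5) K} (hM : ∀ i, (M i).IsSymm)
    {u v : Fin 5 → K} (hv0 : v ≠ 0) (huv : ∀ κ : K, u ≠ κ • v) (h1 : bv M u u = 0)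
    (h2 : bv M u v = 0) (h3 : bv M v v = 0) : Inf M := by
  refine ⟨fun s => u + s • v, ?_, ?_, ?_⟩
  · intro s h0
    apply huv (-s)
    rw [eq_neg_of_add_eq_zero_left h0]
    module
  · intro s
    simp only [bv_add_left, bv_add_right, bv_smul_left, bv_smul_right]
    rw [bv_comm hM v u, h1, h2, h3]
    simp
  · intro s s' hss κ hκ
    change u + s • v = κ • (u + s' • v) at hκ
    have hE : (1 - κ) • u = (κ * s' - s) • v := by
      have : u + s • v = κ • u + (κ * s') • v := by rw [hκ]; module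
      calc (1 - κ) • u = (u + s • v) - κ • u - s • v := by module
        _ = (κ * s' - s) • v := by rw [this]; module
    by_cases hκ1 : 1 - κ = 0
    · rw [hκ1, zero_smul] at hE
      have h5 := (smul_eq_zero.mp hE.symm).resolve_right hv0
      have h6 : κ = 1 := by linear_combination -hκ1
      rw [h6] at h5
      exact hss (by linear_combination -h5)
    · apply huv ((1 - κ)⁻¹ * (κ * s' - s))
      rw [mul_smul, ← hE, smul_smul, inv_mul_cancel₀ hκ1, one_smul]

end Pool.Agent.H31.G5
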