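import Pool.Agent.H31.SX.Main

/-! # Nets of quadratic forms in five variables -/

set_option autoImplicit false

namespace Pool.Agent.H31.G5

open Pool.Agent.H31.SX
open Matrix

variable {K : Type*} [Field K] {R : Type*} [CommRing R] [Algebra K R]

/-- The vectors `(x^T M_i y)_i`. -/
def bv (M : Fin 3 → Matrix (Fin 5) (Fin 5) K) (x y : Fin 5 → R) : Fin 3 → R :=
  fun i => x ⬝ᵥ ((M i).map (algebraMap K R)) *ᵥ y

theorem bv_add_left (M : Fin 3 → Matrix (Fin 5) (Fin 5) K) (x y z : Fin 5 → R) :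
    bv M (x + y) z = bv M x z + bv M y z := by
  funext i
  simp only [bv, Pi.add_apply, add_dotProduct]

theorem bv_add_right (M : Fin 3 → Matrix (Fin 5) (Fin 5) K) (x y z : Fin 5 → R) :
    bv M x (y + z) = bv M x y + bv M x z := by
  funext i
  simp only [bv, Pi.add_apply, Matrix.mulVec_add, dotProduct_add]

theorem bv_smul_left (M : Fin 3 → Matrix (Fin 5) (Fin 5) K) (r : R) (x y : Fin 5 → R) :
    bv M (r • x) y = r • bv M x y := by
  funext i
  simp only [bv, Pi.smul_apply, smul_dotProduct]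

theorem bv_smul_right (M : Fin 3 → Matrix (Fin 5) (Fin 5) K) (r : R) (x y : Fin 5 → R) :
    bv M x (r • y) = r • bv M x y := by
  funext i
  simp only [bv, Pi.smul_apply, Matrix.mulVec_smul, dotProduct_smul]

theorem bv_zero_left (M : Fin 3 → Matrix (Fin 5) (Fin 5) K) (y : Fin 5 → R) :
    bv M 0 y = 0 := by
  funext i
  simp [bv]

theorem bv_zero_right (M : Fin 3 → Matrix (Fin 5) (Fin 5) K) (y : Fin 5 → R) :
    bv M y 0 = 0 := by
  funext i
  simp [bv]

theorem bv_comm {M : Fin 3 → Matrix (Fin 5) (Fin 5) K} (hM : ∀ i, (M i).IsSymm)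
    (x y : Fin 5 → R) : bv M x y = bv M y x := by
  funext i
  simp only [bv]
  rw [Matrix.dotProduct_mulVec, ← Matrix.mulVec_transpose, ← Matrix.transpose_map, (hM i).eq,
    dotProduct_comm]

theorem bv_map (M : Fin 3 → Matrix (Fin 5) (Fin 5) K) {R' : Type*} [CommRing R'] [Algebra K R']
    (f : R →ₐ[K] R') (x y : Fin 5 → R) : f ∘ (bv M x y) = bv M (f ∘ x) (f ∘ y) := by
  funext i
  simp only [bv, Function.comp, dotProduct, Matrix.mulVec, map_sum, map_mul, Matrix.map_apply,
    AlgHom.commutes]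

theorem bv_base (M : Fin 3 → Matrix (Fin 5) (Fin 5) K) (x y : Fin 5 → K) (i : Fin 3) :
    bv M x y i = x ⬝ᵥ (M i) *ᵥ y := by
  simp [bv]

/-- The linear map `bv M x`. -/
noncomputable def bvl (M : Fin 3 → Matrix (Fin 5) (Fin 5) K) (x : Fin 5 → K) :
    (Fin 5 → K) →ₗ[K] (Fin 3 → K) where
  toFun := bv M x
  map_add' := bv_add_right M x
  map_smul' := fun r y => bv_smul_right M r x y

/-- Smoothness at the rational points. -/
def Sm (M : Fin 3 → Matrix (Fin 5) (Fin 5) K) : Prop :=
  ∀ x : Fin 5 → K, x ≠ 0 → bv M x x = 0 → Function.Surjective (bv M x)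

/-- There is an infinite family of points. -/
def Inf (M : Fin 3 → Matrix (Fin 5) (Fin 5) K) : Prop :=
  ∃ x : K → Fin 5 → K, (∀ s, x s ≠ 0) ∧ (∀ s, bv M (x s) (x s) = 0) ∧
    ∀ s s', s ≠ s' → ∀ κ : K, x s ≠ κ • x s'

theorem sm_of_ind {M : Fin 3 → Matrix (Fin 5) (Fin 5) K} (hM : ∀ i, (M i).IsSymm)
    (h : ∀ x : Fin 5 → K, x ≠ 0 → (∀ i, x ⬝ᵥ (M i) *ᵥ x = 0) →
      LinearIndependent K (fun i => (M i) *ᵥ x)) : Sm M := by
  intro x hx hz
  have hli := h x hx (fun i => by rw [← bv_base]; exact congrFun hz i)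
  have hrank : (Matrix.of (fun i => (M i) *ᵥ x)).rank = 3 := by
    have h1 := LinearIndependent.rank_matrix (M := Matrix.of (fun i => (M i) *ᵥ x)) hli
    simpa using h1
  have htop : LinearMap.range (Matrix.of (fun i => (M i) *ᵥ x)).mulVecLin = ⊤ := by
    apply Submodule.eq_top_of_finrank_eq
    rw [Module.finrank_fin_fun]
    exact hrank
  intro r
  have hr : r ∈ LinearMap.range (Matrix.of (fun i => (M i) *ᵥ x)).mulVecLin := by
    rw [htop]; trivial
  obtain ⟨z, hz'⟩ := hr
  refine ⟨z, ?_⟩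
  rw [← hz']
  funext i
  rw [bv_base, Matrix.mulVecLin_apply]
  change _ = ((M i) *ᵥ x) ⬝ᵥ z
  rw [Matrix.dotProduct_mulVec, ← Matrix.mulVec_transpose, (hM i).eq]

section Tangent

variable {M : Fin 3 → Matrix (Fin 5) (Fin 5) K}

theorem ker_finrank (hsm : Sm M) {x : Fin 5 → K} (hx : x ≠ 0) (hz : bv M x x = 0) :
    Module.finrank K (LinearMap.ker (bvl M x)) = 2 := by
  have h1 := LinearMap.finrank_range_add_finrank_ker (bvl M x)
  have h2 : LinearMap.range (bvl M x) = ⊤ := LinearMap.range_eq_top.mpr (hsm x hx hz)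
  rw [h2, finrank_top, Module.finrank_fin_fun, Module.finrank_fin_fun] at h1
  omega

/-- There is a tangent vector. -/
theorem exists_tangent (hsm : Sm M) {x : Fin 5 → K} (hx : x ≠ 0) (hz : bv M x x = 0) :
    ∃ t : Fin 5 → K, bv M x t = 0 ∧ ∀ κ : K, t ≠ κ • x := by
  by_contra hno
  push Not at hno
  have hle : LinearMap.ker (bvl M x) ≤ K ∙ x := by
    intro t ht
    obtain ⟨κ, hκ⟩ := hno t (LinearMap.mem_ker.mp ht)
    rw [hκ]
    exact Submodule.smul_mem _ _ (Submodule.mem_span_singleton_self x)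
  have h1 := Submodule.finrank_mono hle
  rw [ker_finrank hsm hx hz, finrank_span_singleton hx] at h1
  omega

/-- The tangent line. -/
theorem tangent_span (hsm : Sm M) {x t z : Fin 5 → K} (hx : x ≠ 0) (hz : bv M x x = 0)
    (ht : bv M x t = 0) (htx : ∀ κ : K, t ≠ κ • x) (hzz : bv M x z = 0) :
    ∃ a b : K, z = a • x + b • t := by
  have hli : LinearIndependent K ![x, t] := by
    rw [LinearIndependent.pair_iff]
    intro a b hab
    have hb : b = 0 := by
      by_contra hb
      apply htx (-(b⁻¹ * a))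
      have : t = b⁻¹ • (b • t) := by rw [smul_smul, inv_mul_cancel₀ hb, one_smul]
      rw [this, eq_neg_of_add_eq_zero_right hab]
      module
    subst hb
    rw [zero_smul, add_zero] at hab
    exact ⟨(smul_eq_zero.mp hab).resolve_right hx, rfl⟩
  have hle : Submodule.span K (Set.range ![x, t]) ≤ LinearMap.ker (bvl M x) := by
    rw [Submodule.span_le]
    rintro _ ⟨i, rfl⟩
    fin_cases i
    · exact hz
    · exact ht
  have hfr : Module.finrank K (Submodule.span K (Set.range ![x, t])) = 2 := by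
    rw [finrank_span_eq_card hli]
    rfl
  have hEq := Submodule.eq_of_le_of_finrank_eq hle (by rw [hfr, ker_finrank hsm hx hz])
  have hmem : z ∈ Submodule.span K (Set.range ![x, t]) := by
    rw [hEq]
    exact hzz
  rw [Matrix.range_cons, Matrix.range_cons, Matrix.range_empty, Set.union_empty,
    Set.singleton_union, Submodule.mem_span_pair] at hmem
  obtain ⟨a, b, hab⟩ := hmem
  exact ⟨a, b, hab.symm⟩

end Tangent

end Pool.Agent.H31.G5
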