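import Pool.Agent.H31.G5.Quad
import Pool.Agent.H31.G5.Conic

/-! # The plane sextic -/

set_option autoImplicit false

namespace Pool.Agent.H31.G5

open Pool.Agent.H31.SX
open Matrix Polynomial

variable {K : Type*} [Field K]

section Alg

variable {R : Type*} [CommRing R] [Algebra K R]

/-- Constants. -/
def am {n : ℕ} (c : Fin n → K) : Fin n → R := fun i => algebraMap K R (c i)

/-- A linear map. -/
def al (a : Matrix (Fin 3) (Fin 3) K) (y : Fin 3 → R) : Fin 3 → R :=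
  (a.map (algebraMap K R)) *ᵥ y

/-- A quadratic map. -/
def ga (G : Fin 3 → Matrix (Fin 3) (Fin 3) K) (y : Fin 3 → R) : Fin 3 → R :=
  fun i => y ⬝ᵥ ((G i).map (algebraMap K R)) *ᵥ y

/-- The sextic of four vectors. -/
def sx (c α β γ : Fin 3 → R) : R := d3 c γ β * d3 c α γ + d3 γ α β * d3 c α β

/-- The sextic. -/
def ff (c : Fin 3 → K) (a b : Matrix (Fin 3) (Fin 3) K) (G : Fin 3 → Matrix (Fin 3) (Fin 3) K)
    (y : Fin 3 → R) : R := sx (am c) (al a y) (al b y) (ga G y)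

theorem sx_identity (c α β γ : Fin 3 → R) (x0 x1 : R) (Q : Fin 3 → R)
    (hQ : γ = Q - (x0 * x1) • c - x0 • α - x1 • β) :
    sx c α β γ = d3 c Q β * d3 c α Q - x1 * d3 c α β * d3 c Q β - x0 * d3 c α β * d3 c α Q +
      d3 c α β * d3 Q α β := by
  have h1 : d3 c γ β = d3 c Q β - x0 * d3 c α β := by
    rw [hQ]; unfold d3 dt; simp; ring
  have h2 : d3 c α γ = d3 c α Q - x1 * d3 c α β := by
    rw [hQ]; unfold d3 dt; simp; ring
  have h3 : d3 γ α β = d3 Q α β - x0 * x1 * d3 c α β := by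
    rw [hQ]; unfold d3 dt; simp; ring
  unfold sx
  rw [h1, h2, h3]
  ring

theorem d3_dvd2 {r : R} (c Q β : Fin 3 → R) (h : ∀ i, r ∣ Q i) : r ∣ d3 c Q β := by
  choose q hq using h
  have : Q = r • q := funext hq
  rw [this, d3_smul2]
  exact Dvd.intro _ rfl

theorem d3_dvd3 {r : R} (c β Q : Fin 3 → R) (h : ∀ i, r ∣ Q i) : r ∣ d3 c β Q := by
  choose q hq using h
  have : Q = r • q := funext hq
  rw [this, d3_smul3]
  exact Dvd.intro _ rfl

theorem d3_dvd1 {r : R} (Q c β : Fin 3 → R) (h : ∀ i, r ∣ Q i) : r ∣ d3 Q c β := by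
  choose q hq using h
  have : Q = r • q := funext hq
  rw [this, d3_smul1]
  exact Dvd.intro _ rfl

theorem sx_dvd {r : R} (c α β γ : Fin 3 → R) (x0 x1 : R)
    (h : ∀ i, r ∣ ((x0 * x1) • c + x0 • α + x1 • β + γ) i) : r ∣ sx c α β γ := by
  rw [sx_identity c α β γ x0 x1 ((x0 * x1) • c + x0 • α + x1 • β + γ) (by abel)]
  refine dvd_add (dvd_sub (dvd_sub ?_ ?_) ?_) ?_
  · exact Dvd.dvd.mul_right (d3_dvd2 _ _ _ h) _
  · exact Dvd.dvd.mul_left (d3_dvd2 _ _ _ h) _
  · exact Dvd.dvd.mul_left (d3_dvd3 _ _ _ h) _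
  · exact Dvd.dvd.mul_left (d3_dvd1 _ _ _ h) _

theorem sx_zero {c α β γ : Fin 3 → R} (x0 x1 : R)
    (h : (x0 * x1) • c + x0 • α + x1 • β + γ = 0) : sx c α β γ = 0 := by
  have h1 : (0 : R) ∣ sx c α β γ := sx_dvd c α β γ x0 x1 (fun i => by rw [h]; simp)
  exact zero_dvd_iff.mp h1

theorem sx_map {R' : Type*} [CommRing R'] (f : R →+* R') (c α β γ : Fin 3 → R) :
    f (sx c α β γ) = sx (f ∘ c) (f ∘ α) (f ∘ β) (f ∘ γ) := by
  unfold sx
  rw [map_add, map_mul, map_mul, d3_map, d3_map, d3_map, d3_map]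

theorem ff_map {R' : Type*} [CommRing R'] [Algebra K R'] (f : R →ₐ[K] R') (c : Fin 3 → K)
    (a b : Matrix (Fin 3) (Fin 3) K) (G : Fin 3 → Matrix (Fin 3) (Fin 3) K) (y : Fin 3 → R) :
    f (ff c a b G y) = ff c a b G (f ∘ y) := by
  have h := sx_map (f : R →+* R') (am c) (al a y) (al b y) (ga G y)
  have h1 : (f : R →+* R') ∘ (am c : Fin 3 → R) = am c := by
    funext i
    simp [am]
  have h2 : ∀ a : Matrix (Fin 3) (Fin 3) K, (f : R →+* R') ∘ (al a y) = al a (f ∘ y) := by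
    intro a
    funext i
    simp [al, Matrix.mulVec, dotProduct]
  have h3 : (f : R →+* R') ∘ (ga G y) = ga G (f ∘ y) := by
    funext i
    simp [ga, Matrix.mulVec, dotProduct]
  rw [h1, h2, h2, h3] at h
  exact h

end Alg

theorem al_smul {R : Type*} [CommRing R] [Algebra K R] (a : Matrix (Fin 3) (Fin 3) K) (r : R)
    (y : Fin 3 → R) : al a (r • y) = r • al a y := by
  unfold al
  rw [Matrix.mulVec_smul]

theorem ga_smul {R : Type*} [CommRing R] [Algebra K R] (G : Fin 3 → Matrix (Fin 3) (Fin 3) K)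
    (r : R) (y : Fin 3 → R) : ga G (r • y) = r ^ 2 • ga G y := by
  funext i
  simp only [ga, Matrix.mulVec_smul, dotProduct_smul, smul_dotProduct, Pi.smul_apply, smul_eq_mul]
  ring

theorem ff_smul {R : Type*} [CommRing R] [Algebra K R] (c : Fin 3 → K)
    (a b : Matrix (Fin 3) (Fin 3) K) (G : Fin 3 → Matrix (Fin 3) (Fin 3) K) (r : R)
    (y : Fin 3 → R) : ff c a b G (r • y) = r ^ 6 * ff c a b G y := by
  unfold ff sx
  rw [al_smul, al_smul, ga_smul]
  simp only [d3_smul1, d3_smul2, d3_smul3]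
  ring

/-- The sextic form. -/
noncomputable def FF (c : Fin 3 → K) (a b : Matrix (Fin 3) (Fin 3) K)
    (G : Fin 3 → Matrix (Fin 3) (Fin 3) K) : MvPolynomial (Fin 3) K := ff c a b G MvPolynomial.X

theorem aeval_FF {R : Type*} [CommRing R] [Algebra K R] (c : Fin 3 → K)
    (a b : Matrix (Fin 3) (Fin 3) K) (G : Fin 3 → Matrix (Fin 3) (Fin 3) K) (y : Fin 3 → R) :
    MvPolynomial.aeval y (FF c a b G) = ff c a b G y := by
  unfold FF
  rw [ff_map (MvPolynomial.aeval y)]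
  congr 1
  funext i
  simp

theorem eval_FF (c : Fin 3 → K) (a b : Matrix (Fin 3) (Fin 3) K)
    (G : Fin 3 → Matrix (Fin 3) (Fin 3) K) (y : Fin 3 → K) :
    MvPolynomial.eval y (FF c a b G) = ff c a b G y := by
  rw [← aeval_FF, MvPolynomial.aeval_def, MvPolynomial.eval, Algebra.algebraMap_self]
  rfl

theorem d3_hom {a b c : Fin 3 → MvPolynomial (Fin 3) K} {p q r : ℕ}
    (ha : ∀ i, (a i).IsHomogeneous p) (hb : ∀ i, (b i).IsHomogeneous q)
    (hc : ∀ i, (c i).IsHomogeneous r) : (d3 a b c).IsHomogeneous (p + q + r) := by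
  unfold d3 dt
  simp only [cr_zero, cr_one, cr_two]
  exact (((((ha 1).mul (hb 2)).sub ((ha 2).mul (hb 1))).mul (hc 0)).add
    ((((ha 2).mul (hb 0)).sub ((ha 0).mul (hb 2))).mul (hc 1))).add
    ((((ha 0).mul (hb 1)).sub ((ha 1).mul (hb 0))).mul (hc 2))

theorem FF_hom (c : Fin 3 → K) (a b : Matrix (Fin 3) (Fin 3) K)
    (G : Fin 3 → Matrix (Fin 3) (Fin 3) K) : (FF c a b G).IsHomogeneous 6 := by
  have hc : ∀ i, ((am c : Fin 3 → MvPolynomial (Fin 3) K) i).IsHomogeneous 0 := fun i =>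
    MvPolynomial.isHomogeneous_C _ _
  have hl : ∀ (a : Matrix (Fin 3) (Fin 3) K) i,
      ((al a (MvPolynomial.X : Fin 3 → MvPolynomial (Fin 3) K)) i).IsHomogeneous 1 := by
    intro a i
    unfold al Matrix.mulVec dotProduct
    refine MvPolynomial.IsHomogeneous.sum _ _ _ fun j _ => ?_
    exact MvPolynomial.isHomogeneous_C_mul_X _ _
  have hg : ∀ i, ((ga G (MvPolynomial.X : Fin 3 → MvPolynomial (Fin 3) K)) i).IsHomogeneous 2 := by
    intro i
    have h2 : (2 : ℕ) = 1 + 1 := rfl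
    unfold ga dotProduct
    rw [h2]
    refine MvPolynomial.IsHomogeneous.sum _ _ _ fun j _ => ?_
    exact (MvPolynomial.isHomogeneous_X _ _).mul (hl (G i) j)
  have h1 := (d3_hom hc hg (hl b)).mul (d3_hom hc (hl a) hg)
  have h2 := (d3_hom hg (hl a) (hl b)).mul (d3_hom hc (hl a) (hl b))
  exact h1.add h2

/-- The zeros of the sextic. -/
theorem zero_cases (h4 : ∀ p : K[X], p.natDegree ≤ 4 → p.Splits) {c α β γ : Fin 3 → K}
    (hc : c ≠ 0) (h : sx c α β γ = 0) :
    (∃ x0 x1 : K, (x0 * x1) • c + x0 • α + x1 • β + γ = 0) ∨ (∃ s : K, α = s • c) ∨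
      (∃ s : K, β = s • c) := by
  by_cases hΔ : d3 c α β = 0
  · by_cases h1 : cr α c = 0
    · exact Or.inr (Or.inl (parallel h1 hc))
    · by_cases h2 : cr β c = 0
      · exact Or.inr (Or.inr (parallel h2 hc))
      · left
        have h1' : cr c α ≠ 0 := by
          rw [cr_swap]
          exact neg_ne_zero.mpr h1
        obtain ⟨ν, μ, hβ⟩ := in_span h1' (x := β) hΔ
        have hμ : μ ≠ 0 := by
          rintro rfl
          apply h2
          rw [hβ, zero_smul, add_zero]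
          exact cr_smul_self _ _
        unfold sx at h
        rw [hΔ, mul_zero, add_zero] at h
        have hγ : d3 c α γ = 0 := by
          rcases mul_eq_zero.mp h with h3 | h3
          · have h5 : d3 c γ β = -(μ * d3 c α γ) := by
              rw [hβ]; unfold d3 dt; simp; ring
            rw [h5, neg_eq_zero] at h3
            exact (mul_eq_zero.mp h3).resolve_left hμ
          · exact h3
        obtain ⟨σ, ρ, hγ'⟩ := in_span h1' (x := γ) hγ
        obtain ⟨s, hs⟩ := quad_root h4 (ν - ρ) σ (neg_ne_zero.mpr hμ)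
        refine ⟨-(μ * s) - ρ, s, ?_⟩
        rw [hβ, hγ']
        have h6 : ((-(μ * s) - ρ) * s) • c + (-(μ * s) - ρ) • α + s • (ν • c + μ • α) +
            (σ • c + ρ • α) = (-μ * s ^ 2 + (ν - ρ) * s + σ) • c := by module
        rw [h6, hs, zero_smul]
  · left
    refine ⟨-(d3 c γ β / d3 c α β), -(d3 c α γ / d3 c α β), ?_⟩
    funext m
    have h1 := expand c α β γ m
    unfold sx at h
    simp only [Pi.add_apply, Pi.smul_apply, smul_eq_mul, Pi.zero_apply]
    have h2 : (d3 c α β) ^ 2 * (-(d3 c γ β / d3 c α β) * -(d3 c α γ / d3 c α β) * c m +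
        -(d3 c γ β / d3 c α β) * α m + -(d3 c α γ / d3 c α β) * β m + γ m) = 0 := by
      field_simp
      linear_combination (c m) * h + (d3 c α β) * h1
    exact (mul_eq_zero.mp h2).resolve_left (pow_ne_zero 2 hΔ)

end Pool.Agent.H31.G5
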