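import Pool.Agent.H31.G5.Plane

/-! # The shapes of divisors of degree four -/

set_option autoImplicit false

namespace Pool.Agent.H31.G5

open Pool.Agent.H31.SX
open Matrix Polynomial

variable {K : Type*} [Field K]

theorem ind3_of {A B z : Fin 5 → K} (hB0 : B ≠ 0) (hAB : ∀ κ : K, A ≠ κ • B)
    (hz : ∀ a b : K, z ≠ a • A + b • B) :
    ∀ x y t : K, x • A + y • B + t • z = 0 → x = 0 ∧ y = 0 ∧ t = 0 := by
  intro x y t h
  have ht : t = 0 := by
    by_contra ht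
    apply hz (-(t⁻¹ * x)) (-(t⁻¹ * y))
    have h1 : t • z = -(x • A + y • B) := by rw [eq_neg_iff_add_eq_zero, ← h]; abel
    calc z = t⁻¹ • (t • z) := by rw [smul_smul, inv_mul_cancel₀ ht, one_smul]
      _ = _ := by rw [h1]; module
  subst ht
  rw [zero_smul, add_zero] at h
  have hx : x = 0 := by
    by_contra hx
    apply hAB (-(x⁻¹ * y))
    have h1 : x • A = -(y • B) := by rw [eq_neg_iff_add_eq_zero, ← h]
    calc A = x⁻¹ • (x • A) := by rw [smul_smul, inv_mul_cancel₀ hx, one_smul]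
      _ = _ := by rw [h1]; module
  subst hx
  rw [zero_smul, zero_add] at h
  exact ⟨rfl, (smul_eq_zero.mp h).resolve_right hB0, rfl⟩

variable {M : Fin 3 → Matrix (Fin 5) (Fin 5) K}

theorem cross_ne (hM : ∀ i, (M i).IsSymm) (hfin : ¬ Inf M) {A B : Fin 5 → K}
    (hA : bv M A A = 0) (hB : bv M B B = 0) (hB0 : B ≠ 0) (hAB : ∀ κ : K, A ≠ κ • B) :
    bv M A B ≠ 0 := fun h => hfin (line_inf hM hB0 hAB hA h hB)

theorem planeAB [CharZero K] (h4 : ∀ p : K[X], p.natDegree ≤ 4 → p.Splits)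
    (hM : ∀ i, (M i).IsSymm) (hsm : Sm M) {A B z : Fin 5 → K} (hA : bv M A A = 0)
    (hB : bv M B B = 0) (hB0 : B ≠ 0) (hAB : ∀ κ : K, A ≠ κ • B)
    (hz : ∀ a b : K, z ≠ a • A + b • B) {c : Fin 3 → K} (hc : c ≠ 0)
    (k1 : dt c (bv M A B) = 0) (k2 : dt c (bv M A z) = 0) (k3 : dt c (bv M B z) = 0)
    (k4 : dt c (bv M z z) = 0) : Inf M := by
  have hd0 : dt c (0 : Fin 3 → K) = 0 := by unfold dt; simp
  refine plane3 h4 hM hsm hc (ind3_of hB0 hAB hz) ?_ ?_ k4 k1 k2 k3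
  · rw [hA, hd0]
  · rw [hB, hd0]

/-- Three points are not collinear. -/
theorem sh1a [CharZero K] (hM : ∀ i, (M i).IsSymm) (hfin : ¬ Inf M) {A B X : Fin 5 → K}
    (hA : bv M A A = 0) (hB : bv M B B = 0) (hX : bv M X X = 0) (hB0 : B ≠ 0)
    (hAB : ∀ κ : K, A ≠ κ • B) (hXA : ∀ κ : K, X ≠ κ • A) (hXB : ∀ κ : K, X ≠ κ • B)
    (a b : K) : X ≠ a • A + b • B := by
  intro h
  rw [h] at hX
  simp only [bv_add_left, bv_add_right, bv_smul_left, bv_smul_right] at hX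
  rw [bv_comm hM B A, hA, hB] at hX
  have h1 : (2 * (a * b)) • bv M A B = 0 := by
    rw [← hX]; module
  have h2 := (smul_eq_zero.mp h1).resolve_right (cross_ne hM hfin hA hB hB0 hAB)
  have h3 : a * b = 0 := (mul_eq_zero.mp h2).resolve_left two_ne_zero
  rcases mul_eq_zero.mp h3 with h4 | h4
  · exact hXB b (by rw [h, h4, zero_smul, zero_add])
  · exact hXA a (by rw [h, h4, zero_smul, add_zero])

/-- Four points are not coplanar. -/
theorem sh1b [CharZero K] (h4 : ∀ p : K[X], p.natDegree ≤ 4 → p.Splits)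
    (hM : ∀ i, (M i).IsSymm) (hsm : Sm M) (hfin : ¬ Inf M) {A B X Y : Fin 5 → K}
    (hA : bv M A A = 0) (hB : bv M B B = 0) (hX : bv M X X = 0) (hY : bv M Y Y = 0) (hB0 : B ≠ 0)
    (hAB : ∀ κ : K, A ≠ κ • B) (hXA : ∀ κ : K, X ≠ κ • A) (hXB : ∀ κ : K, X ≠ κ • B)
    (hYA : ∀ κ : K, Y ≠ κ • A) (hYB : ∀ κ : K, Y ≠ κ • B) (hYX : ∀ κ : K, Y ≠ κ • X)
    (u v s : K) : Y ≠ u • A + v • B + s • X := by
  intro h
  rw [h] at hY
  simp only [bv_add_left, bv_add_right, bv_smul_left, bv_smul_right] at hY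
  rw [bv_comm hM B A, bv_comm hM X A, bv_comm hM X B, hA, hB, hX] at hY
  have h1 : (2 * (u * v)) • bv M A B + (2 * (u * s)) • bv M A X + (2 * (v * s)) • bv M B X = 0 := by
    rw [← hY]; module
  by_cases hl : 2 * (u * v) = 0 ∧ 2 * (u * s) = 0 ∧ 2 * (v * s) = 0
  · obtain ⟨e1, e2, e3⟩ := hl
    have e1 := (mul_eq_zero.mp e1).resolve_left two_ne_zero
    have e2 := (mul_eq_zero.mp e2).resolve_left two_ne_zero
    have e3 := (mul_eq_zero.mp e3).resolve_left two_ne_zero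
    by_cases hu : u = 0
    · by_cases hv : v = 0
      · exact hYX s (by rw [h, hu, hv]; module)
      · have hs := (mul_eq_zero.mp e3).resolve_left hv
        exact hYB v (by rw [h, hu, hs]; module)
    · have hv := (mul_eq_zero.mp e1).resolve_left hu
      have hs := (mul_eq_zero.mp e2).resolve_left hu
      exact hYA u (by rw [h, hv, hs]; module)
  · obtain ⟨c, hc, k1, k2, k3⟩ := dep3 hl h1
    exact hfin (planeAB h4 hM hsm hA hB hB0 hAB (sh1a hM hfin hA hB hX hB0 hAB hXA hXB) hc k1 k2 k3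
      (by rw [hX]; unfold dt; simp))

/-- The tangent at the third point. -/
theorem sh1c [CharZero K] (h4 : ∀ p : K[X], p.natDegree ≤ 4 → p.Splits)
    (hM : ∀ i, (M i).IsSymm) (hsm : Sm M) (hfin : ¬ Inf M) {A B X t : Fin 5 → K}
    (hA : bv M A A = 0) (hB : bv M B B = 0) (hX : bv M X X = 0) (hB0 : B ≠ 0)
    (hAB : ∀ κ : K, A ≠ κ • B) (hXA : ∀ κ : K, X ≠ κ • A) (hXB : ∀ κ : K, X ≠ κ • B)
    (ht : bv M X t = 0) (htX : ∀ κ : K, t ≠ κ • X)
    (u v s : K) : t ≠ u • A + v • B + s • X := by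
  intro h
  rw [h] at ht
  simp only [bv_add_right, bv_smul_right] at ht
  rw [bv_comm hM X A, bv_comm hM X B, hX] at ht
  have h1 : (0 : K) • bv M A B + u • bv M A X + v • bv M B X = 0 := by
    rw [← ht]; module
  by_cases hl : (0 : K) = 0 ∧ u = 0 ∧ v = 0
  · obtain ⟨_, hu, hv⟩ := hl
    exact htX s (by rw [h, hu, hv]; module)
  · obtain ⟨c, hc, k1, k2, k3⟩ := dep3 hl h1
    exact hfin (planeAB h4 hM hsm hA hB hB0 hAB (sh1a hM hfin hA hB hX hB0 hAB hXA hXB) hc k1 k2 k3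
      (by rw [hX]; unfold dt; simp))

/-- The tangent at `A` does not contain `B`. -/
theorem sh2a (hM : ∀ i, (M i).IsSymm) (hfin : ¬ Inf M) {A B t : Fin 5 → K}
    (hA : bv M A A = 0) (hB : bv M B B = 0) (hB0 : B ≠ 0) (hAB : ∀ κ : K, A ≠ κ • B)
    (ht : bv M A t = 0) (htA : ∀ κ : K, t ≠ κ • A) (a b : K) : t ≠ a • A + b • B := by
  intro h
  rw [h] at ht
  simp only [bv_add_right, bv_smul_right] at ht
  rw [hA, smul_zero, zero_add] at ht
  have h2 := (smul_eq_zero.mp ht).resolve_right (cross_ne hM hfin hA hB hB0 hAB)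
  exact htA a (by rw [h, h2]; module)

theorem sh2b [CharZero K] (h4 : ∀ p : K[X], p.natDegree ≤ 4 → p.Splits)
    (hM : ∀ i, (M i).IsSymm) (hsm : Sm M) (hfin : ¬ Inf M) {A B X t : Fin 5 → K}
    (hA : bv M A A = 0) (hB : bv M B B = 0) (hX : bv M X X = 0) (hB0 : B ≠ 0)
    (hAB : ∀ κ : K, A ≠ κ • B) (hXA : ∀ κ : K, X ≠ κ • A) (hXB : ∀ κ : K, X ≠ κ • B)
    (ht : bv M A t = 0) (htA : ∀ κ : K, t ≠ κ • A)
    (u v s : K) : X ≠ u • A + v • B + s • t := by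
  intro h
  have hs : s ≠ 0 := by
    rintro rfl
    exact sh1a hM hfin hA hB hX hB0 hAB hXA hXB u v (by rw [h]; module)
  have hX' := hX
  rw [h] at hX'
  simp only [bv_add_left, bv_add_right, bv_smul_left, bv_smul_right] at hX'
  rw [bv_comm hM B A, bv_comm hM t A, bv_comm hM t B, hA, hB, ht] at hX'
  have h1 : (2 * (u * v)) • bv M A B + (2 * (v * s)) • bv M B t + (s * s) • bv M t t = 0 := by
    rw [← hX']; module
  obtain ⟨c, hc, k1, k2, k3⟩ := dep3 (fun hl => (mul_ne_zero hs hs) hl.2.2) h1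
  exact hfin (planeAB h4 hM hsm hA hB hB0 hAB (sh2a hM hfin hA hB hB0 hAB ht htA) hc k1
    (by rw [ht]; unfold dt; simp) k2 k3)

theorem sh2c [CharZero K] (h4 : ∀ p : K[X], p.natDegree ≤ 4 → p.Splits)
    (hM : ∀ i, (M i).IsSymm) (hsm : Sm M) (hfin : ¬ Inf M) {A B t t' : Fin 5 → K}
    (hA : bv M A A = 0) (hB : bv M B B = 0) (hA0 : A ≠ 0) (hB0 : B ≠ 0)
    (hAB : ∀ κ : K, A ≠ κ • B) (hBA : ∀ κ : K, B ≠ κ • A)
    (ht : bv M A t = 0) (htA : ∀ κ : K, t ≠ κ • A)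
    (ht' : bv M B t' = 0) (htB : ∀ κ : K, t' ≠ κ • B)
    (u v s : K) : t' ≠ u • A + v • B + s • t := by
  intro h
  have hs : s ≠ 0 := by
    rintro rfl
    exact sh2a hM hfin hB hA hA0 hBA ht' htB v u (by rw [h]; module)
  have h0 := ht'
  rw [h] at h0
  simp only [bv_add_right, bv_smul_right] at h0
  rw [bv_comm hM B A, hB] at h0
  have h1 : u • bv M A B + s • bv M B t + (0 : K) • bv M t t = 0 := by
    rw [← h0]; module
  obtain ⟨c, hc, k1, k2, k3⟩ := dep3 (fun hl => hs hl.2.1) h1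
  exact hfin (planeAB h4 hM hsm hA hB hB0 hAB (sh2a hM hfin hA hB hB0 hAB ht htA) hc k1
    (by rw [ht]; unfold dt; simp) k2 k3)

theorem sh2d [CharZero K] (h4 : ∀ p : K[X], p.natDegree ≤ 4 → p.Splits)
    (hM : ∀ i, (M i).IsSymm) (hsm : Sm M) (hfin : ¬ Inf M) {A B t z : Fin 5 → K}
    (hA : bv M A A = 0) (hB : bv M B B = 0) (hB0 : B ≠ 0)
    (hAB : ∀ κ : K, A ≠ κ • B)
    (ht : bv M A t = 0) (htA : ∀ κ : K, t ≠ κ • A)
    (hz : (2 : K) • bv M A z + bv M t t = 0)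
    (u v s : K) : z ≠ u • A + v • B + s • t := by
  intro h
  rw [h] at hz
  simp only [bv_add_right, bv_smul_right] at hz
  rw [hA, ht] at hz
  have h1 : (2 * v) • bv M A B + (1 : K) • bv M t t + (0 : K) • bv M B t = 0 := by
    rw [← hz]; module
  obtain ⟨c, hc, k1, k2, k3⟩ := dep3 (fun hl => one_ne_zero hl.2.1) h1
  exact hfin (planeAB h4 hM hsm hA hB hB0 hAB (sh2a hM hfin hA hB hB0 hAB ht htA) hc k1
    (by rw [ht]; unfold dt; simp) k3 k2)

theorem sh3a (hM : ∀ i, (M i).IsSymm) (hfin : ¬ Inf M) {A t z : Fin 5 → K}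
    (hA0 : A ≠ 0) (hA : bv M A A = 0) (ht : bv M A t = 0) (htA : ∀ κ : K, t ≠ κ • A)
    (hz : (2 : K) • bv M A z + bv M t t = 0) (a b : K) : z ≠ a • A + b • t := by
  intro h
  rw [h] at hz
  simp only [bv_add_right, bv_smul_right] at hz
  rw [hA, ht] at hz
  have h1 : bv M t t = 0 := by rw [← hz]; module
  exact hfin (line_inf hM hA0 htA h1 (by rw [bv_comm hM, ht]) hA)

theorem sh3b [CharZero K] (h4 : ∀ p : K[X], p.natDegree ≤ 4 → p.Splits)
    (hM : ∀ i, (M i).IsSymm) (hsm : Sm M) (hfin : ¬ Inf M) {A t z y : Fin 5 → K}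
    (hA0 : A ≠ 0) (hA : bv M A A = 0) (ht : bv M A t = 0) (htA : ∀ κ : K, t ≠ κ • A)
    (hz : (2 : K) • bv M A z + bv M t t = 0) (hy : bv M A y + bv M t z = 0)
    (u v s : K) : y ≠ u • A + v • t + s • z := by
  intro h
  rw [h] at hy
  simp only [bv_add_right, bv_smul_right] at hy
  rw [hA, ht] at hy
  have h1 : s • bv M A z + (1 : K) • bv M t z + (0 : K) • bv M z z = 0 := by
    rw [← hy]; module
  obtain ⟨c, hc, k1, k2, k3⟩ := dep3 (fun hl => one_ne_zero hl.2.1) h1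
  have htt : bv M t t = (-2 : K) • bv M A z := by
    rw [← sub_eq_zero, ← hz]; module
  have hAt : ∀ κ : K, A ≠ κ • t := by
    intro κ hκ
    by_cases hκ0 : κ = 0
    · rw [hκ0, zero_smul] at hκ
      exact hA0 hκ
    · exact htA κ⁻¹ (by rw [hκ, smul_smul, inv_mul_cancel₀ hκ0, one_smul])
  have ht0 : t ≠ 0 := fun h0 => htA 0 (by rw [h0, zero_smul])
  refine hfin (plane3 h4 hM hsm hc (ind3_of ht0 hAt (sh3a hM hfin hA0 hA ht htA hz)) ?_ ?_ k3 ?_
    k1 k2)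
  · rw [hA]; unfold dt; simp
  · rw [htt, dt_smul, k1, mul_zero]
  · rw [ht]; unfold dt; simp

end Pool.Agent.H31.G5
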